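import Pool.Agent.LOA.Targets

/-!
# Project LOA: the asked bits
-/

set_option autoImplicit false

namespace Pool.Agent.LOA

open Pool.Agent.LOW Classical

/-- Basic facts on the asked bits. -/
theorem p_ASK : T_ASK := by
  intro V T z z'
  induction T with
  | leaf a =>
    refine ⟨by simp [asked, DT.depth], fun S _ v hv => ?_, fun _ => ⟨rfl, rfl⟩⟩
    simp [asked] at hv
  | node v l r ihl ihr =>
    obtain ⟨dl, il, el⟩ := ihl
    obtain ⟨dr, ir, er⟩ := ihr
    refine ⟨?_, ?_, ?_⟩
    · refine (Finset.card_insert_le _ _).trans ?_
      rw [DT.depth]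
      apply Nat.add_le_add_right
      split
      · exact dr.trans (le_max_right _ _)
      · exact dl.trans (le_max_left _ _)
    · intro S hS u hu
      rw [asked, Finset.mem_insert] at hu
      rcases hu with rfl | hu
      · exact hS.1
      · split at hu
        · exact ir S hS.2.2 u hu
        · exact il S hS.2.1 u hu
    · intro hz
      rw [asked] at hz
      have hv : z' v = z v := hz v (Finset.mem_insert_self _ _)
      rw [asked, asked, DT.eval, DT.eval, hv]
      cases hb : z v with
      | true =>
        simp only [hb, if_true] at hz ⊢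
        obtain ⟨h1, h2⟩ := er fun u hu => hz u (Finset.mem_insert_of_mem hu)
        exact ⟨by rw [h1], h2⟩
      | false =>
        simp only [hb, Bool.false_eq_true, if_false] at hz ⊢
        obtain ⟨h1, h2⟩ := el fun u hu => hz u (Finset.mem_insert_of_mem hu)
        exact ⟨by rw [h1], h2⟩

end Pool.Agent.LOA
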