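import Pool.Agent.LOA.Targets
import Pool.Agent.LOW.SEL

/-!
# T_CERT: many certificates which agree with `z` where they meet
-/

set_option autoImplicit false

namespace Pool.Agent.LOA

open Pool.Agent.LOW Classical

theorem p_CERT (hASK : T_ASK) (hCHN : T_CHN) : T_CERT := by
  intro V L w n S G hL hno
  obtain ⟨z, hzG, hz, cs, hlen, hcs, hpair⟩ := hCHN V L w S ((w + 1) * n) G hL hno
  refine ⟨z, hzG, hz, ?_⟩
  let f : DT V × (V → Bool) → Finset V × (V → Bool) := fun c => (asked c.2 c.1, c.2)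
  obtain ⟨cs', hsub, hlen', hpair'⟩ := Pool.Agent.LOW.p_SEL V z w n (cs.map f) (by
    intro c hc
    obtain ⟨c0, hc0, rfl⟩ := List.mem_map.mp hc
    exact (hASK V c0.1 c0.2 c0.2).1.trans (hL _ (hcs c0 hc0).1).1) (by
    rw [List.length_map, hlen]; omega) (by
    rw [List.pairwise_map]
    exact hpair)
  obtain ⟨l, hl, rfl⟩ := List.sublist_map_iff.mp hsub
  rw [List.length_map] at hlen'
  rw [List.pairwise_map] at hpair'
  have hlt : ∀ i : Fin n, i.1 < l.length := fun i => by rw [hlen']; exact i.2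
  refine ⟨fun i => (l[i.1]'(hlt i)).1, fun i => (l[i.1]'(hlt i)).2, ?_, ?_⟩
  · intro i
    exact hcs _ (hl.subset (List.getElem_mem (hlt i)))
  · intro i j hij v hvi hvj
    rw [List.pairwise_iff_getElem] at hpair'
    rcases lt_or_gt_of_ne (fun h => hij (Fin.ext h) : i.1 ≠ j.1) with h | h
    · exact (hpair' i.1 j.1 (hlt i) (hlt j) h).1 v hvi hvj
    · exact (hpair' j.1 i.1 (hlt j) (hlt i) h).2 v hvj hvi

end Pool.Agent.LOA
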