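import Pool.Agent.LOA.Targets
import Pool.Agent.LOW.CHAIN

set_option autoImplicit false

/-!
# The chain of certificates in a world (target CHN)
-/

namespace Pool.Agent.LOA

open Pool.Agent.LOW Classical

theorem p_CHN (hASK : T_ASK) : T_CHN := by
  intro V L w S m
  -- a certificate in `G`
  have cert : ∀ (k : ℕ) (G : Set (V → Bool)),
      (¬ ∃ T : DT V, T.depth ≤ k ∧ T.In S ∧ ∀ z ∈ G, (T.eval z = true ↔ Sat L z)) →
      ∃ h ∈ G, ∃ T ∈ L, T.eval h = true := by
    intro k G H
    by_contra hcon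
    push Not at hcon
    apply H
    refine ⟨DT.leaf false, Nat.zero_le _, trivial, fun z hz => ?_⟩
    constructor
    · intro h
      exact absurd h (by simp [DT.eval])
    · rintro ⟨T, hT, h⟩
      exact absurd h (hcon z hz T hT)
  induction m with
  | zero =>
    intro G hL H
    obtain ⟨h, hG, T, hT, hTh⟩ := cert _ G H
    have h2 : ∃ z ∈ G, ¬ Sat L z := by
      by_contra hcon
      push Not at hcon
      apply H
      refine ⟨DT.leaf true, Nat.zero_le _, trivial, fun z hz => ?_⟩
      constructor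
      · intro _
        exact hcon z hz
      · intro _
        rfl
    obtain ⟨z, hz, hfz⟩ := h2
    refine ⟨z, hz, hfz, [(T, h)], rfl, ?_, List.pairwise_singleton _ _⟩
    intro c hc
    rw [List.mem_singleton] at hc
    subst hc
    exact ⟨hT, hG, hTh⟩
  | succ m ih =>
    intro G hL H
    obtain ⟨h, hG, T, hT, hTh⟩ := cert _ G H
    obtain ⟨hcard, hin, -⟩ := hASK V T h h
    set C := asked h T with hC
    -- the answers
    have h2 : ∃ q : V → Bool, ¬ ∃ T : DT V, T.depth ≤ w * m ∧ T.In S ∧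
        ∀ z ∈ {z | z ∈ G ∧ ∀ v ∈ C, z v = q v}, (T.eval z = true ↔ Sat L z) := by
      by_contra hcon
      push Not at hcon
      apply H
      obtain ⟨T₁, h3, h4, h5⟩ := CHAIN_.ask (S := S) (w * m) (fun z => Sat L z)
        C.toList (fun v hv => hin S (hL T hT).2 v (Finset.mem_toList.1 hv))
        (fun z => z ∈ G) (by
          intro q
          obtain ⟨T₂, h6, h7, h8⟩ := hcon q
          refine ⟨T₂, h6, h7, fun z hz hg => h8 z ⟨hg, fun v hv => ?_⟩⟩
          exact hz v (Finset.mem_toList.2 hv))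
      refine ⟨T₁, ?_, h4, fun z hz => h5 z hz⟩
      rw [Finset.length_toList] at h3
      have h6 : C.card ≤ w := hcard.trans (hL T hT).1
      calc T₁.depth ≤ C.card + w * m := h3
        _ ≤ w + w * m := by omega
        _ = w * (m + 1) := by ring
    obtain ⟨q, hno⟩ := h2
    obtain ⟨z, hz, hfz, cs, hlen, hcs, hpw⟩ := ih {z | z ∈ G ∧ ∀ v ∈ C, z v = q v} hL hno
    refine ⟨z, hz.1, hfz, (T, h) :: cs, by rw [List.length_cons, hlen], ?_, ?_⟩
    · intro c hc
      rcases List.mem_cons.1 hc with rfl | hc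
      · exact ⟨hT, hG, hTh⟩
      · obtain ⟨h3, h4, h5⟩ := hcs c hc
        exact ⟨h3, h4.1, h5⟩
    · rw [List.pairwise_cons]
      refine ⟨fun c hc v hv _ => ?_, hpw⟩
      obtain ⟨-, h4, -⟩ := hcs c hc
      rw [h4.2 v hv, hz.2 v hv]

end Pool.Agent.LOA
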