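import Pool.Agent.LOA.Targets
import Pool.Agent.LOW.NPP
import Pool.Agent.LOW.LOCN
import Pool.Agent.LOW.MACH

/-!
# Part CLS of project LOA: the three classes
-/

set_option autoImplicit false

namespace Pool.Agent.LOA

open Pool.Agent.LOW Classical

namespace CLS_

theorem mem_W {m : ℕ} {y : List Bool} : y ∈ W m ↔ y.length ≤ m := by
  simp [W, Set.Finite.mem_toFinset]

theorem cnt_eq {X C : Lang} {Q : List Instr} {c : ℕ}
    (h : Decides X emp Q C (fun n => (n + 2) ^ c)) (j : ℕ) (x : List Bool) :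
    cnt X Q j c x =
      {y : List Bool | y.length ≤ (x.length + 2) ^ j ∧ C (pair x y) = true}.ncard := by
  unfold cnt
  rw [← Set.ncard_coe_finset]
  congr 1
  ext y
  simp only [Finset.coe_filter, mem_W, NPP_.acc_iff h, Set.mem_ofPred_eq]

theorem cam_eq {X C : Lang} {Q : List Instr} {c : ℕ}
    (h : Decides X emp Q C (fun n => (n + 2) ^ c)) (i j : ℕ) (x : List Bool) :
    cam X Q i j c x = {r : List Bool |
      r.length = (x.length + 2) ^ i ∧ ∃ y : List Bool, y.length ≤ (x.length + 2) ^ j ∧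
        C (pair (pair x r) y) = true}.ncard := by
  unfold cam
  rw [← Set.ncard_coe_finset]
  congr 1
  ext r
  simp only [Finset.coe_filter, mem_W, NPP_.acc_iff h, Set.mem_ofPred_eq]
  constructor
  · rintro ⟨_, h1, h2⟩
    exact ⟨h1, h2⟩
  · rintro ⟨h1, h2⟩
    exact ⟨h1.le, h1, h2⟩

theorem npf_eq {O A C : Lang} {Q : List Instr} {j c : ℕ}
    (h : Decides O emp Q C (fun n => (n + 2) ^ c))
    (hA : ∀ x : List Bool, A x = true ↔
      ∃ y : List Bool, y.length ≤ (x.length + 2) ^ j ∧ C (pair x y) = true) :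
    A = npf Q j c O := by
  funext x
  unfold npf
  rw [Bool.eq_iff_iff, hA x, decide_eq_true_iff]
  simp only [NPP_.acc_iff h]

/-- from trees for the nondeterministic machine to the class `P` -/
theorem fin {cd : ℕ → Code} {g : Lang} (hCOLLC : T_COLLC) (hcd : Function.Surjective cd)
    (hg : g ∈ Con) {m j c : ℕ} {Q : List Instr}
    (h : ∃ K₀ : ℕ, ∀ K, K₀ ≤ K → ∀ x : List Bool,
      ∃ T : DT (List Bool), T.depth ≤ (x.length + 2) ^ K ∧ T.In (Sh ((x.length + 2) ^ K)) ∧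
      ∀ g' ∈ Con, Eqm m g g' → T.eval g' = npf Q j c (orcC cd g') x) :
    npf Q j c (orcC cd g) ∈ P (orcC cd g) emp := by
  obtain ⟨K₀, hK₀⟩ := h
  obtain ⟨K₁, hK₁⟩ := (p_LOCN (p_LOC p_LEN)).1 Q j c
  exact hCOLLC cd g m (max K₀ K₁) (Fn.np Q j c) hcd hg (hK₁ _ (le_max_right _ _)).1
    (hK₀ _ (le_max_left _ _))

end CLS_

open CLS_ in
theorem p_CLS (h1 : T_ROBFEW) (h2 : T_ROBAW) (h3 : T_ROBAM) (hCOLLC : T_COLLC) : T_CLS := by
  intro cd g hcd hg hrob
  refine ⟨?_, ?_, ?_⟩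
  · rintro A ⟨C, ⟨Q, c, hQ⟩, j, q, hA⟩
    have e1 := npf_eq hQ fun x => (hA x).1
    have hR : ∃ m, RobT cd g m (Test.few Q j c q) := by
      rcases hrob (Test.few Q j c q) with ⟨x, hx⟩ | h
      · exfalso
        apply hx
        show cnt (orcC cd g) Q j c x ≤ (x.length + 2) ^ q
        rw [cnt_eq hQ]
        exact (hA x).2
      · exact h
    obtain ⟨m, hm⟩ := hR
    rw [e1]
    exact fin hCOLLC hcd hg (h1 cd g m Q j c q hm)
  · rintro A ⟨hA1, C, ⟨Q₁, c₁, hQ₁⟩, D, ⟨Q₂, c₂, hQ₂⟩, j', e, i, hA⟩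
    obtain ⟨Q, j, c, e1⟩ := NPP_.np_eq hA1
    have hR : ∃ m, RobT cd g m (Test.aw Q j c Q₁ Q₂ j' c₁ c₂ e i) := by
      rcases hrob (Test.aw Q j c Q₁ Q₂ j' c₁ c₂ e i) with ⟨x, hx⟩ | h
      · exfalso
        apply hx
        show (npf Q j c (orcC cd g) x = true →
            2 * 2 ^ (e * (x.length + 2) ^ i) + 3 * cnt (orcC cd g) Q₂ j' c₂ x ≤
              3 * cnt (orcC cd g) Q₁ j' c₁ x ∧
            cnt (orcC cd g) Q₁ j' c₁ x ≤
              2 ^ (e * (x.length + 2) ^ i) + cnt (orcC cd g) Q₂ j' c₂ x) ∧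
          (npf Q j c (orcC cd g) x = false →
            cnt (orcC cd g) Q₂ j' c₂ x ≤ cnt (orcC cd g) Q₁ j' c₁ x ∧
            3 * cnt (orcC cd g) Q₁ j' c₁ x ≤
              2 ^ (e * (x.length + 2) ^ i) + 3 * cnt (orcC cd g) Q₂ j' c₂ x)
        rw [cnt_eq hQ₁, cnt_eq hQ₂, ← e1]
        exact hA x
      · exact h
    obtain ⟨m, hm⟩ := hR
    rw [e1]
    exact fin hCOLLC hcd hg (h2 cd g m Q j c Q₁ Q₂ j' c₁ c₂ e i hm)
  · rintro A ⟨hA1, C, ⟨Q', c', hQ'⟩, i, j', hA⟩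
    obtain ⟨Q, j, c, e1⟩ := NPP_.np_eq hA1
    have hR : ∃ m, RobT cd g m (Test.am Q j c Q' i j' c') := by
      rcases hrob (Test.am Q j c Q' i j' c') with ⟨x, hx⟩ | h
      · exfalso
        apply hx
        show (npf Q j c (orcC cd g) x = false → 2 * 2 ^ ((x.length + 2) ^ i) ≤
            3 * cam (orcC cd g) Q' i j' c' x) ∧
          (npf Q j c (orcC cd g) x = true → 3 * cam (orcC cd g) Q' i j' c' x ≤
            2 ^ ((x.length + 2) ^ i))
        rw [cam_eq hQ', ← e1]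
        exact hA x
      · exact h
    obtain ⟨m, hm⟩ := hR
    rw [e1]
    exact fin hCOLLC hcd hg (h3 cd g m Q j c Q' i j' c' hm)

end Pool.Agent.LOA
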