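import Pool.Agent.LOW.Defs

/-!
# The classes `FewP`, `AWPP` and `coAM` relative to an oracle
-/

set_option autoImplicit false

namespace Pool.Agent.LOA

open Pool.Agent.LOW

/-- The class `FewP` relative to `O`: `B` is accepted by a nondeterministic polynomial time machine
with at most `(|x| + 2) ^ q` accepting paths (witnesses) on every input `x`. -/
def FewP (O : Lang) : Set Lang :=
  {B | ∃ C ∈ P O emp, ∃ j q : ℕ, ∀ x : List Bool,
    (B x = true ↔ ∃ y : List Bool, y.length ≤ (x.length + 2) ^ j ∧ C (pair x y) = true) ∧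
    {y : List Bool | y.length ≤ (x.length + 2) ^ j ∧ C (pair x y) = true}.ncard ≤
      (x.length + 2) ^ q}

/-- The class `AWPP` relative to `O` (in the form of Fenner): there is a gap function, that is the
difference `G` of the numbers of witnesses for two relations `C` and `D` in `P`, and
`H = 2 ^ (e * (|x| + 2) ^ i)`, such that `2 / 3 ≤ G / H ≤ 1` for `x` in `B` and `0 ≤ G / H ≤ 1 / 3` for
`x` not in `B`. The case `e = 0` is the class `SPP`: `G = 1` for `x` in `B` and `G = 0` otherwise. -/
def AWPP (O : Lang) : Set Lang :=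
  {B | ∃ C ∈ P O emp, ∃ D ∈ P O emp, ∃ j e i : ℕ, ∀ x : List Bool,
    (B x = true →
      2 * 2 ^ (e * (x.length + 2) ^ i) +
        3 * {y : List Bool | y.length ≤ (x.length + 2) ^ j ∧ D (pair x y) = true}.ncard ≤
        3 * {y : List Bool | y.length ≤ (x.length + 2) ^ j ∧ C (pair x y) = true}.ncard ∧
      {y : List Bool | y.length ≤ (x.length + 2) ^ j ∧ C (pair x y) = true}.ncard ≤
        2 ^ (e * (x.length + 2) ^ i) +
          {y : List Bool | y.length ≤ (x.length + 2) ^ j ∧ D (pair x y) = true}.ncard) ∧
    (B x = false →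
      {y : List Bool | y.length ≤ (x.length + 2) ^ j ∧ D (pair x y) = true}.ncard ≤
        {y : List Bool | y.length ≤ (x.length + 2) ^ j ∧ C (pair x y) = true}.ncard ∧
      3 * {y : List Bool | y.length ≤ (x.length + 2) ^ j ∧ C (pair x y) = true}.ncard ≤
        2 ^ (e * (x.length + 2) ^ i) +
          3 * {y : List Bool | y.length ≤ (x.length + 2) ^ j ∧ D (pair x y) = true}.ncard)}

/-- The class `coAM` relative to `O`: if `x` is not in `B` then for at least two thirds of the words
`r` of length `(|x| + 2) ^ i` there is an answer `y` with `(x, r, y) ∈ C`, and if `x` is in `B` then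
this is so for at most one third of them. -/
def CoAM (O : Lang) : Set Lang :=
  {B | ∃ C ∈ P O emp, ∃ i j : ℕ, ∀ x : List Bool,
    (B x = false → 2 * 2 ^ ((x.length + 2) ^ i) ≤ 3 * {r : List Bool |
      r.length = (x.length + 2) ^ i ∧ ∃ y : List Bool, y.length ≤ (x.length + 2) ^ j ∧
        C (pair (pair x r) y) = true}.ncard) ∧
    (B x = true → 3 * {r : List Bool |
      r.length = (x.length + 2) ^ i ∧ ∃ y : List Bool, y.length ≤ (x.length + 2) ^ j ∧
        C (pair (pair x r) y) = true}.ncard ≤ 2 ^ ((x.length + 2) ^ i))}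

end Pool.Agent.LOA
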