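import Pool.Agent.LOW.Core
import Pool.Agent.LOA.Defs

/-!
# Definitions used in the proof (project LOA)
-/

set_option autoImplicit false

namespace Pool.Agent.LOA

open Pool.Agent.LOW Classical

/-! ## The constraint -/

/-- The number of zeros of `g` in the block of `x`, that is the number of words `y` with
`|y| ≤ (|x| + 2) ^ 2` and `g (pair x y) = false`. -/
noncomputable def nz (g : Lang) (x : List Bool) : ℕ :=
  ((W ((x.length + 2) ^ 2)).filter fun y => g (pair x y) = false).card

/-- The constraint: the number of zeros in every block is `0` or odd. -/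
def Con : Set Lang := {g | ∀ x : List Bool, nz g x = 0 ∨ Odd (nz g x)}

/-- The words of the block of `x`. -/
noncomputable def blk (x : List Bool) : Finset (List Bool) :=
  (W ((x.length + 2) ^ 2)).image (pair x)

/-- The slice of `Con` of the languages that agree with `g₀` on the words of length at most `l`. -/
def Slc (l : ℕ) (g₀ : Lang) : Set Lang := {z | z ∈ Con ∧ Eqm l g₀ z}

/-- `z` with the bits of `D` flipped. -/
noncomputable def flipD (D : Finset (List Bool)) (z : Lang) : Lang :=
  fun v => if v ∈ D then !(z v) else z v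

/-! ## Decision trees -/

/-- The bits asked by the tree on `z`. -/
noncomputable def asked {V : Type} (z : V → Bool) : DT V → Finset V
  | DT.leaf _ => ∅
  | DT.node v l r => insert v (if z v then asked z r else asked z l)

/-- Some tree of the list has the value `true`. -/
def Sat {V : Type} (L : List (DT V)) (z : V → Bool) : Prop := ∃ T ∈ L, T.eval z = true

/-- The gap of `M₁` and `M₂` is between `2 H / 3` and `H` if `Sat L z`, and between `0` and `H / 3`
otherwise, for `z` in the slice. -/
def Gap (l : ℕ) (g₀ : Lang) (L M₁ M₂ : List (DT (List Bool))) (H : ℕ) : Prop :=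
  ∀ z ∈ Slc l g₀,
    (Sat L z →
      2 * H + 3 * M₂.countP (fun T => T.eval z) ≤ 3 * M₁.countP (fun T => T.eval z) ∧
      M₁.countP (fun T => T.eval z) ≤ H + M₂.countP (fun T => T.eval z)) ∧
    (¬ Sat L z →
      M₂.countP (fun T => T.eval z) ≤ M₁.countP (fun T => T.eval z) ∧
      3 * M₁.countP (fun T => T.eval z) ≤ H + 3 * M₂.countP (fun T => T.eval z))

/-! ## The oracle -/

/-- As `LOW.build`, but the codes need only be correct on `Con`. -/
noncomputable def buildC (cd : ℕ → Code) (t : List Bool → DT (List Bool)) :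
    List Bool → DT (List Bool)
  | [] => DT.leaf false
  | false :: w => DT.node w (DT.leaf false) (DT.leaf true)
  | [true] => DT.leaf false
  | true :: false :: w => DT.leaf (decide (∃ (m e : ℕ) (x : List Bool),
      w = triple m e x ∧ (x.length + 2) ^ (cd e).1 ≤ m))
  | true :: true :: w =>
      if h : ∃ T : DT (List Bool), T.depth ≤ w.length ∧ T.In (Sh w.length) ∧
          ∃ (m e : ℕ) (x : List Bool), w = triple m e x ∧ ∀ g ∈ Cyl (cd e).2.1 ∩ Con,
            T.eval g = (cd e).2.2.fn (fun v => (t v).eval g) x
      then h.choose else DT.leaf false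

/-- The trees for the words of length less than `L`. -/
noncomputable def trnC (cd : ℕ → Code) : ℕ → List Bool → DT (List Bool)
  | 0 => fun _ => DT.leaf false
  | L + 1 => fun u => if u.length = L then buildC cd (trnC cd L) u else trnC cd L u

/-- The tree for the word `u`. -/
noncomputable def trC (cd : ℕ → Code) (u : List Bool) : DT (List Bool) := trnC cd (u.length + 1) u

/-- The oracle with the generic part `g`. -/
noncomputable def orcC (cd : ℕ → Code) (g : Lang) : Lang := fun u => (trC cd u).eval g

/-! ## Tests -/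

/-- The number of witnesses. -/
noncomputable def cnt (X : Lang) (Q : List Instr) (j c : ℕ) (x : List Bool) : ℕ :=
  ((W ((x.length + 2) ^ j)).filter fun y => acc X emp Q c (pair x y)).card

/-- The number of random words with an accepted answer. -/
noncomputable def cam (X : Lang) (Q : List Instr) (i j c : ℕ) (x : List Bool) : ℕ :=
  ((W ((x.length + 2) ^ i)).filter fun r => r.length = (x.length + 2) ^ i ∧
    ∃ y : List Bool, y.length ≤ (x.length + 2) ^ j ∧ acc X emp Q c (pair (pair x r) y)).card

/-- The tests: a nondeterministic machine `(Q, j, c)` and the data of a machine of one of the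
classes `FewP`, `AWPP`, `coAM` for the same language. -/
inductive Test : Type
  | few (Q : List Instr) (j c q : ℕ)
  | aw (Q : List Instr) (j c : ℕ) (Q₁ Q₂ : List Instr) (j' c₁ c₂ e i : ℕ)
  | am (Q : List Instr) (j c : ℕ) (Q' : List Instr) (i j' c' : ℕ)

/-- The functional of the nondeterministic machine. -/
def Test.fn : Test → Fn
  | Test.few Q j c _ => Fn.np Q j c
  | Test.aw Q j c _ _ _ _ _ _ _ => Fn.np Q j c
  | Test.am Q j c _ _ _ _ => Fn.np Q j c

/-- The test is passed at `x` with the oracle `X`. -/
def Test.ok (X : Lang) (x : List Bool) : Test → Prop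
  | Test.few Q j c q => cnt X Q j c x ≤ (x.length + 2) ^ q
  | Test.aw Q j c Q₁ Q₂ j' c₁ c₂ e i =>
      (npf Q j c X x = true →
        2 * 2 ^ (e * (x.length + 2) ^ i) + 3 * cnt X Q₂ j' c₂ x ≤ 3 * cnt X Q₁ j' c₁ x ∧
        cnt X Q₁ j' c₁ x ≤ 2 ^ (e * (x.length + 2) ^ i) + cnt X Q₂ j' c₂ x) ∧
      (npf Q j c X x = false →
        cnt X Q₂ j' c₂ x ≤ cnt X Q₁ j' c₁ x ∧
        3 * cnt X Q₁ j' c₁ x ≤ 2 ^ (e * (x.length + 2) ^ i) + 3 * cnt X Q₂ j' c₂ x)
  | Test.am Q j c Q' i j' c' =>
      (npf Q j c X x = false → 2 * 2 ^ ((x.length + 2) ^ i) ≤ 3 * cam X Q' i j' c' x) ∧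
      (npf Q j c X x = true → 3 * cam X Q' i j' c' x ≤ 2 ^ ((x.length + 2) ^ i))

/-- The test is robust above the words of length at most `m` of `g`. -/
def RobT (cd : ℕ → Code) (g : Lang) (m : ℕ) (t : Test) : Prop :=
  ∀ g' ∈ Con, Eqm m g g' → ∀ x, t.ok (orcC cd g') x

/-- The language for the separation of `NP` and `⊕P`. -/
noncomputable def VV (g : Lang) : Lang := fun x =>
  decide (∃ y : List Bool, y.length ≤ x.length + 2 ∧ g (pair x y) = false)

end Pool.Agent.LOA
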