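import Pool.Agent.LOA.Targets
import Pool.Agent.LOW.DENS2

/-!
# Project LOA: the second requirement is dense
-/

set_option autoImplicit false

namespace Pool.Agent.LOA

open Pool.Agent.LOW Classical

open Pool.Agent.LOW.DENS2_ in
theorem p_DENS2C (hBR : T_BRC) (hLB : T_LBC) (hRLEN : T_RLEN) (hNUM : T_NUM) : T_DENS2C := by
  intro cd Q c js g₀ m hg₀
  by_contra hcon
  push Not at hcon
  obtain ⟨C₀, hC₀⟩ := hBR cd Q c js
  obtain ⟨c', hc'⟩ := rlen hRLEN js.length
  obtain ⟨c₂, hc₂⟩ := hRLEN (js.length + 1)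
  obtain ⟨n, hn, hn2⟩ := hNUM (js.length + 10 + C₀ + c') m
  obtain ⟨C, hCB, hCe⟩ := hC₀ (List.replicate n true)
  rw [List.length_replicate] at hCB
  set A := (n + 2) ^ C₀ with hA
  set a := (n + 2) ^ c' with ha
  have hA1 : 1 ≤ A := Nat.one_le_pow _ _ (by omega)
  have ha1 : 1 ≤ a := Nat.one_le_pow _ _ (by omega)
  have hnum : (16 * (js.length * A + A + 2) + 1) * (a + 3) ≤ 2 ^ n := by
    refine (num_bound n js.length A a hA1 ha1).trans (le_trans ?_ hn2)
    have h1 : 2 ^ (js.length + 10) ≤ (n + 2) ^ (js.length + 10) := Nat.pow_le_pow_left (by omega) _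
    calc 2 ^ (js.length + 10) * (A * a) ≤ (n + 2) ^ (js.length + 10) * (A * a) := Nat.mul_le_mul_right _ h1
      _ = (n + 2) ^ (js.length + 10 + C₀ + c') := by rw [hA, ha]; ring
  have hM : 4 * (2 ^ A) ^ js.length ≤ 2 ^ (js.length * A + A + 2) := by
    rw [← pow_mul, show (4 : ℕ) = 2 ^ 2 by norm_num, ← pow_add]
    refine Nat.pow_le_pow_right (by norm_num) ?_
    nlinarith
  refine hLB n (js.length * A + A + 2) a (2 ^ A) js.length g₀ C hg₀ (by omega) (by omega)
    (fun i hi u hu => hc' n i hi u hu) hnum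
    Nat.one_le_two_pow hM (bd_mono _ A _ (by nlinarith) js.length C hCB) ?_
  intro z hzC hz
  have hE : Eqm m g₀ z := by
    intro v hv
    refine (hz v ?_).symm
    intro hvR
    have := (hc₂ n v hvR).1
    omega
  rw [hCe z]
  exact (hcon z hzC hE n).symm

end Pool.Agent.LOA
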