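import Pool.Agent.LOA.Targets
import Pool.Agent.LOW.EVEN
import Pool.Agent.LOW.BR
import Pool.Agent.LOW.LOCN
import Pool.Agent.LOW.MACH
import Pool.Agent.LOW.SMALL

/-!
# The separation of `NP` and `⊕P` is dense (target DENS3)
-/

set_option autoImplicit false

namespace Pool.Agent.LOA

open Pool.Agent.LOW Classical

namespace DENS3_

/-- the extension of a word of length `n` to a word of length `(n + 2) ^ 2` -/
def ext (n : ℕ) (b : Bool) (w : List Bool) : List Bool :=
  w ++ b :: List.replicate ((n + 2) ^ 2 - n - 1) false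

theorem length_ext {n : ℕ} {b : Bool} {w : List Bool} (hw : w.length = n) :
    (ext n b w).length = (n + 2) ^ 2 := by
  unfold ext
  rw [List.length_append, List.length_cons, List.length_replicate, hw]
  have : n + 1 ≤ (n + 2) ^ 2 := by nlinarith
  generalize (n + 2) ^ 2 = N at *
  omega

theorem ext_inj {n : ℕ} {b b' : Bool} {w w' : List Bool} (hw : w.length = n)
    (hw' : w'.length = n) (h : ext n b w = ext n b' w') : w = w' ∧ b = b' := by
  unfold ext at h
  have h1 := List.append_inj h (by rw [hw, hw'])
  exact ⟨h1.1, (List.cons.inj h1.2).1⟩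

/-- many words of length `n` -/
theorem words {N n : ℕ} (h : N ≤ 2 ^ n) : ∃ a : Fin N → List Bool,
    Function.Injective a ∧ ∀ i, (a i).length = n := by
  have h1 : Fintype.card (Fin N) ≤ Fintype.card (Fin n → Bool) := by
    rw [Fintype.card_fin, Fintype.card_fun, Fintype.card_bool, Fintype.card_fin]
    exact h
  obtain ⟨f⟩ := Function.Embedding.nonempty_of_card_le h1
  exact ⟨fun i => List.ofFn (f i), fun i j hij => f.injective (List.ofFn_injective hij),
    fun i => List.length_ofFn⟩

/-- the modified language -/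
noncomputable def z0 (g₀ : Lang) (x y0 : List Bool) : Lang :=
  fun v => if v ∈ blk x then !(decide (v = pair x y0)) else g₀ v

/-- the blocks which are flipped -/
def B (x : List Bool) (n : ℕ) {N : ℕ} (a : Fin N → List Bool) (i : Fin N) : Set (List Bool) :=
  {v | v = pair x (a i) ∨ v = pair x (ext n false (a i))}

theorem mem_blk {x v : List Bool} :
    v ∈ blk x ↔ ∃ y : List Bool, y.length ≤ (x.length + 2) ^ 2 ∧ pair x y = v := by
  unfold blk
  rw [Finset.mem_image]
  constructor
  · rintro ⟨y, hy, h⟩
    exact ⟨y, BR_.mem_W.1 hy, h⟩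
  · rintro ⟨y, hy, h⟩
    exact ⟨y, BR_.mem_W.2 hy, h⟩

section main

variable (hDISJ : T_DISJ) {g₀ : Lang} {n N : ℕ} {a : Fin N → List Bool}

include hDISJ

/-- the value of the flipped language in the block -/
theorem val_in (ha : ∀ i, (a i).length = n) (ζ : Fin N → Bool) (y : List Bool)
    (hy : y.length ≤ (n + 2) ^ 2) :
    flp (z0 g₀ (List.replicate n true) (ext n true (List.replicate n false)))
      (B (List.replicate n true) n a) ζ (pair (List.replicate n true) y) = false ↔
    (y = ext n true (List.replicate n false) ∨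
      ∃ i, ζ i = true ∧ (y = a i ∨ y = ext n false (a i))) := by
  have hlt : n < (n + 2) ^ 2 := by nlinarith
  have hin : pair (List.replicate n true) y ∈ blk (List.replicate n true) :=
    mem_blk.2 ⟨y, by rwa [List.length_replicate], rfl⟩
  have hz : z0 g₀ (List.replicate n true) (ext n true (List.replicate n false))
      (pair (List.replicate n true) y) =
      !(decide (y = ext n true (List.replicate n false))) := by
    unfold z0
    rw [if_pos hin]
    congr 1
    apply decide_eq_decide.2
    constructor
    · intro h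
      exact (hDISJ.1 _ _ _ _ h).2
    · intro h
      rw [h]
  have hB : (∃ i, ζ i = true ∧ pair (List.replicate n true) y ∈
      B (List.replicate n true) n a i) ↔
      ∃ i, ζ i = true ∧ (y = a i ∨ y = ext n false (a i)) := by
    constructor
    · rintro ⟨i, hi, h⟩
      refine ⟨i, hi, ?_⟩
      rcases h with h | h
      · exact Or.inl (hDISJ.1 _ _ _ _ h).2
      · exact Or.inr (hDISJ.1 _ _ _ _ h).2
    · rintro ⟨i, hi, h⟩
      refine ⟨i, hi, ?_⟩
      rcases h with h | h
      · left; rw [h]
      · right; rw [h]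
  have hne : (∃ i, ζ i = true ∧ (y = a i ∨ y = ext n false (a i))) →
      y ≠ ext n true (List.replicate n false) := by
    rintro ⟨i, -, h | h⟩ h2
    · rw [h2] at h
      have h3 := congrArg List.length h
      rw [length_ext (List.length_replicate), ha i] at h3
      omega
    · rw [h2] at h
      have h3 := (ext_inj (List.length_replicate) (ha i) h).2
      exact absurd h3 (by decide)
  unfold flp
  rw [hz]
  by_cases hc : ∃ i, ζ i = true ∧ (y = a i ∨ y = ext n false (a i))
  · rw [if_pos (hB.2 hc), Bool.not_not, decide_eq_false (hne hc)]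
    simp only [true_iff]
    exact Or.inr hc
  · rw [if_neg (fun h => hc (hB.1 h))]
    constructor
    · intro h
      left
      by_contra hP
      rw [decide_eq_false hP] at h
      exact absurd h (by decide)
    · rintro (h | h)
      · rw [decide_eq_true h]
        rfl
      · exact absurd h hc

omit hDISJ in
/-- the value of the flipped language outside the block -/
theorem val_out (ha : ∀ i, (a i).length = n) (ζ : Fin N → Bool) (v : List Bool)
    (hv : v ∉ blk (List.replicate n true)) :
    flp (z0 g₀ (List.replicate n true) (ext n true (List.replicate n false)))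
      (B (List.replicate n true) n a) ζ v = g₀ v := by
  have hB : ¬ ∃ i, ζ i = true ∧ v ∈ B (List.replicate n true) n a i := by
    rintro ⟨i, -, h | h⟩
    · apply hv
      rw [h]
      refine mem_blk.2 ⟨_, ?_, rfl⟩
      rw [ha i, List.length_replicate]
      nlinarith
    · apply hv
      rw [h]
      refine mem_blk.2 ⟨_, ?_, rfl⟩
      rw [length_ext (ha i), List.length_replicate]
  unfold flp z0
  rw [if_neg hB, if_neg hv]

/-- the number of zeros in the block is odd -/
theorem nz_in (ha : ∀ i, (a i).length = n) (hinj : Function.Injective a) (ζ : Fin N → Bool) :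
    Odd (nz (flp (z0 g₀ (List.replicate n true) (ext n true (List.replicate n false)))
      (B (List.replicate n true) n a) ζ) (List.replicate n true)) := by
  have hlt : n < (n + 2) ^ 2 := by nlinarith
  set S : Finset (Fin N) := Finset.univ.filter fun i => ζ i = true with hS
  set y0 := ext n true (List.replicate n false) with hy0
  have hy0l : y0.length = (n + 2) ^ 2 := length_ext (List.length_replicate)
  have hset : ((W ((n + 2) ^ 2)).filter fun y =>
      flp (z0 g₀ (List.replicate n true) y0) (B (List.replicate n true) n a) ζ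
        (pair (List.replicate n true) y) = false) =
      insert y0 (S.image a ∪ S.image fun i => ext n false (a i)) := by
    ext y
    rw [Finset.mem_filter, BR_.mem_W, Finset.mem_insert, Finset.mem_union, Finset.mem_image,
      Finset.mem_image]
    constructor
    · rintro ⟨h1, h2⟩
      rw [hy0, val_in hDISJ ha ζ y h1] at h2
      rcases h2 with h2 | ⟨i, hi, h2 | h2⟩
      · exact Or.inl h2
      · exact Or.inr (Or.inl ⟨i, by rw [hS, Finset.mem_filter]; exact ⟨Finset.mem_univ _, hi⟩,
          h2.symm⟩)
      · exact Or.inr (Or.inr ⟨i, by rw [hS, Finset.mem_filter]; exact ⟨Finset.mem_univ _, hi⟩,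
          h2.symm⟩)
    · intro h
      have hl : y.length ≤ (n + 2) ^ 2 := by
        rcases h with h | ⟨i, hi, h⟩ | ⟨i, hi, h⟩
        · rw [h, hy0l]
        · rw [← h, ha i]; exact hlt.le
        · rw [← h, length_ext (ha i)]
      refine ⟨hl, ?_⟩
      rw [hy0, val_in hDISJ ha ζ y hl]
      rcases h with h | ⟨i, hi, h⟩ | ⟨i, hi, h⟩
      · exact Or.inl h
      · rw [hS, Finset.mem_filter] at hi
        exact Or.inr ⟨i, hi.2, Or.inl h.symm⟩
      · rw [hS, Finset.mem_filter] at hi
        exact Or.inr ⟨i, hi.2, Or.inr h.symm⟩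
  have hdis : Disjoint (S.image a) (S.image fun i => ext n false (a i)) := by
    rw [Finset.disjoint_left]
    intro y h1 h2
    rw [Finset.mem_image] at h1 h2
    obtain ⟨i, -, h1⟩ := h1
    obtain ⟨j, -, h2⟩ := h2
    have h3 := congrArg List.length (h1.trans h2.symm)
    rw [length_ext (ha j), ha i] at h3
    omega
  have hnot : y0 ∉ S.image a ∪ S.image fun i => ext n false (a i) := by
    rw [Finset.mem_union, Finset.mem_image, Finset.mem_image]
    rintro (⟨i, -, h⟩ | ⟨i, -, h⟩)
    · have h3 := congrArg List.length h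
      rw [hy0l, ha i] at h3
      omega
    · have h3 := (ext_inj (ha i) (List.length_replicate) h).2
      exact absurd h3 (by decide)
  have hinj' : Function.Injective fun i => ext n false (a i) := fun i j hij =>
    hinj (ext_inj (ha i) (ha j) hij).1
  unfold nz
  rw [List.length_replicate, hset, Finset.card_insert_of_notMem hnot,
    Finset.card_union_of_disjoint hdis, Finset.card_image_of_injective _ hinj,
    Finset.card_image_of_injective _ hinj']
  exact ⟨S.card, by ring⟩

/-- the flipped language satisfies the constraint -/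
theorem mem_con (hg : g₀ ∈ Con) (ha : ∀ i, (a i).length = n) (hinj : Function.Injective a)
    (ζ : Fin N → Bool) :
    flp (z0 g₀ (List.replicate n true) (ext n true (List.replicate n false)))
      (B (List.replicate n true) n a) ζ ∈ Con := by
  intro x
  by_cases hx : x = List.replicate n true
  · rw [hx]
    exact Or.inr (nz_in hDISJ ha hinj ζ)
  · have h1 : nz (flp (z0 g₀ (List.replicate n true) (ext n true (List.replicate n false)))
        (B (List.replicate n true) n a) ζ) x = nz g₀ x := by
      unfold nz
      congr 1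
      apply Finset.filter_congr
      intro y hy
      rw [val_out ha ζ]
      intro h
      have h2 : pair x y ∈ blk x := mem_blk.2 ⟨y, BR_.mem_W.1 hy, rfl⟩
      exact Finset.disjoint_left.1 (hDISJ.2 _ _ hx) h2 h
    rw [h1]
    exact hg x

/-- the values of the test language -/
theorem vv_val (ha : ∀ i, (a i).length = n) (ζ : Fin N → Bool) :
    VV (flp (z0 g₀ (List.replicate n true) (ext n true (List.replicate n false)))
      (B (List.replicate n true) n a) ζ) (List.replicate n true) =
      decide (∃ i, ζ i = true) := by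
  have hlt : n + 2 < (n + 2) ^ 2 := by nlinarith
  unfold VV
  apply decide_eq_decide.2
  rw [List.length_replicate]
  constructor
  · rintro ⟨y, hy, h⟩
    rw [val_in hDISJ ha ζ y (by omega)] at h
    rcases h with h | ⟨i, hi, h⟩
    · have h3 := congrArg List.length h
      rw [length_ext (List.length_replicate)] at h3
      omega
    · exact ⟨i, hi⟩
  · rintro ⟨i, hi⟩
    refine ⟨a i, by rw [ha i]; omega, ?_⟩
    rw [val_in hDISJ ha ζ (a i) (by rw [ha i]; omega)]
    exact Or.inr ⟨i, hi, Or.inl rfl⟩

end main

/-- the counting argument -/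
theorem count {N : ℕ} (hN : 1 ≤ N) (A : (Fin N → Bool) → Finset (List Bool))
    (Y : Finset (List Bool)) (T : List Bool → (Fin N → Bool) → Prop)
    [∀ y ζ, Decidable (T y ζ)] (hA : ∀ ζ, A ζ = Y.filter fun y => T y ζ)
    (hT : ∀ y ∈ Y, Even ((Finset.univ.filter fun ζ : Fin N → Bool => T y ζ).card))
    (h : ∀ ζ : Fin N → Bool, (∃ i, ζ i = true) ↔ Odd (A ζ).card) : False := by
  have h1 : ∑ ζ : Fin N → Bool, ((A ζ).card : ZMod 2) = 0 := by
    have h2 : ∀ ζ : Fin N → Bool, ((A ζ).card : ZMod 2) =
        ∑ y ∈ Y, (if T y ζ then (1 : ZMod 2) else 0) := by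
      intro ζ
      rw [hA ζ, Finset.sum_boole]
    rw [Finset.sum_congr rfl fun ζ _ => h2 ζ, Finset.sum_comm]
    apply Finset.sum_eq_zero
    intro y hy
    rw [Finset.sum_boole]
    exact (ZMod.natCast_eq_zero_iff_even).2 (hT y hy)
  have h3 : ∀ ζ : Fin N → Bool, ((A ζ).card : ZMod 2) =
      1 - (if ζ = fun _ => false then (1 : ZMod 2) else 0) := by
    intro ζ
    by_cases hζ : ζ = fun _ => false
    · rw [if_pos hζ, sub_self]
      have h4 : ¬ Odd (A ζ).card := by
        rw [← h ζ]
        rintro ⟨i, hi⟩
        rw [hζ] at hi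
        exact Bool.false_ne_true hi
      rw [Nat.not_odd_iff_even] at h4
      exact (ZMod.natCast_eq_zero_iff_even).2 h4
    · rw [if_neg hζ, sub_zero]
      have h4 : Odd (A ζ).card := by
        rw [← h ζ]
        by_contra hcon
        push Not at hcon
        apply hζ
        funext i
        simpa using hcon i
      exact (ZMod.natCast_eq_one_iff_odd).2 h4
  rw [Finset.sum_congr rfl fun ζ _ => h3 ζ, Finset.sum_sub_distrib] at h1
  rw [Finset.sum_ite_eq' Finset.univ (fun _ => false) (fun _ => (1 : ZMod 2)),
    if_pos (Finset.mem_univ _), Finset.sum_const, Finset.card_univ, Fintype.card_fun,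
    Fintype.card_bool, Fintype.card_fin] at h1
  have h5 : ((2 ^ N : ℕ) : ZMod 2) = 0 := by
    rw [ZMod.natCast_eq_zero_iff_even]
    exact (Nat.even_pow.2 ⟨even_two, by omega⟩)
  rw [nsmul_eq_mul, h5, zero_mul, zero_sub] at h1
  exact absurd h1 (by decide)

end DENS3_

open DENS3_ in
theorem p_DENS3 (hDISJ : T_DISJ) (hTREE0 : T_TREE0) (hORCLOCC : T_ORCLOCC) : T_DENS3 := by
  intro cd Q j c g₀ m hg
  -- it is enough to find one language and one word
  suffices hex : ∃ g : Lang, g ∈ Con ∧ Eqm m g₀ g ∧ ∃ x, VV g x ≠ paf Q j c (orcC cd g) x by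
    obtain ⟨g, hgC, hgE, x, hx⟩ := hex
    have hLOC := (p_LOCN (p_LOC p_LEN)).1
    obtain ⟨K, hK⟩ := hLOC Q j c
    have hpaf := (hK K le_rfl).2
    refine ⟨g, max (3 * x.length + 3) ((x.length + 2) ^ K), hgC, hgE, fun g' hg' => ⟨x, ?_⟩⟩
    have e1 : VV g' x = VV g x := by
      unfold VV
      apply decide_eq_decide.2
      constructor
      · rintro ⟨y, hy, h⟩
        refine ⟨y, hy, ?_⟩
        rw [hg' _ (le_trans (by rw [BR_.len_pair]; omega) (le_max_left _ _))]
        exact h
      · rintro ⟨y, hy, h⟩
        refine ⟨y, hy, ?_⟩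
        rw [← hg' _ (le_trans (by rw [BR_.len_pair]; omega) (le_max_left _ _))]
        exact h
    have e2 : paf Q j c (orcC cd g') x = paf Q j c (orcC cd g) x := by
      apply hpaf
      intro v hv
      exact (hORCLOCC cd _ g g' hg' v (hv.le.trans (le_max_right _ _))).symm
    rw [e1, e2]
    exact hx
  by_contra hcon
  push Not at hcon
  obtain ⟨n, hn, hn2⟩ := p_NUM ((j + 2) * (2 * c + 2) + 1) m
  set K := (j + 2) * (2 * c + 2) with hK
  have hN : (n + 2) ^ K + 1 ≤ 2 ^ n := by
    refine le_trans ?_ hn2
    rw [pow_succ]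
    have h1 : 1 ≤ (n + 2) ^ K := Nat.one_le_pow _ _ (by omega)
    nlinarith
  obtain ⟨a, hinj, ha⟩ := words hN
  set x := List.replicate n true with hx
  set y0 := ext n true (List.replicate n false) with hy0
  have hgood : ∀ ζ : Fin ((n + 2) ^ K + 1) → Bool,
      VV (flp (z0 g₀ x y0) (B x n a) ζ) x =
        paf Q j c (orcC cd (flp (z0 g₀ x y0) (B x n a) ζ)) x := by
    intro ζ
    apply hcon _ (mem_con hDISJ hg ha hinj ζ)
    intro v hv
    rw [val_out ha ζ v]
    intro h
    obtain ⟨y, -, h2⟩ := mem_blk.1 h
    rw [← h2, BR_.len_pair, List.length_replicate] at hv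
    omega
  choose Tr hTr1 _ hTr3 using fun u => hTREE0 cd Q c u
  refine count (N := (n + 2) ^ K + 1) (by omega)
    (fun ζ => (W ((n + 2) ^ j)).filter fun y =>
      (Tr (pair x y)).eval (flp (z0 g₀ x y0) (B x n a) ζ) = true) (W ((n + 2) ^ j))
    (fun y ζ => (Tr (pair x y)).eval (flp (z0 g₀ x y0) (B x n a) ζ) = true) (fun ζ => rfl)
    ?_ ?_
  · intro y hy
    rw [BR_.mem_W] at hy
    have hd : (Tr (pair x y)).depth < (n + 2) ^ K + 1 := by
      refine Nat.lt_succ_of_le ((hTr1 _).trans ?_)
      rw [BR_.len_pair, hx, List.length_replicate, hK, pow_mul]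
      apply Nat.pow_le_pow_left
      have h1 : 1 ≤ (n + 2) ^ j := Nat.one_le_pow _ _ (by omega)
      rw [pow_add]
      generalize (n + 2) ^ j = M at *
      have h2 : n ≤ M * n := Nat.le_mul_of_pos_left n h1
      have h3 : M * (n + 2) ^ 2 = M * n * n + 4 * (M * n) + 4 * M := by ring
      rw [h3]
      generalize M * n * n = u at *
      generalize M * n = v at *
      omega
    refine p_EVEN (List Bool) _ (B x n a) (z0 g₀ x y0) (Tr (pair x y)) ?_ hd
    intro i i' hii
    rw [Set.disjoint_left]
    rintro v (h1 | h1) (h2 | h2)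
    · exact hii (hinj (hDISJ.1 _ _ _ _ (h1.symm.trans h2)).2)
    · have h3 := congrArg List.length (hDISJ.1 _ _ _ _ (h1.symm.trans h2)).2
      rw [length_ext (ha i'), ha i] at h3
      nlinarith
    · have h3 := congrArg List.length (hDISJ.1 _ _ _ _ (h1.symm.trans h2)).2
      rw [length_ext (ha i), ha i'] at h3
      nlinarith
    · exact hii (hinj (ext_inj (ha i) (ha i') (hDISJ.1 _ _ _ _ (h1.symm.trans h2)).2).1)
  · intro ζ
    have h1 := hgood ζ
    rw [hx, hy0, vv_val hDISJ ha ζ] at h1
    rw [← hx, ← hy0] at h1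
    unfold paf at h1
    rw [decide_eq_decide] at h1
    rw [h1]
    have h2 : {y : List Bool | y.length ≤ (x.length + 2) ^ j ∧
        acc (orcC cd (flp (z0 g₀ x y0) (B x n a) ζ)) emp Q c (pair x y)} =
        ((W ((n + 2) ^ j)).filter fun y =>
          (Tr (pair x y)).eval (flp (z0 g₀ x y0) (B x n a) ζ) = true : Finset (List Bool)) := by
      ext y
      rw [Set.mem_ofPred_eq, Finset.mem_coe, Finset.mem_filter, BR_.mem_W, hTr3, hx,
        List.length_replicate]
    rw [h2, Set.ncard_coe_finset]

end Pool.Agent.LOA
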