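import Pool.Agent.LOA.Targets

/-!
# Decision trees for `NP ∩ coAM`
-/

set_option autoImplicit false

namespace Pool.Agent.LOA

open Pool.Agent.LOW Classical

namespace DTAM_

theorem bool_flip {a b : Bool} (h : a ≠ b) : (!b) = a := by
  cases a <;> cases b <;> simp_all

/-- The choice of the sets `E i`. -/
theorem choose_E (hFIX : T_FIX) (l n w : ℕ) (z : Lang) (B : ℕ → Finset (List Bool))
    (Q : Finset (List Bool)) (hz : z ∈ Con) (hBl : ∀ i < n, ∀ v ∈ B i, l < v.length)
    (hBw : ∀ i < n, (B i).card ≤ w) (hQ : Q.card + (n + 1) * w < 2 ^ (l / 2)) (k : ℕ)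
    (hk : k ≤ n) :
    ∃ E : ℕ → Finset (List Bool), ∀ i < k, (E i).card ≤ w ∧
      (∀ v ∈ E i, l < v.length ∧ v ∉ Q ∧ ∀ j < i, v ∉ E j) ∧ flipD (B i ∪ E i) z ∈ Con := by
  induction k with
  | zero => exact ⟨fun _ => ∅, fun i hi => absurd hi (Nat.not_lt_zero i)⟩
  | succ k ih =>
    obtain ⟨E, hE⟩ := ih (by omega)
    have hc : (Q ∪ (Finset.range k).biUnion E).card ≤ Q.card + k * w := by
      refine (Finset.card_union_le _ _).trans (Nat.add_le_add_left ?_ _)
      refine (Finset.card_biUnion_le_card_mul (Finset.range k) E w ?_).trans ?_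
      · intro i hi
        exact (hE i (Finset.mem_range.1 hi)).1
      · rw [Finset.card_range]
    have hBk := hBw k (by omega)
    obtain ⟨e, he1, he2, he3⟩ := hFIX l z (B k) (Q ∪ (Finset.range k).biUnion E) hz
      (hBl k (by omega)) (by
        have h1 : k * w + 2 * w ≤ (n + 1) * w := by
          rw [← Nat.add_mul]
          exact Nat.mul_le_mul_right _ (by omega)
        omega)
    refine ⟨Function.update E k e, ?_⟩
    intro i hi
    by_cases hik : i = k
    · subst hik
      rw [Function.update_self]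
      refine ⟨he1.trans hBk, ?_, he3⟩
      intro v hv
      obtain ⟨h1, _, h3⟩ := he2 v hv
      rw [Finset.mem_union, not_or] at h3
      refine ⟨h1, h3.1, ?_⟩
      intro j hj
      rw [Function.update_of_ne (by omega)]
      intro hvj
      exact h3.2 (Finset.mem_biUnion.2 ⟨j, Finset.mem_range.2 hj, hvj⟩)
    · rw [Function.update_of_ne hik]
      obtain ⟨h1, h2, h3⟩ := hE i (by omega)
      refine ⟨h1, ?_, h3⟩
      intro v hv
      obtain ⟨h4, h5, h6⟩ := h2 v hv
      refine ⟨h4, h5, ?_⟩
      intro j hj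
      rw [Function.update_of_ne (by omega)]
      exact h6 j hj

/-- One list of trees. -/
theorem single (hASK : T_ASK) (n d : ℕ) (z : Lang) (D : Fin n → Finset (List Bool))
    (hD : ∀ i j, i ≠ j → Disjoint (D i) (D j)) (M : List (DT (List Bool)))
    (hM : ∀ T ∈ M, T.depth ≤ d) :
    (if Sat M z then n else 0) ≤
      (∑ i : Fin n, if Sat M (flipD (D i) z) then 1 else 0) + d := by
  by_cases hz : Sat M z
  · rw [if_pos hz]
    obtain ⟨T, hT, hTz⟩ := hz
    set A := asked z T with hA
    have hAd : A.card ≤ d := (hASK (List Bool) T z z).1.trans (hM T hT)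
    set I := Finset.univ.filter (fun i : Fin n => (A ∩ D i).Nonempty) with hI
    have hIc : I.card ≤ d := by
      refine le_trans ?_ hAd
      have h1 : ∀ i ∈ I, ∃ v, v ∈ A ∧ v ∈ D i := by
        intro i hi
        rw [hI, Finset.mem_filter] at hi
        obtain ⟨v, hv⟩ := hi.2
        rw [Finset.mem_inter] at hv
        exact ⟨v, hv⟩
      choose! f hf using h1
      apply Finset.card_le_card_of_injOn f
      · intro i hi
        exact (hf i hi).1
      · intro i hi j hj hij
        by_contra hne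
        have h2 := (hf i hi).2
        have h3 := (hf j hj).2
        rw [hij] at h2
        exact (Finset.disjoint_left.1 (hD i j hne)) h2 h3
    have h4 : ∀ i ∈ Iᶜ, Sat M (flipD (D i) z) := by
      intro i hi
      rw [Finset.mem_compl, hI, Finset.mem_filter, not_and] at hi
      have h5 := hi (Finset.mem_univ i)
      refine ⟨T, hT, ?_⟩
      rw [((hASK (List Bool) T z (flipD (D i) z)).2.2 ?_).2]
      · exact hTz
      · intro v hv
        unfold flipD
        rw [if_neg]
        intro hvD
        exact h5 ⟨v, Finset.mem_inter.2 ⟨hv, hvD⟩⟩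
    have h6 : Iᶜ.card ≤ ∑ i : Fin n, if Sat M (flipD (D i) z) then 1 else 0 := by
      calc Iᶜ.card = ∑ i ∈ Iᶜ, 1 := by rw [Finset.sum_const, smul_eq_mul, mul_one]
        _ = ∑ i ∈ Iᶜ, (if Sat M (flipD (D i) z) then 1 else 0) := by
          apply Finset.sum_congr rfl
          intro i hi
          rw [if_pos (h4 i hi)]
        _ ≤ ∑ i : Fin n, if Sat M (flipD (D i) z) then 1 else 0 :=
          Finset.sum_le_sum_of_subset (Finset.subset_univ _)
    have h7 : I.card + Iᶜ.card = n := by
      rw [Finset.card_add_card_compl, Fintype.card_fin]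
    omega
  · rw [if_neg hz]
    exact Nat.zero_le _

/-- All lists. -/
theorem all (hASK : T_ASK) (n d : ℕ) (z : Lang) (D : Fin n → Finset (List Bool))
    (hD : ∀ i j, i ≠ j → Disjoint (D i) (D j)) (Rs : List (List (DT (List Bool))))
    (hR : ∀ M ∈ Rs, ∀ T ∈ M, T.depth ≤ d) :
    n * Rs.countP (fun M => decide (Sat M z)) ≤
      (∑ i : Fin n, Rs.countP (fun M => decide (Sat M (flipD (D i) z)))) + d * Rs.length := by
  induction Rs with
  | nil => simp
  | cons M Rs ih =>
    have h1 := ih (fun M' hM' => hR M' (List.mem_cons_of_mem _ hM'))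
    have h2 := single hASK n d z D hD M (hR M List.mem_cons_self)
    simp only [List.countP_cons, decide_eq_true_eq, List.length_cons, Finset.sum_add_distrib]
    rw [Nat.mul_add, Nat.mul_add, Nat.mul_one]
    have h3 : n * (if Sat M z then 1 else 0) = if Sat M z then n else 0 := by
      split_ifs <;> simp
    rw [h3]
    omega

end DTAM_

open DTAM_

theorem p_DTAM (hASK : T_ASK) (hCERT : T_CERT) (hFIX : T_FIX) : T_DTAM := by
  intro l g₀ L w d S Rs hL hR hne hG hnum
  obtain ⟨n, hn⟩ : ∃ n, n = 3 * d + 1 := ⟨_, rfl⟩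
  rw [← hn] at hnum ⊢
  by_contra hno
  obtain ⟨z, hz, hnz, T, h, hT, hd⟩ := hCERT (List Bool) L w n S (Slc l g₀) hL hno
  -- the sets
  set C : Fin n → Finset (List Bool) := fun i => asked (h i) (T i) with hC
  set B : ℕ → Finset (List Bool) := fun i =>
    if hi : i < n then (C ⟨i, hi⟩).filter (fun v => h ⟨i, hi⟩ v ≠ z v) else ∅ with hB
  have hCw : ∀ i, (C i).card ≤ w := fun i =>
    (hASK (List Bool) (T i) (h i) (h i)).1.trans (hL (T i) (hT i).1).1
  have hBm : ∀ (i : Fin n) (v : List Bool), v ∈ B i ↔ v ∈ C i ∧ h i v ≠ z v := by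
    intro i v
    simp only [hB, dif_pos i.2, Finset.mem_filter, Fin.eta]
  set Q : Finset (List Bool) := Finset.univ.biUnion C with hQ
  have hQc : Q.card ≤ n * w := by
    refine (Finset.card_biUnion_le_card_mul Finset.univ C w (fun i _ => hCw i)).trans ?_
    rw [Finset.card_univ, Fintype.card_fin]
  have hCQ : ∀ i v, v ∈ C i → v ∈ Q := by
    intro i v hv
    exact Finset.mem_biUnion.2 ⟨i, Finset.mem_univ i, hv⟩
  obtain ⟨E, hE⟩ := choose_E hFIX l n w z B Q hz.1 (by
      intro i hi v hv
      have h1 := (hBm ⟨i, hi⟩ v).1 hv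
      by_contra hlt
      apply h1.2
      rw [← (hT ⟨i, hi⟩).2.1.2 v (by omega), ← hz.2 v (by omega)]) (by
      intro i hi
      refine le_trans ?_ (hCw ⟨i, hi⟩)
      apply Finset.card_le_card
      intro v hv
      exact ((hBm ⟨i, hi⟩ v).1 hv).1) (by
      have h1 : (n + 1) * w ≤ 3 * (n * w) := by
        rw [← Nat.mul_assoc]
        exact Nat.mul_le_mul_right _ (by omega)
      omega) n (le_refl n)
  set D : Fin n → Finset (List Bool) := fun i => B i ∪ E i with hDdef
  have hBC : ∀ (i j : Fin n) (v : List Bool), i ≠ j → v ∈ B i → v ∉ C j := by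
    intro i j v hij hv hvj
    have h1 := (hBm i v).1 hv
    exact h1.2 (hd j i hij.symm v hvj h1.1)
  have hEQ : ∀ (i : Fin n) (v : List Bool), v ∈ E i → v ∉ Q := by
    intro i v hv
    exact ((hE i i.2).2.1 v hv).2.1
  have hBQ : ∀ (i : Fin n) (v : List Bool), v ∈ B i → v ∈ Q := by
    intro i v hv
    exact hCQ i v ((hBm i v).1 hv).1
  have hDD : ∀ i j, i ≠ j → Disjoint (D i) (D j) := by
    intro i j hij
    rw [Finset.disjoint_left]
    intro v hv hv'
    rw [hDdef, Finset.mem_union] at hv hv'
    rcases hv with hv | hv <;> rcases hv' with hv' | hv'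
    · exact hBC i j v hij hv ((hBm j v).1 hv').1
    · exact hEQ j v hv' (hBQ i v hv)
    · exact hEQ i v hv (hBQ j v hv')
    · have hne : (i : ℕ) ≠ (j : ℕ) := fun hh => hij (Fin.ext hh)
      rcases Nat.lt_or_gt_of_ne hne with hlt | hlt
      · exact ((hE j j.2).2.1 v hv').2.2 i hlt hv
      · exact ((hE i i.2).2.1 v hv).2.2 j hlt hv'
  have hDl : ∀ (i : Fin n) (v : List Bool), v ∈ D i → l < v.length := by
    intro i v hv
    rw [hDdef, Finset.mem_union] at hv
    rcases hv with hv | hv
    · have h1 := (hBm i v).1 hv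
      by_contra hlt
      apply h1.2
      rw [← (hT i).2.1.2 v (by omega), ← hz.2 v (by omega)]
    · exact ((hE i i.2).2.1 v hv).1
  have hzi : ∀ i, flipD (D i) z ∈ Slc l g₀ := by
    intro i
    refine ⟨(hE i i.2).2.2, ?_⟩
    intro v hv
    unfold flipD
    rw [if_neg]
    · exact hz.2 v hv
    · intro hvD
      have := hDl i v hvD
      omega
  have hSat : ∀ i, Sat L (flipD (D i) z) := by
    intro i
    refine ⟨T i, (hT i).1, ?_⟩
    rw [((hASK (List Bool) (T i) (h i) (flipD (D i) z)).2.2 ?_).2]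
    · exact (hT i).2.2
    · intro v hv
      unfold flipD
      by_cases hvB : h i v ≠ z v
      · rw [if_pos (by rw [hDdef, Finset.mem_union]; exact Or.inl ((hBm i v).2 ⟨hv, hvB⟩))]
        exact bool_flip hvB
      · rw [if_neg]
        · exact (not_not.1 hvB).symm
        · intro hvD
          rw [hDdef, Finset.mem_union] at hvD
          rcases hvD with hvD | hvD
          · exact hvB ((hBm i v).1 hvD).2
          · exact hEQ i v hvD (hCQ i v hv)
  have h1 := all hASK n d z D hDD Rs hR
  have h2 := (hG z hz).1 hnz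
  have h3 : 3 * (∑ i : Fin n, Rs.countP (fun M => decide (Sat M (flipD (D i) z)))) ≤
      n * Rs.length := by
    rw [Finset.mul_sum]
    calc ∑ i : Fin n, 3 * Rs.countP (fun M => decide (Sat M (flipD (D i) z))) ≤
        ∑ _i : Fin n, Rs.length := Finset.sum_le_sum (fun i _ => (hG _ (hzi i)).2 (hSat i))
      _ = n * Rs.length := by rw [Finset.sum_const, Finset.card_univ, Fintype.card_fin, smul_eq_mul]
  have h4 : 0 < Rs.length := List.length_pos_iff.2 hne
  have h5 : n * Rs.length ≤ 3 * d * Rs.length := by nlinarith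
  have h6 := Nat.le_of_mul_le_mul_right h5 h4
  omega

end Pool.Agent.LOA
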