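import Pool.Agent.LOA.Targets

/-!
# T_DTAW: a decision tree for a nondeterministic machine in `AWPP`
-/

set_option autoImplicit false

namespace Pool.Agent.LOA

open Pool.Agent.LOW Classical

namespace DTAW_

theorem not_eq_of_ne {a b : Bool} (h : a ≠ b) : a = !b := by
  cases a <;> cases b <;> simp_all

theorem card_biUnion_le' {n : ℕ} (s : Finset (Fin n)) (f : Fin n → Finset (List Bool)) (w : ℕ)
    (h : ∀ i ∈ s, (f i).card ≤ w) : (s.biUnion f).card ≤ n * w := by
  refine le_trans Finset.card_biUnion_le ?_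
  refine le_trans (Finset.sum_le_card_nsmul _ _ _ h) ?_
  have h1 : s.card ≤ n := by simpa using Finset.card_le_univ s
  rw [smul_eq_mul]
  exact Nat.mul_le_mul_right _ h1

/-- Zeros are put into the empty blocks that meet `F`. -/
theorem fill (hDISJ : T_DISJ) (hPAR : T_PAR) (hSWI : T_SWI) (l : ℕ) (g₀ : Lang)
    (L M₁ M₂ : List (DT (List Bool))) (d H : ℕ)
    (hM₁ : ∀ T ∈ M₁, T.depth ≤ d) (hM₂ : ∀ T ∈ M₂, T.depth ≤ d) (hH : 0 < H)
    (hc : Gap l g₀ L M₁ M₂ H)
    (Q : Finset (List Bool)) (hQ : Q.card + (16 * d ^ 2 + 1) ≤ 2 ^ (l / 2))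
    (z : Lang) (hz : z ∈ Slc l g₀) (hzL : ¬ Sat L z) (F : Finset (List Bool)) :
    (∀ v ∈ F, l < v.length) →
    ∃ z₁ ∈ Slc l g₀, ¬ Sat L z₁ ∧ (∀ v ∈ Q, z₁ v = z v) ∧
      ∀ v ∈ F, ∀ x, v ∈ blk x → 0 < nz z₁ x := by
  induction F using Finset.induction_on with
  | empty =>
    intro _
    exact ⟨z, hz, hzL, fun _ _ => rfl, fun v hv => by simp at hv⟩
  | insert v F _ ih =>
    intro hF
    obtain ⟨z₁, h1, h2, h3, h4⟩ := ih fun v' hv' => hF v' (Finset.mem_insert_of_mem hv')
    by_cases hx : ∃ x, v ∈ blk x ∧ nz z₁ x = 0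
    · obtain ⟨x, hvx, hnz⟩ := hx
      obtain ⟨u, hu, hul, huQ, huS, huL⟩ := hSWI l g₀ L M₁ M₂ d H hM₁ hM₂ hH hc z₁ h1 h2 x Q hnz
        ⟨v, hvx, hF v (Finset.mem_insert_self _ _)⟩ hQ
      refine ⟨flipD {u} z₁, huS, huL, ?_, ?_⟩
      · intro w hw
        rw [← h3 w hw]
        unfold flipD
        rw [if_neg]
        intro h
        rw [Finset.mem_singleton] at h
        rw [h] at hw
        exact huQ hw
      · have key : ∀ x', x' = x ∨ 0 < nz z₁ x' → 0 < nz (flipD {u} z₁) x' := by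
          intro x' hx'
          by_cases hxx : x' = x
          · rw [hxx]
            have h5 := (hPAR z₁ {u} x).1
            have h6 : ({u} : Finset (List Bool)) ∩ blk x = {u} := by
              rw [Finset.inter_eq_left]
              intro w hw
              rw [Finset.mem_singleton] at hw
              rw [hw]
              exact hu
            rw [h6, Finset.card_singleton, hnz] at h5
            rcases Nat.eq_zero_or_pos (nz (flipD {u} z₁) x) with h7 | h7
            · rw [h7] at h5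
              exact absurd h5 (by decide)
            · exact h7
          · have h5 := (hPAR z₁ {u} x').2
            have h6 : ({u} : Finset (List Bool)) ∩ blk x' = ∅ := by
              rw [Finset.eq_empty_iff_forall_notMem]
              intro w hw
              rw [Finset.mem_inter, Finset.mem_singleton] at hw
              have h7 := hw.2
              rw [hw.1] at h7
              exact Finset.disjoint_left.1 (hDISJ.2 x' x hxx) h7 hu
            rw [h5 h6]
            rcases hx' with h | h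
            · exact absurd h hxx
            · exact h
        intro w hw x' hx'
        rw [Finset.mem_insert] at hw
        rcases hw with hw | hw
        · apply key
          left
          by_contra hne
          rw [hw] at hx'
          exact Finset.disjoint_left.1 (hDISJ.2 x' x hne) hx' hvx
        · exact key x' (Or.inr (h4 w hw x' hx'))
    · refine ⟨z₁, h1, h2, h3, ?_⟩
      intro w hw x' hx'
      rw [Finset.mem_insert] at hw
      rcases hw with hw | hw
      · rw [hw] at hx'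
        exact Nat.pos_of_ne_zero fun h => hx ⟨x', hx', h⟩
      · exact h4 w hw x' hx'

/-- The even completions, one after the other. -/
theorem compl (hEVC : T_EVC) (l n w : ℕ) (B : Fin n → Finset (List Bool))
    (Q : Finset (List Bool)) (hQ : Q.card ≤ n * w) (hB : ∀ i, (B i).card ≤ w)
    (hl : ∀ i, ∀ v ∈ B i, l < v.length) (hsz : 4 * (n * w) < 2 ^ (l / 2)) (k : ℕ) :
    k ≤ n → ∃ E : Fin n → Finset (List Bool), ∀ i : Fin n, i.1 < k →
      (E i).card ≤ w ∧ (∀ v ∈ E i, l < v.length ∧ v ∉ B i ∧ v ∉ Q) ∧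
      (∀ x, Even ((B i ∪ E i) ∩ blk x).card) ∧ (∀ x, B i ∩ blk x = ∅ → E i ∩ blk x = ∅) ∧
      ∀ j : Fin n, j.1 < i.1 → Disjoint (E j) (E i) := by
  induction k with
  | zero =>
    intro _
    exact ⟨fun _ => ∅, fun i hi => by omega⟩
  | succ k ih =>
    intro hk
    obtain ⟨E, hE⟩ := ih (by omega)
    have hkn : k < n := by omega
    obtain ⟨k', hk'⟩ : ∃ k' : Fin n, k'.1 = k := ⟨⟨k, hkn⟩, rfl⟩
    obtain ⟨U, hU⟩ : ∃ U : Finset (List Bool), U =
      (Finset.univ.filter fun j : Fin n => j.1 < k).biUnion E := ⟨_, rfl⟩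
    have hUc : U.card ≤ n * w := by
      rw [hU]
      refine card_biUnion_le' _ _ _ fun i hi => ?_
      rw [Finset.mem_filter] at hi
      exact (hE i hi.2).1
    have hwn : w ≤ n * w := Nat.le_mul_of_pos_left w (by omega)
    obtain ⟨E', h1, h2, h3, h4⟩ := hEVC l (B k') (Q ∪ U) (hl k') (by
      have h1 := Finset.card_union_le Q U
      have h2 := hB k'
      omega)
    refine ⟨Function.update E k' E', fun i hi => ?_⟩
    by_cases hik : i = k'
    · subst hik
      rw [Function.update_self]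
      refine ⟨le_trans h1 (hB i), fun v hv => ⟨(h2 v hv).1, (h2 v hv).2.1, fun hvQ =>
        (h2 v hv).2.2 (Finset.mem_union_left _ hvQ)⟩, h3, h4, fun j hj => ?_⟩
      have hji : j ≠ i := fun h => by rw [h] at hj; omega
      rw [Function.update_of_ne hji, Finset.disjoint_left]
      intro v hv hv'
      apply (h2 v hv').2.2
      rw [Finset.mem_union, hU]
      right
      rw [Finset.mem_biUnion]
      exact ⟨j, Finset.mem_filter.2 ⟨Finset.mem_univ _, by omega⟩, hv⟩
    · have hik' : i.1 < k := by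
        have : i.1 ≠ k := fun h => hik (Fin.ext (by rw [h, hk']))
        omega
      rw [Function.update_of_ne hik]
      obtain ⟨a1, a2, a3, a4, a5⟩ := hE i hik'
      refine ⟨a1, a2, a3, a4, fun j hj => ?_⟩
      have hjk : j ≠ k' := fun h => by rw [h, hk'] at hj; omega
      rw [Function.update_of_ne hjk]
      exact a5 j hj

/-- A union of disjoint sets that are even in a block is even in the block. -/
theorem even_biUnion {n : ℕ} (D : Fin n → Finset (List Bool))
    (hD : ∀ i j, i ≠ j → Disjoint (D i) (D j)) (b : Finset (List Bool))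
    (he : ∀ i, Even (D i ∩ b).card) (s : Finset (Fin n)) :
    Even ((s.biUnion D) ∩ b).card := by
  have h1 : (s.biUnion D) ∩ b = s.biUnion fun i => D i ∩ b := by
    rw [Finset.biUnion_inter]
  rw [h1, Finset.card_biUnion]
  · exact Finset.even_sum _ fun i _ => he i
  · intro i _ j _ hij
    exact (hD i j hij).mono Finset.inter_subset_left Finset.inter_subset_left

/-- The sum of the polynomials of `T_SYMB` for a list of trees. -/
theorem poly_list (hSYMB : T_SYMB) {n : ℕ} (D : Fin n → Finset (List Bool)) (z : Lang)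
    (hD : ∀ i j, i ≠ j → Disjoint (D i) (D j)) (d : ℕ) :
    ∀ M : List (DT (List Bool)), (∀ T ∈ M, T.depth ≤ d) →
    ∃ q : Polynomial ℝ, q.natDegree ≤ d ∧ ∀ k : ℕ, k ≤ n →
      (∑ s ∈ (Finset.univ : Finset (Fin n)).powersetCard k,
        ((M.countP (fun T => T.eval (flipD (s.biUnion D) z)) : ℕ) : ℝ)) =
        q.eval (k : ℝ) * (n.choose k : ℝ) := by
  intro M
  induction M with
  | nil =>
    intro _
    refine ⟨0, by simp, ?_⟩
    intro k _
    simp
  | cons T M ih =>
    intro h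
    obtain ⟨q, hq, hq'⟩ := ih (fun T' hT' => h T' (List.mem_cons_of_mem _ hT'))
    obtain ⟨p, hp, hp'⟩ := hSYMB n D z T hD
    refine ⟨q + p, ?_, ?_⟩
    · refine (Polynomial.natDegree_add_le _ _).trans (max_le hq (hp.trans ?_))
      exact h T List.mem_cons_self
    · intro k hk
      rw [Polynomial.eval_add, add_mul, ← hq' k hk, ← hp' k hk]
      simp only [List.countP_cons, Nat.cast_add, Finset.sum_add_distrib]
      congr 1
      rw [Finset.card_filter]
      push_cast
      refine Finset.sum_congr rfl fun s _ => ?_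
      by_cases hS : T.eval (flipD (s.biUnion D) z) = true <;> simp [hS]

end DTAW_

open DTAW_ in
theorem p_DTAW (hASK : T_ASK) (hCERT : T_CERT) (hDISJ : T_DISJ) (hPAR : T_PAR) (hEVC : T_EVC)
    (hKEEP : T_KEEP) (hPOL : T_POL) (hSYMB : T_SYMB) (hSWI : T_SWI) : T_DTAW := by
  intro l g₀ L M₁ M₂ w d H S hL hM₁ hM₂ hH hgap hsz
  by_contra hno
  obtain ⟨n, hn⟩ : ∃ n : ℕ, n = 16 * d ^ 2 + 1 := ⟨_, rfl⟩
  rw [← hn] at hno
  have hsz4 : 4 * (n * w) < 2 ^ (l / 2) := by
    rw [hn]
    omega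
  have hszQ : n * w + (16 * d ^ 2 + 1) ≤ 2 ^ (l / 2) := by
    rw [hn]
    omega
  obtain ⟨z, hz, hzL, T, h, hTh, hTd⟩ := hCERT (List Bool) L w n S (Slc l g₀) hL hno
  -- the certificates
  obtain ⟨C, hC⟩ : ∃ C : Fin n → Finset (List Bool), ∀ i, C i = asked (h i) (T i) :=
    ⟨_, fun _ => rfl⟩
  have hCc : ∀ i, (C i).card ≤ w := by
    intro i
    rw [hC]
    exact le_trans (hASK (List Bool) (T i) (h i) (h i)).1 (hL _ (hTh i).1).1
  have hne : ∀ i j, i ≠ j → ∀ v, v ∈ C i → v ∈ C j → h j v = z v := by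
    intro i j hij v hvi hvj
    rw [hC] at hvi hvj
    exact hTd i j hij v hvi hvj
  obtain ⟨B, hB⟩ : ∃ B : Fin n → Finset (List Bool), ∀ i v, v ∈ B i ↔
      v ∈ C i ∧ h i v ≠ z v := ⟨fun i => (C i).filter fun v => h i v ≠ z v, fun i v => by
        rw [Finset.mem_filter]⟩
  have hBC : ∀ i, B i ⊆ C i := fun i v hv => ((hB i v).1 hv).1
  have hBc : ∀ i, (B i).card ≤ w := fun i => le_trans (Finset.card_le_card (hBC i)) (hCc i)
  have hBl : ∀ i, ∀ v ∈ B i, l < v.length := by
    intro i v hv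
    by_contra hvl
    apply ((hB i v).1 hv).2
    rw [← hz.2 v (by omega), ← (hTh i).2.1.2 v (by omega)]
  obtain ⟨Q, hQ⟩ : ∃ Q : Finset (List Bool), Q = Finset.univ.biUnion C := ⟨_, rfl⟩
  have hQc : Q.card ≤ n * w := by
    rw [hQ]
    exact card_biUnion_le' _ _ _ fun i _ => hCc i
  have hCQ : ∀ i, C i ⊆ Q := by
    intro i
    rw [hQ]
    exact Finset.subset_biUnion_of_mem C (Finset.mem_univ i)
  -- zeros in the blocks
  obtain ⟨z₁, hz₁, hz₁L, hz₁Q, hz₁B⟩ := fill hDISJ hPAR hSWI l g₀ L M₁ M₂ d H hM₁ hM₂ hH hgap Q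
    (by omega) z hz hzL (Finset.univ.biUnion B) (by
      intro v hv
      rw [Finset.mem_biUnion] at hv
      obtain ⟨i, _, hi⟩ := hv
      exact hBl i v hi)
  -- even completions
  obtain ⟨E, hE⟩ := compl hEVC l n w B Q hQc hBc hBl hsz4 n le_rfl
  obtain ⟨D, hD⟩ : ∃ D : Fin n → Finset (List Bool), ∀ i, D i = B i ∪ E i :=
    ⟨_, fun _ => rfl⟩
  have hEE : ∀ i j, i ≠ j → Disjoint (E i) (E j) := by
    intro i j hij
    rcases lt_or_gt_of_ne (fun h => hij (Fin.ext h) : i.1 ≠ j.1) with h1 | h1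
    · exact (hE j j.2).2.2.2.2 i h1
    · exact ((hE i i.2).2.2.2.2 j h1).symm
  have hEQ : ∀ i v, v ∈ E i → v ∉ Q := fun i v hv => ((hE i i.2).2.1 v hv).2.2
  have hDD : ∀ i j, i ≠ j → Disjoint (D i) (D j) := by
    intro i j hij
    rw [Finset.disjoint_left]
    intro v hvi hvj
    rw [hD, Finset.mem_union] at hvi hvj
    rcases hvi with hvi | hvi <;> rcases hvj with hvj | hvj
    · rw [hB] at hvi hvj
      exact hvj.2 (hne i j hij v hvi.1 hvj.1)
    · exact hEQ j v hvj (hCQ i (hBC i hvi))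
    · exact hEQ i v hvi (hCQ j (hBC j hvj))
    · exact Finset.disjoint_left.1 (hEE i j hij) hvi hvj
  have hDl : ∀ i, ∀ v ∈ D i, l < v.length := by
    intro i v hv
    rw [hD, Finset.mem_union] at hv
    rcases hv with hv | hv
    · exact hBl i v hv
    · exact ((hE i i.2).2.1 v hv).1
  -- the flips stay in the slice
  obtain ⟨Z, hZ⟩ : ∃ Z : Finset (Fin n) → Lang, ∀ s, Z s = flipD (s.biUnion D) z₁ :=
    ⟨_, fun _ => rfl⟩
  have hZS : ∀ s, Z s ∈ Slc l g₀ := by
    intro s
    rw [hZ]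
    constructor
    · refine hKEEP z₁ _ hz₁.1 ?_ ?_
      · intro x
        refine even_biUnion D hDD (blk x) (fun i => ?_) _
        rw [hD]
        exact (hE i i.2).2.2.1 x
      · intro x hx
        obtain ⟨v, hv⟩ := hx
        rw [Finset.mem_inter, Finset.mem_biUnion] at hv
        obtain ⟨⟨i, _, hi⟩, hvx⟩ := hv
        have h1 : (B i ∩ blk x).Nonempty := by
          by_contra h2
          rw [Finset.not_nonempty_iff_eq_empty] at h2
          have h3 := (hE i i.2).2.2.2.1 x h2
          rw [hD, Finset.mem_union] at hi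
          rcases hi with hi | hi
          · have : v ∈ B i ∩ blk x := Finset.mem_inter.2 ⟨hi, hvx⟩
            rw [h2] at this
            simp at this
          · have : v ∈ E i ∩ blk x := Finset.mem_inter.2 ⟨hi, hvx⟩
            rw [h3] at this
            simp at this
        obtain ⟨u, hu⟩ := h1
        rw [Finset.mem_inter] at hu
        exact hz₁B u (Finset.mem_biUnion.2 ⟨i, Finset.mem_univ _, hu.1⟩) x hu.2
    · intro v hv
      rw [hz₁.2 v hv]
      unfold flipD
      rw [if_neg]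
      intro h1
      rw [Finset.mem_biUnion] at h1
      obtain ⟨i, _, hi⟩ := h1
      have := hDl i v hi
      omega
  -- the values
  have hZ0 : Z ∅ = z₁ := by
    rw [hZ]
    funext v
    simp [flipD]
  have hone : ∀ s : Finset (Fin n), s.Nonempty → Sat L (Z s) := by
    rintro s ⟨i, hi⟩
    refine ⟨T i, (hTh i).1, ?_⟩
    rw [← (hTh i).2.2]
    refine ((hASK (List Bool) (T i) (h i) (Z s)).2.2 fun v hv => ?_).2
    rw [← hC] at hv
    have hzv : z₁ v = z v := hz₁Q v (hCQ i hv)
    rw [hZ]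
    unfold flipD
    by_cases h1 : h i v = z v
    · rw [if_neg, h1, hzv]
      intro hmem
      rw [Finset.mem_biUnion] at hmem
      obtain ⟨j, _, hj'⟩ := hmem
      rw [hD, Finset.mem_union] at hj'
      rcases hj' with hj' | hj'
      · rw [hB] at hj'
        by_cases hij : i = j
        · rw [← hij] at hj'
          exact hj'.2 h1
        · exact hj'.2 (hne i j hij v hv hj'.1)
      · exact hEQ j v hj' (hCQ i hv)
    · rw [if_pos, hzv]
      · exact (not_eq_of_ne h1).symm
      · rw [Finset.mem_biUnion]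
        refine ⟨i, hi, ?_⟩
        rw [hD, Finset.mem_union, hB]
        exact Or.inl ⟨hv, h1⟩
  -- the polynomials
  obtain ⟨q₁, hq₁, hq₁'⟩ := poly_list hSYMB D z₁ hDD d M₁ hM₁
  obtain ⟨q₂, hq₂, hq₂'⟩ := poly_list hSYMB D z₁ hDD d M₂ hM₂
  obtain ⟨val, hval⟩ : ∃ val : Lang → ℝ, ∀ y, val y =
      (((M₁.countP (fun T => T.eval y) : ℕ) : ℝ) -
        ((M₂.countP (fun T => T.eval y) : ℕ) : ℝ)) / (H : ℝ) := ⟨_, fun _ => rfl⟩
  have hHpos : (0 : ℝ) < (H : ℝ) := by exact_mod_cast hH
  have hsv : ∀ y ∈ Slc l g₀, Sat L y → 2 / 3 ≤ val y ∧ val y ≤ 1 := by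
    intro y hy hs
    obtain ⟨h1, h2⟩ := (hgap y hy).1 hs
    rw [hval, le_div_iff₀ hHpos, div_le_one hHpos]
    have h1' : 2 * (H : ℝ) + 3 * ((M₂.countP (fun T => T.eval y) : ℕ) : ℝ) ≤
      3 * ((M₁.countP (fun T => T.eval y) : ℕ) : ℝ) := by exact_mod_cast h1
    have h2' : ((M₁.countP (fun T => T.eval y) : ℕ) : ℝ) ≤
      (H : ℝ) + ((M₂.countP (fun T => T.eval y) : ℕ) : ℝ) := by exact_mod_cast h2
    constructor <;> linarith
  have hnv : val z₁ ≤ 1 / 3 := by
    obtain ⟨_, h2⟩ := (hgap z₁ hz₁).2 hz₁L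
    rw [hval, div_le_iff₀ hHpos]
    have h2' : 3 * ((M₁.countP (fun T => T.eval z₁) : ℕ) : ℝ) ≤
      (H : ℝ) + 3 * ((M₂.countP (fun T => T.eval z₁) : ℕ) : ℝ) := by exact_mod_cast h2
    linarith
  obtain ⟨q, hq⟩ : ∃ q : Polynomial ℝ, q = Polynomial.C ((H : ℝ)⁻¹) * (q₁ - q₂) := ⟨_, rfl⟩
  have hmain : ∀ k : ℕ, k ≤ n → q.eval (k : ℝ) * (n.choose k : ℝ) =
      ∑ s ∈ (Finset.univ : Finset (Fin n)).powersetCard k, val (Z s) := by
    intro k hk
    rw [hq, Polynomial.eval_mul, Polynomial.eval_C, Polynomial.eval_sub, mul_assoc, sub_mul,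
      ← hq₁' k hk, ← hq₂' k hk, ← Finset.sum_sub_distrib, Finset.mul_sum]
    refine Finset.sum_congr rfl fun s _ => ?_
    rw [hval, hZ]
    ring
  have hpos : ∀ k : ℕ, k ≤ n → (0 : ℝ) < (n.choose k : ℝ) := by
    intro k hk
    exact_mod_cast Nat.choose_pos hk
  have hcst : ∀ (k : ℕ) (r : ℝ), ∑ _s ∈ (Finset.univ : Finset (Fin n)).powersetCard k, r =
      r * (n.choose k : ℝ) := by
    intro k r
    rw [Finset.sum_const, Finset.card_powersetCard, Finset.card_univ, Fintype.card_fin,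
      nsmul_eq_mul, mul_comm]
  have hbd : ∀ k : ℕ, 1 ≤ k → k ≤ n → 2 / 3 ≤ q.eval (k : ℝ) ∧ q.eval (k : ℝ) ≤ 1 := by
    intro k hk1 hk
    have h1 := hmain k hk
    have hmem : ∀ s ∈ (Finset.univ : Finset (Fin n)).powersetCard k, s.Nonempty := by
      intro s hs
      rw [Finset.mem_powersetCard] at hs
      rw [← Finset.card_pos]
      omega
    have h2 : (2 / 3 : ℝ) * (n.choose k : ℝ) ≤
        ∑ s ∈ (Finset.univ : Finset (Fin n)).powersetCard k, val (Z s) := by
      rw [← hcst]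
      exact Finset.sum_le_sum fun s hs => (hsv _ (hZS s) (hone s (hmem s hs))).1
    have h3 : ∑ s ∈ (Finset.univ : Finset (Fin n)).powersetCard k, val (Z s) ≤
        1 * (n.choose k : ℝ) := by
      rw [← hcst]
      exact Finset.sum_le_sum fun s hs => (hsv _ (hZS s) (hone s (hmem s hs))).2
    rw [← h1] at h2 h3
    exact ⟨le_of_mul_le_mul_right h2 (hpos k hk), le_of_mul_le_mul_right h3 (hpos k hk)⟩
  refine hPOL d q ?_ ?_ ?_ ?_
  · rw [hq]
    exact (Polynomial.natDegree_C_mul_le _ _).trans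
      ((Polynomial.natDegree_sub_le _ _).trans (max_le hq₁ hq₂))
  · have h1 := hmain 0 (Nat.zero_le _)
    simp only [Finset.powersetCard_zero, Finset.sum_singleton, Nat.choose_zero_right,
      Nat.cast_one, mul_one, Nat.cast_zero, hZ0] at h1
    rw [h1]
    exact hnv
  · have h1k : 1 ≤ n := by rw [hn]; omega
    have h5 := (hbd 1 le_rfl h1k).1
    simpa using h5
  · intro i hi
    have hk : 1 + 16 * i ^ 2 ≤ n := by
      rw [hn]
      have : i ^ 2 ≤ d ^ 2 := Nat.pow_le_pow_left hi 2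
      omega
    have h1 := hbd (1 + 16 * i ^ 2) (by omega) hk
    push_cast at h1
    rw [abs_le]
    constructor <;> linarith [h1.1, h1.2]

end Pool.Agent.LOA
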