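import Pool.Agent.LOA.Targets

/-!
# Project LOA: few accepting trees (`T_DTFEW`)
-/

set_option autoImplicit false

namespace Pool.Agent.LOA

open Pool.Agent.LOW Classical

namespace DTFEW_

lemma count_ge {n : ℕ} (L : List (DT (List Bool))) (p : DT (List Bool) → Bool)
    (T : Fin n → DT (List Bool)) (hinj : Function.Injective T) (hL : ∀ i, T i ∈ L)
    (hp : ∀ i, p (T i) = true) : n ≤ L.countP p := by
  have h1 : (Finset.univ.image T).card = n := by
    rw [Finset.card_image_of_injective _ hinj, Finset.card_univ, Fintype.card_fin]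
  have h2 : Finset.univ.image T ⊆ (L.filter p).toFinset := by
    intro x hx
    obtain ⟨i, -, rfl⟩ := Finset.mem_image.mp hx
    rw [List.mem_toFinset, List.mem_filter]
    exact ⟨hL i, hp i⟩
  calc n = (Finset.univ.image T).card := h1.symm
    _ ≤ (L.filter p).toFinset.card := Finset.card_le_card h2
    _ ≤ (L.filter p).length := List.toFinset_card_le _
    _ = L.countP p := (List.countP_eq_length_filter).symm

/-- The flipped language agrees with `h i` on `C i`. -/
lemma agree {n : ℕ} (C : Fin n → Finset (List Bool)) (h : Fin n → Lang) (z : Lang)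
    (E : Finset (List Bool)) (hE : ∀ v ∈ E, v ∉ Finset.univ.biUnion C)
    (hc : ∀ i j, i ≠ j → ∀ v ∈ C i, v ∈ C j → h j v = z v) (i : Fin n) :
    ∀ v ∈ C i, flipD ((Finset.univ.biUnion fun i => (C i).filter fun v => h i v ≠ z v) ∪ E) z v
      = h i v := by
  intro v hv
  have hvE : v ∉ E := fun hv' => hE v hv' (Finset.mem_biUnion.mpr ⟨i, Finset.mem_univ _, hv⟩)
  unfold flipD
  by_cases hF : v ∈ (Finset.univ.biUnion fun i => (C i).filter fun v => h i v ≠ z v)
  · rw [if_pos (Finset.mem_union_left _ hF)]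
    obtain ⟨j, -, hj⟩ := Finset.mem_biUnion.mp hF
    obtain ⟨hj1, hj2⟩ := Finset.mem_filter.mp hj
    have hij : i = j := by
      by_contra hne
      exact hj2 (hc i j hne v hv hj1)
    subst hij
    cases hz : z v <;> cases hh : h i v <;> simp_all
  · rw [if_neg (by rw [Finset.mem_union]; tauto)]
    by_contra hne
    exact hF (Finset.mem_biUnion.mpr ⟨i, Finset.mem_univ _, Finset.mem_filter.mpr
      ⟨hv, fun hh => hne hh.symm⟩⟩)

end DTFEW_

open DTFEW_ in
/-- Few accepting trees. -/
theorem p_DTFEW (hASK : T_ASK) (hCERT : T_CERT) (hFIX : T_FIX) : T_DTFEW := by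
  intro l g₀ L w b S hL hcnt hb
  by_contra hno
  obtain ⟨z, hz, hns, T, h, hT, hc⟩ := hCERT (List Bool) L w (b + 1) S (Slc l g₀) hL hno
  set C : Fin (b + 1) → Finset (List Bool) := fun i => asked (h i) (T i) with hC
  have hCw : ∀ i, (C i).card ≤ w := fun i =>
    ((hASK (List Bool) (T i) (h i) (h i)).1).trans (hL (T i) (hT i).1).1
  set F := Finset.univ.biUnion fun i => (C i).filter fun v => h i v ≠ z v with hF
  set Q := Finset.univ.biUnion C with hQ
  have hFQ : F ⊆ Q := by
    intro v hv
    obtain ⟨i, -, hi⟩ := Finset.mem_biUnion.mp hv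
    exact Finset.mem_biUnion.mpr ⟨i, Finset.mem_univ _, (Finset.mem_filter.mp hi).1⟩
  have hQc : Q.card ≤ (b + 1) * w := by
    calc Q.card ≤ ∑ i, (C i).card := Finset.card_biUnion_le
      _ ≤ ∑ _i : Fin (b + 1), w := Finset.sum_le_sum fun i _ => hCw i
      _ = (b + 1) * w := by simp
  have hFc : F.card ≤ (b + 1) * w := (Finset.card_le_card hFQ).trans hQc
  have hFl : ∀ v ∈ F, l < v.length := by
    intro v hv
    obtain ⟨i, -, hi⟩ := Finset.mem_biUnion.mp hv
    by_contra hlen
    push Not at hlen
    apply (Finset.mem_filter.mp hi).2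
    have h1 := (hT i).2.1.2 v hlen
    have h2 := hz.2 v hlen
    rw [← h1, ← h2]
  obtain ⟨E, -, hE, hcon⟩ := hFIX l z F Q hz.1 hFl (by omega)
  set z' := flipD (F ∪ E) z with hz'
  have hagree : ∀ i, ∀ v ∈ C i, z' v = h i v :=
    agree C h z E (fun v hv => (hE v hv).2.2) hc
  have hslc : z' ∈ Slc l g₀ := by
    refine ⟨hcon, ?_⟩
    intro v hv
    rw [hz', flipD, if_neg, hz.2 v hv]
    rw [Finset.mem_union]
    rintro (h1 | h1)
    · have := hFl v h1; omega
    · have := (hE v h1).1; omega
  have hask : ∀ i, asked z' (T i) = C i ∧ (T i).eval z' = true := by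
    intro i
    have := (hASK (List Bool) (T i) (h i) z').2.2 (hagree i)
    exact ⟨this.1, this.2.trans (hT i).2.2⟩
  have hinj : Function.Injective T := by
    intro i j hij
    by_contra hne
    have hCij : C i = C j := by rw [← (hask i).1, ← (hask j).1, hij]
    apply hns
    refine ⟨T i, (hT i).1, ?_⟩
    have : ∀ v ∈ asked (h i) (T i), z v = h i v := by
      intro v hv
      have hv' : v ∈ C j := by rw [← hCij]; exact hv
      exact (hc j i (fun h' => hne h'.symm) v hv' hv).symm
    exact ((hASK (List Bool) (T i) (h i) z).2.2 this).2.trans (hT i).2.2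
  have := count_ge L (fun T => T.eval z') T hinj (fun i => (hT i).1) (fun i => (hask i).2)
  have h2 := hcnt z' hslc
  omega

end Pool.Agent.LOA
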