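import Pool.Agent.LOA.Targets

/-!
# Repair and even completion (project LOA)
-/

set_option autoImplicit false

namespace Pool.Agent.LOA

open Pool.Agent.LOW Classical

namespace FIX_

/-- The choice of one fresh word in each block of a family of blocks that meet `F`. -/
theorem choose_fresh (hDISJ : T_DISJ) (hFRESH : T_FRESH) (l : ℕ) (F Q : Finset (List Bool))
    (hF : ∀ v ∈ F, l < v.length) (hc : Q.card + 2 * F.card < 2 ^ (l / 2))
    (P : List Bool → Prop) (hP : ∀ x, P x → (F ∩ blk x).Nonempty) :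
    ∃ E : Finset (List Bool), E.card ≤ F.card ∧ (∀ v ∈ E, l < v.length ∧ v ∉ F ∧ v ∉ Q) ∧
      (∀ x, P x → (E ∩ blk x).card = 1) ∧ ∀ x, ¬ P x → E ∩ blk x = ∅ := by
  have hfr : ∀ x, P x → ∃ e : List Bool, e ∈ blk x ∧ l < e.length ∧ e ∉ F ∧ e ∉ Q := by
    intro x hx
    obtain ⟨v, hv⟩ := hP x hx
    rw [Finset.mem_inter] at hv
    obtain ⟨G, hG, hG1, hG2⟩ := hFRESH l x (Q ∪ F) 1 ⟨v, hv.2, hF v hv.1⟩ (by
      have := Finset.card_union_le Q F
      omega)
    obtain ⟨e, he⟩ := Finset.card_eq_one.mp hG1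
    have heG : e ∈ G := by rw [he]; exact Finset.mem_singleton_self e
    obtain ⟨h1, h2⟩ := hG2 e heG
    rw [Finset.mem_union, not_or] at h2
    exact ⟨e, hG heG, h1, h2.2, h2.1⟩
  let pick : List Bool → List Bool := fun v => if h : ∃ x, v ∈ blk x then h.choose else []
  have hpick : ∀ v x, v ∈ blk x → pick v = x := by
    intro v x hv
    have hex : ∃ x, v ∈ blk x := ⟨x, hv⟩
    have h1 : pick v = hex.choose := by simp only [pick]; rw [dif_pos hex]
    have h2 : v ∈ blk hex.choose := hex.choose_spec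
    rw [h1]
    by_contra hne
    exact Finset.disjoint_left.mp (hDISJ.2 _ _ hne) h2 hv
  let e : List Bool → List Bool := fun x => if h : P x then (hfr x h).choose else []
  have he : ∀ x, P x → e x ∈ blk x ∧ l < (e x).length ∧ e x ∉ F ∧ e x ∉ Q := by
    intro x hx
    have h1 : e x = (hfr x hx).choose := by simp only [e]; rw [dif_pos hx]
    rw [h1]
    exact (hfr x hx).choose_spec
  let X : Finset (List Bool) := (F.image pick).filter P
  have hX : ∀ x, x ∈ X ↔ P x := by
    intro x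
    simp only [X, Finset.mem_filter, Finset.mem_image]
    constructor
    · exact fun h => h.2
    · intro hx
      obtain ⟨v, hv⟩ := hP x hx
      rw [Finset.mem_inter] at hv
      exact ⟨⟨v, hv.1, hpick v x hv.2⟩, hx⟩
  refine ⟨X.image e, ?_, ?_, ?_, ?_⟩
  · calc (X.image e).card ≤ X.card := Finset.card_image_le
      _ ≤ (F.image pick).card := Finset.card_filter_le _ _
      _ ≤ F.card := Finset.card_image_le
  · intro v hv
    obtain ⟨x, hx, rfl⟩ := Finset.mem_image.mp hv
    exact (he x ((hX x).mp hx)).2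
  · intro x hx
    rw [Finset.card_eq_one]
    refine ⟨e x, ?_⟩
    ext v
    rw [Finset.mem_inter, Finset.mem_image, Finset.mem_singleton]
    constructor
    · rintro ⟨⟨x', hx', rfl⟩, hv⟩
      by_cases hxx : x' = x
      · rw [hxx]
      · exact absurd hv (Finset.disjoint_left.mp (hDISJ.2 _ _ hxx) (he x' ((hX x').mp hx')).1)
    · rintro rfl
      exact ⟨⟨x, (hX x).mpr hx, rfl⟩, (he x hx).1⟩
  · intro x hx
    rw [Finset.eq_empty_iff_forall_notMem]
    intro v hv
    rw [Finset.mem_inter, Finset.mem_image] at hv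
    obtain ⟨⟨x', hx', rfl⟩, hv⟩ := hv
    by_cases hxx : x' = x
    · exact hx (hxx ▸ (hX x').mp hx')
    · exact absurd hv (Finset.disjoint_left.mp (hDISJ.2 _ _ hxx) (he x' ((hX x').mp hx')).1)

/-- Flips of disjoint sets. -/
theorem flipD_union (z : Lang) (F E : Finset (List Bool)) (h : ∀ v ∈ E, v ∉ F) :
    flipD (F ∪ E) z = flipD E (flipD F z) := by
  funext v
  simp only [flipD, Finset.mem_union]
  by_cases h1 : v ∈ E
  · have h2 : v ∉ F := h v h1
    simp [h1, h2]
  · by_cases h2 : v ∈ F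
    · simp [h1, h2]
    · simp [h1, h2]

end FIX_

theorem p_FIX (hPAR : T_PAR) (hDISJ : T_DISJ) (hFRESH : T_FRESH) : T_FIX := by
  intro l z F Q hz hF hc
  obtain ⟨E, hE1, hE2, hE3, hE4⟩ := FIX_.choose_fresh hDISJ hFRESH l F Q hF hc
    (fun x => (F ∩ blk x).Nonempty ∧ Even (nz (flipD F z) x) ∧ 0 < nz (flipD F z) x)
    (fun x hx => hx.1)
  refine ⟨E, hE1, hE2, ?_⟩
  rw [FIX_.flipD_union z F E (fun v hv => (hE2 v hv).2.1)]
  intro x
  by_cases hx : (F ∩ blk x).Nonempty ∧ Even (nz (flipD F z) x) ∧ 0 < nz (flipD F z) x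
  · right
    have h1 := (hPAR (flipD F z) E x).1
    rw [hE3 x hx] at h1
    obtain ⟨a, ha⟩ := h1
    obtain ⟨b, hb⟩ := hx.2.1
    rw [← Nat.not_even_iff_odd]
    rintro ⟨c, hc'⟩
    omega
  · have h1 := (hPAR (flipD F z) E x).2 (hE4 x hx)
    rw [h1]
    by_cases hFx : (F ∩ blk x).Nonempty
    · by_cases h0 : nz (flipD F z) x = 0
      · exact Or.inl h0
      · right
        rw [← Nat.not_even_iff_odd]
        intro he
        exact hx ⟨hFx, he, Nat.pos_of_ne_zero h0⟩
    · rw [Finset.not_nonempty_iff_eq_empty] at hFx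
      rw [(hPAR z F x).2 hFx]
      exact hz x

theorem p_EVC (hDISJ : T_DISJ) (hFRESH : T_FRESH) : T_EVC := by
  intro l F Q hF hc
  obtain ⟨E, hE1, hE2, hE3, hE4⟩ := FIX_.choose_fresh hDISJ hFRESH l F Q hF hc
    (fun x => Odd (F ∩ blk x).card) (fun x hx => Finset.card_pos.mp hx.pos)
  refine ⟨E, hE1, hE2, ?_, ?_⟩
  · intro x
    have hd : Disjoint (F ∩ blk x) (E ∩ blk x) := by
      rw [Finset.disjoint_left]
      intro v hv hv'
      exact (hE2 v (Finset.mem_inter.mp hv').1).2.1 (Finset.mem_inter.mp hv).1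
    rw [Finset.union_inter_distrib_right, Finset.card_union_of_disjoint hd]
    by_cases hx : Odd (F ∩ blk x).card
    · rw [hE3 x hx]
      exact hx.add_one
    · rw [hE4 x hx, Finset.card_empty, add_zero]
      exact Nat.not_odd_iff_even.mp hx
  · intro x hx
    apply hE4 x
    rw [hx]
    simp

end Pool.Agent.LOA
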