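import Pool.Agent.LOA.Targets
import Pool.Agent.LOW.BR

/-!
# Fresh words in long blocks
-/

set_option autoImplicit false

namespace Pool.Agent.LOA

open Pool.Agent.LOW Classical

namespace FRESH_

theorem mem_W {m : ℕ} {y : List Bool} : y ∈ W m ↔ y.length ≤ m := by
  simp only [W, Set.Finite.mem_toFinset, Set.mem_ofPred_eq]

/-- the words `pair x y` with `|y| = b` -/
noncomputable def long (x : List Bool) (b : ℕ) : Finset (List Bool) :=
  (Finset.univ : Finset (Fin b → Bool)).image fun f => pair x (List.ofFn f)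

theorem card_long (hDISJ : T_DISJ) (x : List Bool) (b : ℕ) : (long x b).card = 2 ^ b := by
  unfold long
  rw [Finset.card_image_of_injective, Finset.card_univ, Fintype.card_fun, Fintype.card_bool,
    Fintype.card_fin]
  intro f g hfg
  exact List.ofFn_injective (hDISJ.1 x x _ _ hfg).2

theorem mem_long {x v : List Bool} {b : ℕ} (h : v ∈ long x b) :
    ∃ y : List Bool, y.length = b ∧ v = pair x y := by
  unfold long at h
  obtain ⟨f, _, rfl⟩ := Finset.mem_image.mp h
  exact ⟨List.ofFn f, List.length_ofFn, rfl⟩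

end FRESH_

open FRESH_

theorem p_FRESH (hDISJ : T_DISJ) : T_FRESH := by
  intro l x Q N hv hQ
  obtain ⟨v, hv, hl⟩ := hv
  unfold blk at hv
  obtain ⟨y, hy, rfl⟩ := Finset.mem_image.mp hv
  rw [mem_W] at hy
  rw [Pool.Agent.LOW.BR_.len_pair] at hl
  set b := (x.length + 2) ^ 2 with hb
  have hbx : 2 * x.length ≤ b := by
    rw [hb]
    nlinarith
  have hlb : l / 2 ≤ b := by omega
  have hcard := card_long hDISJ x b
  have h1 : N ≤ (long x b \ Q).card := by
    have h2 := Finset.le_card_sdiff Q (long x b)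
    have h3 : 2 ^ (l / 2) ≤ 2 ^ b := Nat.pow_le_pow_right (by norm_num) hlb
    omega
  obtain ⟨F, hF, hN⟩ := Finset.exists_subset_card_eq h1
  refine ⟨F, ?_, hN, ?_⟩
  · intro u hu
    have h4 := Finset.mem_sdiff.mp (hF hu)
    obtain ⟨y', h5, rfl⟩ := mem_long h4.1
    unfold blk
    refine Finset.mem_image.mpr ⟨y', mem_W.mpr ?_, rfl⟩
    omega
  · intro u hu
    have h4 := Finset.mem_sdiff.mp (hF hu)
    obtain ⟨y', h5, rfl⟩ := mem_long h4.1
    refine ⟨?_, h4.2⟩
    rw [Pool.Agent.LOW.BR_.len_pair]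
    omega

end Pool.Agent.LOA
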