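import Pool.Agent.LOA.Targets

/-!
# Project LOA: generic languages in `Con`, and the first requirement
-/

set_option autoImplicit false

namespace Pool.Agent.LOA

open Pool.Agent.LOW Classical

namespace GENC_

theorem trans {m m' : ℕ} {g g' g'' : Lang} (h : Eqm m g g') (hm : m ≤ m') (h' : Eqm m' g' g'') :
    Eqm m g g'' := by
  intro v hv
  exact (h v hv).trans (h' v (hv.trans hm))

theorem mem_W {m : ℕ} {y : List Bool} : y ∈ W m ↔ y.length ≤ m := by
  unfold W
  rw [Set.Finite.mem_toFinset]
  rfl

theorem len_pair (x y : List Bool) : (pair x y).length = 2 * x.length + 1 + y.length := by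
  unfold pair
  rw [List.length_append, List.length_cons]
  have h : (x.flatMap fun b => [true, b]).length = 2 * x.length := by
    induction x with
    | nil => rfl
    | cons b l ih =>
      rw [List.flatMap_cons, List.length_append, ih, List.length_cons]
      simp
      omega
  rw [h]
  omega

/-- The number of zeros of a block is local. -/
theorem nz_loc (g g' : Lang) (x : List Bool) (m : ℕ)
    (hm : 2 * x.length + 1 + (x.length + 2) ^ 2 ≤ m) (h : Eqm m g g') : nz g x = nz g' x := by
  unfold nz
  congr 1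
  apply Finset.filter_congr
  intro y hy
  have h1 : y.length ≤ (x.length + 2) ^ 2 := mem_W.1 hy
  rw [h (pair x y) (by rw [len_pair]; omega)]

theorem top_mem : (fun _ => true : Lang) ∈ Con := by
  intro x
  left
  unfold nz
  rw [Finset.card_eq_zero, Finset.filter_eq_empty_iff]
  intro y _
  simp

end GENC_

open GENC_

theorem p_GENC : T_GENC := by
  intro Rq h
  have h' : ∀ (s : ℕ) (g₀ : {g // g ∈ Con}) (m : ℕ), ∃ (g : {g // g ∈ Con}) (m' : ℕ),
      Eqm m g₀.1 g.1 ∧ ∀ g' ∈ Con, Eqm m' g.1 g' → g' ∈ Rq s := by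
    intro s g₀ m
    obtain ⟨g, m', h1, h2, h3⟩ := h s g₀.1 m g₀.2
    exact ⟨⟨g, h1⟩, m', h2, h3⟩
  choose G M hG hM using h'
  let st : ℕ → {g // g ∈ Con} × ℕ := fun s => Nat.rec (⟨fun _ => true, top_mem⟩, 0)
    (fun s p => (G s p.1 p.2, max (M s p.1 p.2) (p.2 + 1))) s
  have hst : ∀ s, st (s + 1) = (G s (st s).1 (st s).2, max (M s (st s).1 (st s).2)
      ((st s).2 + 1)) := fun s => rfl
  have hm : ∀ s, (st s).2 + 1 ≤ (st (s + 1)).2 := by
    intro s
    rw [hst]
    exact le_max_right _ _
  have hs : ∀ s, s ≤ (st s).2 := by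
    intro s
    induction s with
    | zero => exact Nat.zero_le _
    | succ s ih => exact (Nat.succ_le_succ ih).trans (hm s)
  have hmono : ∀ s t, s ≤ t → (st s).2 ≤ (st t).2 := by
    intro s t hst'
    induction t, hst' using Nat.le_induction with
    | base => exact le_rfl
    | succ t _ ih => exact ih.trans ((Nat.le_succ _).trans (hm t))
  have hagree : ∀ s t, s ≤ t → Eqm (st s).2 (st s).1.1 (st t).1.1 := by
    intro s t hst'
    induction t, hst' using Nat.le_induction with
    | base => exact fun v _ => rfl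
    | succ t ht ih =>
      refine trans ih (hmono s t ht) ?_
      rw [hst t]
      exact hG t _ _
  have key : ∀ s, Eqm (st s).2 (st s).1.1 (fun v => (st v.length).1.1 v) := by
    intro s v hv
    rcases le_total s v.length with hc | hc
    · exact hagree s v.length hc v hv
    · exact (hagree v.length s hc v (hs _)).symm
  have hlim : (fun v => (st v.length).1.1 v : Lang) ∈ Con := by
    intro x
    have h0 := key (2 * x.length + 1 + (x.length + 2) ^ 2)
    have h1 := nz_loc (st (2 * x.length + 1 + (x.length + 2) ^ 2)).1.1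
      (fun v => (st v.length).1.1 v) x _ (hs _) h0
    rw [← h1]
    exact (st (2 * x.length + 1 + (x.length + 2) ^ 2)).1.2 x
  refine ⟨fun v => (st v.length).1.1 v, hlim, fun s => ?_⟩
  apply hM s (st s).1 (st s).2 _ hlim
  intro v hv
  have := key (s + 1) v (hv.trans (by rw [hst]; exact le_max_left _ _))
  rw [← this, hst]

theorem p_DENS1C (hLOCT : T_LOCT) (hORCLOC : T_ORCLOCC) : T_DENS1C := by
  intro cd t g₀ m hg₀
  by_cases h : ∃ g ∈ Con, Eqm m g₀ g ∧ ∃ x, ¬ t.ok (orcC cd g) x
  · obtain ⟨g, hgC, hg, x, hx⟩ := h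
    obtain ⟨K, hK⟩ := hLOCT t
    refine ⟨g, (x.length + 2) ^ K, hgC, hg, fun g' _ hg' => Or.inl ⟨x, ?_⟩⟩
    have hv : ∀ v : List Bool, v.length < (x.length + 2) ^ K →
        orcC cd g v = orcC cd g' v := by
      intro v hv
      refine hORCLOC cd v.length g g' (fun u hu => hg' u ?_) v le_rfl
      exact (hu.trans hv.le)
    rw [← hK _ _ x hv]
    exact hx
  · push Not at h
    refine ⟨g₀, m, hg₀, fun v _ => rfl, fun g' hg'C hg' => Or.inr ⟨m, fun g'' hg''C hg'' x => ?_⟩⟩
    exact h g'' hg''C (fun v hv => (hg' v hv).trans (hg'' v hv)) x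

end Pool.Agent.LOA
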