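import Pool.Agent.LOA.GENC
import Pool.Agent.LOW.LB
import Pool.Agent.LOW.DENS2
import Pool.Agent.LOW.STEP

/-!
# Project LOA: the lower bound in `Con`
-/

set_option autoImplicit false

namespace Pool.Agent.LOA

open Pool.Agent.LOW Classical

namespace LBC_

/-- The number of zeros of a block depends only on the block. -/
theorem nz_congr (g g' : Lang) (x : List Bool) (h : ∀ y : List Bool,
    y.length ≤ (x.length + 2) ^ 2 → g (pair x y) = g' (pair x y)) : nz g x = nz g' x := by
  unfold nz
  congr 1
  apply Finset.filter_congr
  intro y hy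
  rw [h y (GENC_.mem_W.1 hy)]

/-- The words of `R n (k + 1)` are the words of the blocks of the words of `R n k`. -/
theorem mem_R {n k : ℕ} {u y : List Bool} (h : pair u y ∈ R n (k + 1)) : u ∈ R n k := by
  rw [R, Finset.mem_biUnion] at h
  obtain ⟨u', hu', h'⟩ := h
  obtain ⟨y', -, hy'⟩ := Finset.mem_image.1 h'
  obtain ⟨rfl, -⟩ := STEP_.pair_inj hy'
  exact hu'

/-- A language that is as `h` outside `R n (k + 1)` and has at most one zero in the blocks of the
words of `R n k` is in `Con`. -/
theorem mem_Con {n k : ℕ} {h z : Lang} (hh : h ∈ Con) (hz : Adm (R n (k + 1)) h z)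
    (h1 : ∀ u ∈ R n k, nz z u ≤ 1) : z ∈ Con := by
  intro x
  by_cases hx : x ∈ R n k
  · have := h1 x hx
    rcases Nat.lt_or_ge (nz z x) 1 with h | h
    · left; omega
    · right
      have : nz z x = 1 := by omega
      rw [this]
      exact odd_one
  · have h2 : nz z x = nz h x := by
      apply nz_congr
      intro y _
      exact hz _ fun h => hx (mem_R h)
    rw [h2]
    exact hh x

end LBC_

open LBC_

theorem p_LBC (hSTEP : T_STEPC) (hLB : T_LB) (hUREC : T_UREC) (hULOC : T_ULOC) : T_LBC := by
  intro n s a M k h C hh hs hn hlen hnum hM hMs hC hall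
  cases k with
  | zero =>
    set x : List Bool := List.replicate n true with hx
    have hxR : x ∈ R n 0 := by
      show x ∈ ({List.replicate n true} : Finset (List Bool))
      rw [Finset.mem_singleton]
    have hR0 : ∀ u ∈ R n 0, u = x := by
      intro u hu
      have : u ∈ ({List.replicate n true} : Finset (List Bool)) := hu
      rwa [Finset.mem_singleton] at this
    have hxl : x.length = n := by rw [hx, List.length_replicate]
    set D : Finset (List Bool) := R n (0 + 1) with hDdef
    have hFr : Fr n 0 D := DENS2_.fr_top n 0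
    have h1 := hFr.2 x hxR
    set z : Lang := fun v => if v ∈ D then true else h v with hz
    obtain ⟨A, hA1, hA2⟩ := LB_.asked z (show DT (List Bool) from C)
    have hCs : DT.depth (show DT (List Bool) from C) ≤ s := hC
    have hs2 : s < 2 ^ n := by
      calc s < (16 * s + 1) * (a + 3) := by nlinarith
        _ ≤ 2 ^ n := hnum
    have hpow : 2 ^ n ≤ 2 ^ ((x.length + 2) ^ 2 - n) := by
      apply Nat.pow_le_pow_right (by norm_num)
      rw [hxl]
      have e1 : n + n ≤ (n + 2) ^ 2 := by nlinarith
      omega
    have hcard : A.card < ((Ch D x).image (pair x)).card := by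
      rw [Finset.card_image_of_injective _ (LB_.pair_inj x)]
      omega
    obtain ⟨v, hv1, hv2⟩ := Finset.exists_mem_notMem_of_card_lt_card hcard
    obtain ⟨y, hy1, rfl⟩ := Finset.mem_image.mp hv1
    obtain ⟨hy2, hy3⟩ := Finset.mem_filter.mp hy1
    have hyl : y.length ≤ (x.length + 2) ^ 2 := LB_.mem_W.mp hy2
    have hDx : ∀ y' : List Bool, y'.length ≤ (x.length + 2) ^ 2 → pair x y' ∈ D := by
      intro y' hy'
      exact STEP_.mem_R_succ hxR hy'
    have hzA : Adm D h z := by
      intro v hv
      simp only [hz, if_neg hv]
    have hz'A : Adm D h (Function.update z (pair x y) false) := by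
      intro v hv
      have hne : v ≠ pair x y := fun e => hv (e ▸ hy3)
      rw [Function.update_of_ne hne]
      exact hzA v hv
    have hzC : z ∈ Con := by
      refine mem_Con hh hzA fun u hu => ?_
      rw [hR0 u hu]
      have : nz z x = 0 := by
        unfold nz
        rw [Finset.card_eq_zero, Finset.filter_eq_empty_iff]
        intro y' hy'
        simp only [hz, if_pos (hDx y' (LB_.mem_W.1 hy')), not_false_eq_true, Bool.true_eq_false]
      omega
    have hz'C : Function.update z (pair x y) false ∈ Con := by
      refine mem_Con hh hz'A fun u hu => ?_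
      rw [hR0 u hu]
      unfold nz
      refine (Finset.card_le_card (t := {y}) fun y' hy' => ?_).trans
        (by rw [Finset.card_singleton])
      obtain ⟨g1, g2⟩ := Finset.mem_filter.1 hy'
      rw [Finset.mem_singleton]
      by_contra hne
      have hne' : pair x y' ≠ pair x y := fun e => hne (LB_.pair_inj x e)
      rw [Function.update_of_ne hne'] at g2
      simp only [hz, if_pos (hDx y' (LB_.mem_W.1 g1)), Bool.true_eq_false] at g2
    have e1 := hall z hzC hzA
    have e2 := hall _ hz'C hz'A
    have e3 : Ckt.ev (Function.update z (pair x y) false) 0 C = Ckt.ev z 0 C := by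
      apply hA2
      intro v hv
      have hne : v ≠ pair x y := fun e => hv2 (e ▸ hv)
      rw [Function.update_of_ne hne]
    have e4 : U (0 + 1) (Function.update z (pair x y) false) x = true := by
      show decide (∃ y' : List Bool, y'.length ≤ (x.length + 2) ^ 2 ∧
        U 0 (Function.update z (pair x y) false) (pair x y') = false) = true
      rw [decide_eq_true_iff]
      refine ⟨y, hyl, ?_⟩
      show Function.update z (pair x y) false (pair x y) = false
      rw [Function.update_self]
    have e5 : U (0 + 1) z x = false := by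
      show decide (∃ y' : List Bool, y'.length ≤ (x.length + 2) ^ 2 ∧
        U 0 z (pair x y') = false) = false
      rw [decide_eq_false_iff_not]
      rintro ⟨y', hy'1, hy'2⟩
      have hy'3 : z (pair x y') = false := hy'2
      simp only [hz, if_pos (hDx y' hy'1)] at hy'3
      exact absurd hy'3 (by decide)
    rw [e3, e1, e5] at e2
    rw [e4] at e2
    exact absurd e2 (by decide)
  | succ k =>
    have hbl := LB_.bot_len M s k C hC
    have hMk : M ^ k ≤ M ^ (k + 1) := Nat.pow_le_pow_right hM (Nat.le_succ k)
    obtain ⟨D', lift, h1, h2, h2', h3, h4⟩ := hSTEP n k s a h (LB_.bot k C) hs hn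
      (hlen (k + 1) le_rfl) (fun u hu => (hlen k (Nat.le_succ k) u hu).1) hnum
      (LB_.bot_depth M s k C hC) (by omega)
    obtain ⟨C', h5, h6⟩ := LB_.repl M s {z' : Lang | Adm D' (fun _ => true) z'} lift k C hC
      (fun L hL => h4 L hL)
    refine hLB n s a M k D' (fun _ => true) C' hs hn h1 (fun _ _ _ => rfl)
      (fun i hi => hlen i (by omega)) hnum hM (by omega) h5 ?_
    intro z' hz'
    rw [h6 z' hz', hall (lift z') (mem_Con hh (h2 z' hz') (h2' z' hz')) (h2 z' hz'), hUREC]
    exact hULOC (k + 1) n _ _ fun u hu => h3 z' hz' u hu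

end Pool.Agent.LOA
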