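import Pool.Agent.LOA.Targets
import Pool.Agent.LOW.LOCN
import Pool.Agent.LOW.CNT
import Pool.Agent.LOW.MACH

/-! Parts LOCT and CNTT of project LOA: the tests are local, there are countably many tests. -/

set_option autoImplicit false

namespace Pool.Agent.LOA

open Pool.Agent.LOW Pool.Agent.LOW.LOCN_ Classical

namespace LOCT_

theorem hloc : T_LOC := p_LOC p_LEN

theorem mem_W' {k : ℕ} {y : List Bool} : y ∈ W k ↔ y.length ≤ k := by
  simp [W]

theorem cnt_loc (X X' : Lang) (Q : List Instr) (j c K : ℕ) (x : List Bool)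
    (hK : (j + 3) * (c + 1) + 2 ≤ K)
    (h : ∀ v : List Bool, v.length < (x.length + 2) ^ K → X v = X' v) :
    cnt X Q j c x = cnt X' Q j c x := by
  unfold cnt
  congr 1
  refine Finset.filter_congr fun y hy => ?_
  exact acc_pair hloc X X' Q j c K x y hK (mem_W'.1 hy) h

theorem cam_loc (X X' : Lang) (Q : List Instr) (i j c K : ℕ) (x : List Bool)
    (hK : (i + 3) * ((j + 3) * (c + 1) + 2) ≤ K)
    (h : ∀ v : List Bool, v.length < (x.length + 2) ^ K → X v = X' v) :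
    cam X Q i j c x = cam X' Q i j c x := by
  unfold cam
  congr 1
  refine Finset.filter_congr fun r _ => ?_
  refine and_congr_right fun hr => exists_congr fun y => and_congr_right fun hy => ?_
  have h1 : (pair x r).length + 2 ≤ (x.length + 2) ^ (i + 3) := pair_bound x r i hr.le
  have h2 : x.length ≤ (pair x r).length := by
    rw [pair_len]
    omega
  have h3 : y.length ≤ ((pair x r).length + 2) ^ j :=
    hy.trans (Nat.pow_le_pow_left (by omega) _)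
  refine acc_pair hloc X X' Q j c _ (pair x r) y le_rfl h3 fun v hv => h v ?_
  refine lt_of_lt_of_le hv ?_
  calc ((pair x r).length + 2) ^ ((j + 3) * (c + 1) + 2)
      ≤ ((x.length + 2) ^ (i + 3)) ^ ((j + 3) * (c + 1) + 2) := Nat.pow_le_pow_left h1 _
    _ = (x.length + 2) ^ ((i + 3) * ((j + 3) * (c + 1) + 2)) := by rw [← pow_mul]
    _ ≤ (x.length + 2) ^ K := Nat.pow_le_pow_right (by omega) hK

/-- The code of a test. -/
def encT : Test → (List Instr × ℕ × ℕ × ℕ) ⊕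
    ((List Instr × ℕ × ℕ × List Instr × List Instr × ℕ × ℕ × ℕ × ℕ × ℕ) ⊕
      (List Instr × ℕ × ℕ × List Instr × ℕ × ℕ × ℕ))
  | Test.few Q j c q => Sum.inl (Q, j, c, q)
  | Test.aw Q j c Q₁ Q₂ j' c₁ c₂ e i => Sum.inr (Sum.inl (Q, j, c, Q₁, Q₂, j', c₁, c₂, e, i))
  | Test.am Q j c Q' i j' c' => Sum.inr (Sum.inr (Q, j, c, Q', i, j', c'))

theorem encT_inj : Function.Injective encT := by
  intro a b h
  cases a <;> cases b <;> simp_all [encT]

end LOCT_

open LOCT_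

theorem p_LOCT : T_LOCT := by
  intro t
  cases t with
  | few Q j c q =>
    refine ⟨(j + 3) * (c + 1) + 2, fun X X' x h => ?_⟩
    show _ ≤ _ ↔ _ ≤ _
    rw [cnt_loc X X' Q j c _ x le_rfl h]
  | aw Q j c Q₁ Q₂ j' c₁ c₂ e i =>
    refine ⟨((j + 3) * (c + 1) + 2) + (((j' + 3) * (c₁ + 1) + 2) + ((j' + 3) * (c₂ + 1) + 2)),
      fun X X' x h => ?_⟩
    have h1 := cnt_loc X X' Q₁ j' c₁ _ x (by omega) h
    have h2 := cnt_loc X X' Q₂ j' c₂ _ x (by omega) h
    have h3 := npf_loc hloc Q j c _ (by omega) X X' x h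
    show ((npf Q j c X x = true →
        2 * 2 ^ (e * (x.length + 2) ^ i) + 3 * cnt X Q₂ j' c₂ x ≤ 3 * cnt X Q₁ j' c₁ x ∧
        cnt X Q₁ j' c₁ x ≤ 2 ^ (e * (x.length + 2) ^ i) + cnt X Q₂ j' c₂ x) ∧
      (npf Q j c X x = false →
        cnt X Q₂ j' c₂ x ≤ cnt X Q₁ j' c₁ x ∧
        3 * cnt X Q₁ j' c₁ x ≤ 2 ^ (e * (x.length + 2) ^ i) + 3 * cnt X Q₂ j' c₂ x)) ↔
      ((npf Q j c X' x = true →
        2 * 2 ^ (e * (x.length + 2) ^ i) + 3 * cnt X' Q₂ j' c₂ x ≤ 3 * cnt X' Q₁ j' c₁ x ∧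
        cnt X' Q₁ j' c₁ x ≤ 2 ^ (e * (x.length + 2) ^ i) + cnt X' Q₂ j' c₂ x) ∧
      (npf Q j c X' x = false →
        cnt X' Q₂ j' c₂ x ≤ cnt X' Q₁ j' c₁ x ∧
        3 * cnt X' Q₁ j' c₁ x ≤ 2 ^ (e * (x.length + 2) ^ i) + 3 * cnt X' Q₂ j' c₂ x))
    rw [h1, h2, h3]
  | am Q j c Q' i j' c' =>
    refine ⟨((j + 3) * (c + 1) + 2) + (i + 3) * ((j' + 3) * (c' + 1) + 2),
      fun X X' x h => ?_⟩
    have h1 := cam_loc X X' Q' i j' c' _ x (Nat.le_add_left _ _) h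
    have h3 := npf_loc hloc Q j c _ (Nat.le_add_right _ _) X X' x h
    show ((npf Q j c X x = false → 2 * 2 ^ ((x.length + 2) ^ i) ≤ 3 * cam X Q' i j' c' x) ∧
      (npf Q j c X x = true → 3 * cam X Q' i j' c' x ≤ 2 ^ ((x.length + 2) ^ i))) ↔
      ((npf Q j c X' x = false → 2 * 2 ^ ((x.length + 2) ^ i) ≤ 3 * cam X' Q' i j' c' x) ∧
      (npf Q j c X' x = true → 3 * cam X' Q' i j' c' x ≤ 2 ^ ((x.length + 2) ^ i)))
    rw [h1, h3]

theorem p_CNTT : T_CNTT := by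
  have := CNT_.instr
  exact encT_inj.countable

end Pool.Agent.LOA
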