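import Pool.Agent.LOA.PROG

/-!
# Project LOA: the main theorem from the targets
-/

set_option autoImplicit false

namespace Pool.Agent.LOA

open Pool.Agent.LOW Classical

namespace MAIN_

/-- The index type of the requirements. -/
abbrev Idx : Type := Test ⊕ ((List Instr × ℕ × List ℕ) ⊕ (List Instr × ℕ × ℕ))

/-- The requirements. -/
noncomputable def req (cd : ℕ → Code) : Idx → Set Lang
  | Sum.inl t => {g | (∃ x, ¬ t.ok (orcC cd g) x) ∨ ∃ m, RobT cd g m t}
  | Sum.inr (Sum.inl q) => {g | ∃ n : ℕ, U (q.2.2.length + 1) g (List.replicate n true) ≠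
      SigF (orcC cd g) q.1 q.2.1 q.2.2 (List.replicate n true)}
  | Sum.inr (Sum.inr q) => {g | ∃ x, VV g x ≠ paf q.1 q.2.1 q.2.2 (orcC cd g) x}

theorem req_dense (hDENS1 : T_DENS1C) (hDENS2 : T_DENS2C) (hDENS3 : T_DENS3) (hOPEN : T_OPENC)
    (cd : ℕ → Code) (i : Idx) (g₀ : Lang) (m : ℕ) (hg₀ : g₀ ∈ Con) :
    ∃ (g : Lang) (m' : ℕ), g ∈ Con ∧ Eqm m g₀ g ∧
      ∀ g' ∈ Con, Eqm m' g g' → g' ∈ req cd i := by
  rcases i with t | q | q
  · obtain ⟨g, m', h1, h2, h3⟩ := hDENS1 cd t g₀ m hg₀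
    exact ⟨g, m', h1, h2, h3⟩
  · obtain ⟨Q, c, js⟩ := q
    obtain ⟨g, hgC, hg, n, hn⟩ := hDENS2 cd Q c js g₀ m hg₀
    obtain ⟨m', hm'⟩ := hOPEN cd Q c js (js.length + 1) (List.replicate n true)
    refine ⟨g, m', hgC, hg, fun g' _ hg' => ?_⟩
    obtain ⟨h1, h2⟩ := hm' g g' hg'
    refine ⟨n, ?_⟩
    show U (js.length + 1) g' (List.replicate n true) ≠
      SigF (orcC cd g') Q c js (List.replicate n true)
    rw [← h1, ← h2]
    exact hn
  · obtain ⟨Q, j, c⟩ := q
    obtain ⟨g, m', h1, h2, h3⟩ := hDENS3 cd Q j c g₀ m hg₀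
    exact ⟨g, m', h1, h2, fun g' _ hg' => h3 g' hg'⟩

theorem acc_iff {X Y : Lang} {Q : List Instr} {C : Lang} {c : ℕ}
    (h : Decides X Y Q C (fun n => (n + 2) ^ c)) (u : List Bool) :
    acc X Y Q c u ↔ C u = true := by
  unfold acc
  rw [(h u).2]
  simp

theorem pa_eq {O A : Lang} (hA : A ∈ ParP O) :
    ∃ (Q : List Instr) (j c : ℕ), A = paf Q j c O := by
  obtain ⟨C, ⟨Q, c, hQ⟩, j, hj⟩ := hA
  refine ⟨Q, j, c, ?_⟩
  funext x
  unfold paf
  rw [Bool.eq_iff_iff, hj x, decide_eq_true_iff]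
  simp only [acc_iff hQ]

theorem mem_W {m : ℕ} {y : List Bool} : y ∈ W m ↔ y.length ≤ m := by
  unfold W
  rw [Set.Finite.mem_toFinset]
  exact Iff.rfl

/-- The number of witnesses. -/
theorem ncard_eq (g : Lang) (x : List Bool) :
    {y : List Bool | y.length ≤ (x.length + 2) ^ 2 ∧ (fun w => !(g w)) (pair x y) = true}.ncard =
      nz g x := by
  have h : {y : List Bool | y.length ≤ (x.length + 2) ^ 2 ∧
      (fun w => !(g w)) (pair x y) = true} =
      (((W ((x.length + 2) ^ 2)).filter fun y => g (pair x y) = false : Finset (List Bool)) :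
        Set (List Bool)) := by
    ext y
    rw [Finset.coe_filter]
    simp only [mem_W, Set.mem_ofPred_eq, Bool.not_eq_true']
  rw [h, Set.ncard_coe_finset]
  rfl

theorem u1_iff (g : Lang) (x : List Bool) : U 1 g x = true ↔ 0 < nz g x := by
  have h : U 1 g x = decide (∃ y : List Bool, y.length ≤ (x.length + 2) ^ 2 ∧
      g (pair x y) = false) := rfl
  rw [h, decide_eq_true_iff]
  unfold nz
  rw [Finset.card_pos]
  constructor
  · rintro ⟨y, h1, h2⟩
    exact ⟨y, Finset.mem_filter.2 ⟨mem_W.2 h1, h2⟩⟩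
  · rintro ⟨y, hy⟩
    obtain ⟨h1, h2⟩ := Finset.mem_filter.1 hy
    exact ⟨y, mem_W.1 h1, h2⟩

end MAIN_

open MAIN_

theorem main_of (hCNT : T_CNT) (hCNTT : T_CNTT) (hGEN : T_GENC) (hDENS1 : T_DENS1C)
    (hDENS2 : T_DENS2C) (hDENS3 : T_DENS3) (hOPEN : T_OPENC) (hSIG : T_SIG) (hCLS : T_CLS)
    (hVALS : T_VALSC) (hUZ : T_UZ) (hUZN : T_UZN) (hUAS : T_UAS) (hUREC : T_UREC) : Main := by
  have : Countable Instr := hCNT.1
  have : Countable Code := hCNT.2
  have : Countable Test := hCNTT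
  have : Nonempty Code := ⟨(0, (0, []), Fn.np [] 0 0)⟩
  obtain ⟨cd, hcd⟩ := exists_surjective_nat Code
  have : Nonempty MAIN_.Idx := ⟨Sum.inr (Sum.inl ([], 0, []))⟩
  obtain ⟨e, he⟩ := exists_surjective_nat MAIN_.Idx
  obtain ⟨g, hgC, hg⟩ := hGEN (fun s => MAIN_.req cd (e s))
    (fun s g₀ m hg₀ => MAIN_.req_dense hDENS1 hDENS2 hDENS3 hOPEN cd (e s) g₀ m hg₀)
  have hreq : ∀ i, g ∈ MAIN_.req cd i := by
    intro i
    obtain ⟨s, hs⟩ := he i
    have := hg s
    simp only [hs] at this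
    exact this
  set O := orcC cd g with hO
  have hRob : RobAll cd g := fun t => hreq (Sum.inl t)
  obtain ⟨c1, c2, c3⟩ := hCLS cd g hcd hgC hRob
  -- the complement of the generic part
  set C : Lang := fun w => !(g w) with hC
  have hCP : C ∈ P O emp := hUZN O g (hVALS cd g).1
  have hgP : g ∈ P O emp := hUZ O g (hVALS cd g).1
  -- the test languages
  have hU : ∀ k, U k g ∈ Sigma k O emp := by
    intro k
    induction k with
    | zero => exact hgP
    | succ k ih =>
      refine ⟨U k g, ih, 2, fun x => ?_⟩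
      show decide (∃ y : List Bool, y.length ≤ (x.length + 2) ^ 2 ∧
        U k g (pair x y) = false) = true ↔ _
      rw [decide_eq_true_iff]
  have hnot : ∀ k, U (k + 1) g ∉ Sigma k O emp := by
    intro k h1
    obtain ⟨Q, c, js, hjs, hUe⟩ := hSIG k O (U (k + 1) g) h1
    obtain ⟨n, hn⟩ := hreq (Sum.inr (Sum.inl (Q, c, js)))
    apply hn
    show U (js.length + 1) g (List.replicate n true) =
      SigF (orcC cd g) Q c js (List.replicate n true)
    rw [hjs, hUe]
  have hA : ∀ x, (U 1 g x = false → nz g x = 0) ∧ (U 1 g x = true → Odd (nz g x)) := by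
    intro x
    constructor
    · intro h
      by_contra h'
      have := (u1_iff g x).2 (Nat.pos_of_ne_zero h')
      rw [h] at this
      exact absurd this (by simp)
    · intro h
      have h1 := (u1_iff g x).1 h
      rcases hgC x with h2 | h2
      · omega
      · exact h2
  refine ⟨O, c1, c2, c3, ?_, ?_, U 1 g, ⟨?_, ?_⟩, ?_, C, hCP, 2, ?_⟩
  · -- NP is not in parity-P
    intro hsub
    have h1 : VV g ∈ NP O := by
      refine ⟨C, hCP, 1, fun x => ?_⟩
      show decide (∃ y : List Bool, y.length ≤ x.length + 2 ∧ g (pair x y) = false) = true ↔ _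
      rw [decide_eq_true_iff, pow_one]
      simp only [hC, Bool.not_eq_true']
    obtain ⟨Q, j, c, h2⟩ := pa_eq (hsub h1)
    obtain ⟨x, hx⟩ := hreq (Sum.inr (Sum.inr (Q, j, c)))
    exact hx (by show VV g x = paf Q j c (orcC cd g) x; rw [h2])
  · intro k hk
    exact hnot k (hk ▸ hU (k + 1))
  · refine ⟨C, hCP, 2, fun x => ?_⟩
    show decide (∃ y : List Bool, y.length ≤ (x.length + 2) ^ 2 ∧
      U 0 g (pair x y) = false) = true ↔ _
    rw [decide_eq_true_iff]
    simp only [hC, Bool.not_eq_true', U]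
  · refine ⟨C, hCP, 2, fun x => ?_⟩
    rw [hC, ncard_eq]
    constructor
    · exact (hA x).2
    · intro h
      by_contra h'
      have h1 : U 1 g x = false := by simpa using h'
      rw [(hA x).1 h1] at h
      exact absurd h (by decide)
  · intro k hk
    have h1 : U (k + 1) g ∈ Sigma k O (U 1 g) := by
      have h2 : U (k + 1) g = U k (U 1 g) := funext fun x => hUREC k g x
      rw [h2]
      exact hUAS O (U 1 g) k
    rw [hk] at h1
    exact hnot k h1
  · intro x
    rw [hC, ncard_eq]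
    exact hA x

end Pool.Agent.LOA
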