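import Pool.Agent.LOA.Targets

/-!
# Project LOW, job OPEN: both sides of the second requirement are local
-/

set_option autoImplicit false

namespace Pool.Agent.LOA

open Pool.Agent.LOW

open Classical

theorem OPENC_mono {m m' : ℕ} {g g' : Lang} (h : m ≤ m') (e : Eqm m' g g') : Eqm m g g' :=
  fun v hv => e v (hv.trans h)

/-- A common bound for the words of bounded length. -/
theorem OPENC_bound (N : ℕ) (F : Lang → List Bool → Bool)
    (hF : ∀ y : List Bool, ∃ m : ℕ, ∀ g g' : Lang, Eqm m g g' → F g y = F g' y) :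
    ∃ m : ℕ, ∀ g g' : Lang, Eqm m g g' → ∀ y : List Bool, y.length ≤ N → F g y = F g' y := by
  choose f hf using hF
  refine ⟨(W N).sup f, fun g g' hg y hy => ?_⟩
  have hy' : y ∈ W N := by
    unfold W
    rw [Set.Finite.mem_toFinset]
    exact hy
  exact hf y g g' (OPENC_mono (Finset.le_sup hy') hg)

theorem OPENC_step (N : ℕ) (F : Lang → List Bool → Bool)
    (hF : ∀ y : List Bool, ∃ m : ℕ, ∀ g g' : Lang, Eqm m g g' → F g y = F g' y) :
    ∃ m : ℕ, ∀ g g' : Lang, Eqm m g g' →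
      decide (∃ y : List Bool, y.length ≤ N ∧ F g y = false) =
      decide (∃ y : List Bool, y.length ≤ N ∧ F g' y = false) := by
  obtain ⟨m, hm⟩ := OPENC_bound N F hF
  refine ⟨m, fun g g' hg => ?_⟩
  have h := hm g g' hg
  have e : (∃ y : List Bool, y.length ≤ N ∧ F g y = false) ↔
      (∃ y : List Bool, y.length ≤ N ∧ F g' y = false) :=
    ⟨fun ⟨y, hy, hy'⟩ => ⟨y, hy, by rw [← h y hy]; exact hy'⟩,
      fun ⟨y, hy, hy'⟩ => ⟨y, hy, by rw [h y hy]; exact hy'⟩⟩
  exact decide_eq_decide.mpr e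

theorem OPENC_U : ∀ (k : ℕ) (x : List Bool), ∃ m : ℕ, ∀ g g' : Lang, Eqm m g g' →
    U k g x = U k g' x := by
  intro k
  induction k with
  | zero => exact fun x => ⟨x.length, fun g g' hg => hg x le_rfl⟩
  | succ k ih =>
    intro x
    exact OPENC_step ((x.length + 2) ^ 2) (fun g y => U k g (pair x y)) fun y => ih (pair x y)

theorem OPENC_Sig (hLOC : T_LOC) (hORCLOC : T_ORCLOCC) (cd : ℕ → Code) (Q : List Instr) (c : ℕ) :
    ∀ (js : List ℕ) (x : List Bool), ∃ m : ℕ, ∀ g g' : Lang, Eqm m g g' →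
      SigF (orcC cd g) Q c js x = SigF (orcC cd g') Q c js x := by
  intro js
  induction js with
  | nil =>
    intro x
    refine ⟨x.length + (x.length + 2) ^ c, fun g g' hg => ?_⟩
    have h := hLOC (orcC cd g) (orcC cd g') emp emp Q x ((x.length + 2) ^ c)
      (fun v hv => ⟨hORCLOC cd _ g g' hg v hv, rfl⟩) _ le_rfl
    show decide (acc (orcC cd g) emp Q c x) = decide (acc (orcC cd g') emp Q c x)
    unfold acc
    rw [h]
  | cons j js ih =>
    intro x
    exact OPENC_step ((x.length + 2) ^ j) (fun g y => SigF (orcC cd g) Q c js (pair x y))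
      fun y => ih (pair x y)

/-- The target. -/
theorem p_OPENC (hLOC : T_LOC) (hORCLOC : T_ORCLOCC) : T_OPENC := by
  intro cd Q c js k x
  obtain ⟨m₁, h₁⟩ := OPENC_U k x
  obtain ⟨m₂, h₂⟩ := OPENC_Sig hLOC hORCLOC cd Q c js x
  exact ⟨max m₁ m₂, fun g g' hg => ⟨h₁ g g' (OPENC_mono (le_max_left _ _) hg),
    h₂ g g' (OPENC_mono (le_max_right _ _) hg)⟩⟩

end Pool.Agent.LOA
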