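import Pool.Agent.LOA.Targets
import Pool.Agent.LOW.ORC

set_option autoImplicit false

/-!
# Project LOA: the basic facts about the oracle
-/

namespace Pool.Agent.LOA

open Pool.Agent.LOW Classical

namespace ORCC_

open Pool.Agent.LOW.ORC_ in
lemma trn_self (cd : ℕ → Code) (u : List Bool) :
    trnC cd (u.length + 1) u = buildC cd (trnC cd u.length) u := by
  rw [trnC]
  simp

lemma tr_eq (cd : ℕ → Code) (u : List Bool) :
    trC cd u = buildC cd (trnC cd u.length) u := trn_self cd u

end ORCC_

open ORCC_

theorem p_TRNC : T_TRNC := by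
  intro cd L
  induction L with
  | zero =>
    intro u
    exact ⟨fun h => absurd h (Nat.not_lt_zero _), fun _ => rfl⟩
  | succ L ih =>
    intro u
    by_cases hu : u.length = L
    · refine ⟨fun _ => ?_, fun h => ?_⟩
      · rw [trC, hu]
      · omega
    · have h1 : trnC cd (L + 1) u = trnC cd L u := by
        rw [trnC]
        exact if_neg hu
      rw [h1]
      exact ⟨fun h => (ih u).1 (by omega), fun h => (ih u).2 (by omega)⟩

theorem p_DEPC : T_DEPC := by
  intro cd u
  rw [tr_eq]
  match u with
  | [] =>
    rw [buildC]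
    exact ⟨Nat.zero_le _, trivial⟩
  | false :: w =>
    rw [buildC]
    refine ⟨?_, ?_, trivial, trivial⟩
    · simp [DT.depth]
    · simp [Sh]
  | [true] =>
    rw [buildC]
    exact ⟨Nat.zero_le _, trivial⟩
  | true :: false :: w =>
    rw [buildC]
    exact ⟨Nat.zero_le _, trivial⟩
  | true :: true :: w =>
    rw [buildC]
    split_ifs with h
    · have h1 := h.choose_spec
      refine ⟨h1.1.trans ?_, ORC_.In_mono ?_ _ h1.2.1⟩
      · simp only [List.length_cons]
        omega
      · intro v hv
        simp only [Sh, Set.mem_ofPred_eq, List.length_cons] at hv ⊢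
        omega
    · exact ⟨Nat.zero_le _, trivial⟩

theorem p_VALSC : T_VALSC := by
  intro cd g
  refine ⟨fun w => ?_, fun m e x => ?_⟩
  · rw [orcC, tr_eq, buildC]
    simp only [DT.eval]
    cases g w <;> simp
  · rw [orcC, tr_eq, buildC]
    simp only [DT.eval]
    apply decide_eq_decide.2
    constructor
    · rintro ⟨m', e', x', h1, h2⟩
      obtain ⟨rfl, rfl, rfl⟩ := ORC_.triple_inj h1
      exact h2
    · intro h
      exact ⟨m, e, x, rfl, h⟩

theorem p_ORCLOCC (hDEP : T_DEPC) : T_ORCLOCC := by
  intro cd m g g' hg v hv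
  refine ORC_.eval_congr (S := Sh v.length) (fun w hw => hg w ?_) _ (hDEP cd v).2
  exact le_trans hw hv

end Pool.Agent.LOA
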