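import Pool.Agent.LOA.Targets

/-!
# Parity of the number of zeros of a block
-/

set_option autoImplicit false

namespace Pool.Agent.LOA

open Pool.Agent.LOW Classical

namespace PAR_

theorem pair_inj : ∀ {x x' y y' : List Bool}, pair x y = pair x' y' → x = x' ∧ y = y' := by
  intro x
  induction x with
  | nil =>
    intro x' y y' h
    cases x' with
    | nil => exact ⟨rfl, List.tail_eq_of_cons_eq (h : false :: y = false :: y')⟩
    | cons b x' =>
      have h' : false :: y = true :: b :: pair x' y' := h
      exact absurd (List.head_eq_of_cons_eq h') (by decide)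
  | cons a x ih =>
    intro x' y y' h
    cases x' with
    | nil =>
      have h' : true :: a :: pair x y = false :: y' := h
      exact absurd (List.head_eq_of_cons_eq h') (by decide)
    | cons b x' =>
      have h' : true :: a :: pair x y = true :: b :: pair x' y' := h
      have h1 := List.tail_eq_of_cons_eq h'
      have h2 := List.head_eq_of_cons_eq h1
      obtain ⟨h3, h4⟩ := ih (List.tail_eq_of_cons_eq h1)
      exact ⟨by rw [h2, h3], h4⟩

theorem card_blk (D : Finset (List Bool)) (x : List Bool) :
    (D ∩ blk x).card = ((W ((x.length + 2) ^ 2)).filter fun y => pair x y ∈ D).card := by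
  rw [← Finset.card_image_of_injOn (s := (W ((x.length + 2) ^ 2)).filter fun y => pair x y ∈ D)
    (f := pair x) (fun y _ y' _ h => (pair_inj h).2)]
  congr 1
  ext v
  simp only [Finset.mem_inter, blk, Finset.mem_image, Finset.mem_filter]
  constructor
  · rintro ⟨h1, y, h2, rfl⟩
    exact ⟨y, ⟨h2, h1⟩, rfl⟩
  · rintro ⟨y, ⟨h1, h2⟩, rfl⟩
    exact ⟨h2, y, h1, rfl⟩

end PAR_

open PAR_

theorem p_PAR : T_PAR := by
  intro z D x
  refine ⟨?_, fun h => ?_⟩
  · rw [card_blk, nz, nz, Finset.card_filter, Finset.card_filter, Finset.card_filter,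
      ← Finset.sum_add_distrib, ← Finset.sum_add_distrib]
    refine Finset.even_sum _ fun y _ => ?_
    by_cases h1 : pair x y ∈ D
    · cases h2 : z (pair x y)
      · simp [flipD, h1, h2]
      · simp [flipD, h1, h2]
    · cases h2 : z (pair x y)
      · simp [flipD, h1, h2]
      · simp [flipD, h1, h2]
  · rw [nz, nz]
    congr 1
    refine Finset.filter_congr fun y hy => ?_
    have h1 : pair x y ∉ D := fun h1 => by
      have : pair x y ∈ D ∩ blk x :=
        Finset.mem_inter.2 ⟨h1, Finset.mem_image.2 ⟨y, hy, rfl⟩⟩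
      rw [h] at this
      exact absurd this (Finset.notMem_empty _)
    rw [flipD, if_neg h1]

theorem p_DISJ : T_DISJ := by
  refine ⟨fun x x' y y' h => pair_inj h, fun x x' hx => ?_⟩
  rw [Finset.disjoint_left]
  intro v h1 h2
  obtain ⟨y, -, rfl⟩ := Finset.mem_image.1 h1
  obtain ⟨y', -, h3⟩ := Finset.mem_image.1 h2
  exact hx (pair_inj h3).1.symm

theorem p_KEEP (h : T_PAR) : T_KEEP := by
  intro z D hz he hp x
  obtain ⟨h1, h2⟩ := h z D x
  rcases Finset.eq_empty_or_nonempty (D ∩ blk x) with h3 | h3
  · rw [h2 h3]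
    exact hz x
  · right
    have h4 := hp x h3
    have h5 : Odd (nz z x) := (hz x).resolve_left h4.ne'
    have h6 := he x
    rw [Nat.even_add, Nat.even_add] at h1
    rw [← Nat.not_even_iff_odd] at h5 ⊢
    tauto

end Pool.Agent.LOA
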