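import Pool.Agent.LOA.Targets

/-!
# A polynomial bounded at `1 + 8 i ^ 2` does not jump between `0` and `1`
-/

set_option autoImplicit false

namespace Pool.Agent.LOA

namespace POL_

open Finset

/-- partial products below the excluded index -/
lemma prod_low (i : ℕ) (hi : 1 ≤ i) : ∀ m : ℕ, m + 1 ≤ i →
    (∏ j ∈ Icc 1 m, |((j : ℝ) ^ 2 - (i : ℝ) ^ 2)|) * i * ((i - m - 1).factorial : ℝ) =
      ((i + m).factorial : ℝ) := by
  intro m
  induction m with
  | zero =>
    intro _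
    obtain ⟨t, rfl⟩ : ∃ t, i = t + 1 := ⟨i - 1, by omega⟩
    simp [Nat.factorial_succ]
  | succ m ih =>
    intro hm
    have ih' := ih (by omega)
    rw [Finset.prod_Icc_succ_top (by omega : 1 ≤ m + 1)]
    obtain ⟨t, ht⟩ : ∃ t, i = m + 2 + t := ⟨i - (m + 2), by omega⟩
    have h1 : i - (m + 1) - 1 = t := by omega
    have h2 : i - m - 1 = t + 1 := by omega
    rw [h1]
    rw [h2] at ih'
    have habs : |(((m + 1 : ℕ) : ℝ) ^ 2 - (i : ℝ) ^ 2)| = (t + 1 : ℝ) * (i + m + 1) := by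
      rw [abs_of_nonpos]
      · rw [ht]; push_cast; ring
      · rw [ht]; push_cast; nlinarith [sq_nonneg (t : ℝ), (Nat.cast_nonneg t : (0 : ℝ) ≤ t),
          (Nat.cast_nonneg m : (0 : ℝ) ≤ m), mul_nonneg (Nat.cast_nonneg t : (0 : ℝ) ≤ t)
            (Nat.cast_nonneg m : (0 : ℝ) ≤ m)]
    rw [habs]
    have h3 : ((i + (m + 1)).factorial : ℝ) = (i + m + 1 : ℝ) * ((i + m).factorial : ℝ) := by
      have : i + (m + 1) = (i + m) + 1 := by ring
      rw [this, Nat.factorial_succ]; push_cast; ring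
    have h4 : ((t + 1).factorial : ℝ) = (t + 1 : ℝ) * (t.factorial : ℝ) := by
      rw [Nat.factorial_succ]; push_cast; ring
    rw [h3, ← ih', h4]
    ring

/-- full products without the excluded index -/
lemma prod_high (i : ℕ) (hi : 1 ≤ i) : ∀ e : ℕ,
    (∏ j ∈ (Icc 1 (i + e)).erase i, |((j : ℝ) ^ 2 - (i : ℝ) ^ 2)|) * (2 * (i : ℝ) ^ 2) =
      (e.factorial : ℝ) * ((i + i + e).factorial : ℝ) := by
  intro e
  induction e with
  | zero =>
    obtain ⟨t, rfl⟩ : ∃ t, i = t + 1 := ⟨i - 1, by omega⟩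
    have h0 : (Icc 1 (t + 1 + 0)).erase (t + 1) = Icc 1 t := by
      ext j; simp only [mem_erase, mem_Icc]; omega
    have h1 := prod_low (t + 1) (by omega) t (by omega)
    have h2 : t + 1 - t - 1 = 0 := by omega
    rw [h2] at h1
    rw [h0]
    have h3 : (t + 1 + (t + 1) + 0).factorial = (t + 1 + (t + 1)) * (t + 1 + t).factorial := by
      have : t + 1 + (t + 1) + 0 = (t + 1 + t) + 1 := by ring
      rw [this, Nat.factorial_succ]; ring
    rw [h3]
    push_cast at h1 ⊢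
    rw [← h1]
    simp only [Nat.factorial_zero, Nat.cast_one]
    ring
  | succ e ih =>
    have h0 : (Icc 1 (i + (e + 1))).erase i = insert (i + (e + 1)) ((Icc 1 (i + e)).erase i) := by
      ext j; simp only [mem_erase, mem_Icc, mem_insert]; omega
    have h1 : i + (e + 1) ∉ (Icc 1 (i + e)).erase i := by
      simp only [mem_erase, mem_Icc]; omega
    rw [h0, prod_insert h1, mul_assoc, ih]
    have habs : |(((i + (e + 1) : ℕ) : ℝ) ^ 2 - (i : ℝ) ^ 2)| =
        (e + 1 : ℝ) * (i + i + e + 1) := by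
      rw [abs_of_nonneg]
      · push_cast; ring
      · push_cast
        nlinarith [(Nat.cast_nonneg e : (0 : ℝ) ≤ e), (Nat.cast_nonneg i : (0 : ℝ) ≤ i),
          mul_nonneg (Nat.cast_nonneg e : (0 : ℝ) ≤ e) (Nat.cast_nonneg i : (0 : ℝ) ≤ i)]
    rw [habs]
    have h3 : ((i + i + (e + 1)).factorial : ℝ) =
        (i + i + e + 1 : ℝ) * ((i + i + e).factorial : ℝ) := by
      have : i + i + (e + 1) = (i + i + e) + 1 := by ring
      rw [this, Nat.factorial_succ]; push_cast; ring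
    have h4 : ((e + 1).factorial : ℝ) = (e + 1 : ℝ) * (e.factorial : ℝ) := by
      rw [Nat.factorial_succ]; push_cast; ring
    rw [h3, h4]
    ring

lemma fact_le (i e : ℕ) : ∀ k : ℕ, ((e + k).factorial) * ((e + i).factorial) ≤
    e.factorial * (e + i + k).factorial := by
  intro k
  induction k with
  | zero => simp
  | succ k ih =>
    have h1 : (e + (k + 1)).factorial = (e + k + 1) * (e + k).factorial := by
      have : e + (k + 1) = (e + k) + 1 := by ring
      rw [this, Nat.factorial_succ]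
    have h2 : (e + i + (k + 1)).factorial = (e + i + k + 1) * (e + i + k).factorial := by
      have : e + i + (k + 1) = (e + i + k) + 1 := by ring
      rw [this, Nat.factorial_succ]
    rw [h1, h2]
    calc (e + k + 1) * (e + k).factorial * (e + i).factorial
        = (e + k + 1) * ((e + k).factorial * (e + i).factorial) := by ring
      _ ≤ (e + i + k + 1) * (e.factorial * (e + i + k).factorial) :=
          Nat.mul_le_mul (by omega) ih
      _ = e.factorial * ((e + i + k + 1) * (e + i + k).factorial) := by ring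

lemma prod_sq (i e : ℕ) (hi : 1 ≤ i) :
    (∏ j ∈ (Icc 1 (i + e)).erase i, ((j : ℝ) ^ 2)) * (i : ℝ) ^ 2 =
      ((i + e).factorial : ℝ) ^ 2 := by
  rw [Finset.prod_erase_mul _ _ (by simp only [mem_Icc]; omega), Finset.prod_pow]
  congr 1
  have h : Icc 1 (i + e) = Ico 1 (i + e + 1) := by
    ext j; simp only [mem_Icc, mem_Ico]; omega
  rw [← Nat.cast_prod, h, Finset.prod_Ico_id_eq_factorial]

lemma ratio_le (i d : ℕ) (hi : 1 ≤ i) (hd : i ≤ d) :
    (∏ j ∈ (Icc 1 d).erase i, ((j : ℝ) ^ 2)) ≤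
      2 * ∏ j ∈ (Icc 1 d).erase i, |((j : ℝ) ^ 2 - (i : ℝ) ^ 2)| := by
  obtain ⟨e, rfl⟩ : ∃ e, d = i + e := ⟨d - i, by omega⟩
  have h1 := prod_high i hi e
  have h2 := prod_sq i e hi
  have h3 : ((i + e).factorial : ℝ) ^ 2 ≤ (e.factorial : ℝ) * ((i + i + e).factorial : ℝ) := by
    have := fact_le i e i
    have h5 : (e + i).factorial * (e + i).factorial ≤ e.factorial * (e + i + i).factorial := this
    have h6 : e + i + i = i + i + e := by ring
    rw [h6] at h5
    rw [add_comm i e, sq]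
    exact_mod_cast h5
  have hi2 : (0 : ℝ) < (i : ℝ) ^ 2 := by
    have : (0 : ℝ) < i := by exact_mod_cast hi
    positivity
  refine le_of_mul_le_mul_right ?_ hi2
  rw [h2]
  refine h3.trans ?_
  rw [← h1]
  apply le_of_eq
  ring

lemma sum_lt (d : ℕ) : ∑ i ∈ Icc 1 d, (2 / (1 + 16 * (i : ℝ) ^ 2)) ≤
    (1 / 4) * (1 - 1 / (2 * (d : ℝ) + 1)) := by
  induction d with
  | zero => simp
  | succ d ih =>
    rw [Finset.sum_Icc_succ_top (by omega : 1 ≤ d + 1)]
    refine (add_le_add_left ih _).trans ?_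
    have hd : (0 : ℝ) ≤ d := Nat.cast_nonneg d
    push_cast
    have h1 : (2 : ℝ) / (1 + 16 * ((d : ℝ) + 1) ^ 2) ≤
        (1 / 4) * (1 / (2 * (d : ℝ) + 1) - 1 / (2 * ((d : ℝ) + 1) + 1)) := by
      have h2 : (1 / 4) * (1 / (2 * (d : ℝ) + 1) - 1 / (2 * ((d : ℝ) + 1) + 1)) =
          1 / (2 * ((2 * (d : ℝ) + 1) * (2 * ((d : ℝ) + 1) + 1))) := by
        field_simp
        ring
      rw [h2, div_le_div_iff₀ (by positivity) (by positivity)]
      nlinarith
    linarith

end POL_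

open Finset in
theorem p_POL : T_POL := by
  intro d q hq h0 h1 hb
  set v : ℕ → ℝ := fun i => 1 + 16 * (i : ℝ) ^ 2 with hv
  set s : Finset ℕ := range (d + 1) with hs
  have hinj : Set.InjOn v s := by
    intro a _ b _ hab
    simp only [hv] at hab
    have h2 : (a : ℝ) ^ 2 = (b : ℝ) ^ 2 := by linarith
    have h3 : (a : ℝ) = b := by
      have := abs_eq_abs.2 (sq_eq_sq_iff_eq_or_eq_neg.1 h2)
      rwa [abs_of_nonneg (Nat.cast_nonneg a), abs_of_nonneg (Nat.cast_nonneg b)] at this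
    exact_mod_cast h3
  have hdeg : q.degree < s.card := by
    rw [hs, card_range]
    exact lt_of_le_of_lt (Polynomial.degree_le_of_natDegree_le hq) (by exact_mod_cast Nat.lt_succ_self d)
  have hint := Lagrange.eq_interpolate hinj hdeg
  set w : ℕ → ℝ := fun i => ∏ j ∈ s.erase i, ((v i - v j)⁻¹ * (0 - v j)) with hw
  have hev : q.eval 0 = ∑ i ∈ s, q.eval (v i) * w i := by
    conv_lhs => rw [hint]
    rw [Lagrange.interpolate_apply, Polynomial.eval_finsetSum]
    refine Finset.sum_congr rfl fun i _ => ?_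
    rw [Polynomial.eval_mul, Polynomial.eval_C]
    congr 1
    rw [Lagrange.basis, Polynomial.eval_prod]
    refine Finset.prod_congr rfl fun j _ => ?_
    simp [Lagrange.basisDivisor]
  have h0s : (0 : ℕ) ∈ s := by simp [hs]
  have hse : s.erase 0 = Icc 1 d := by
    ext j; simp only [hs, mem_erase, mem_range, mem_Icc]; omega
  -- the weight at `0`
  have hw0 : w 0 = ∏ j ∈ Icc 1 d, ((1 + 16 * (j : ℝ) ^ 2) / (16 * (j : ℝ) ^ 2)) := by
    simp only [hw]
    rw [hse]
    refine Finset.prod_congr rfl fun j hj => ?_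
    have hj1 : (j : ℝ) ≠ 0 := by
      have := (mem_Icc.1 hj).1
      exact_mod_cast (by omega : j ≠ 0)
    simp only [hv]
    push_cast
    field_simp
    ring
  have hw0pos : 0 < w 0 := by
    rw [hw0]
    refine Finset.prod_pos fun j hj => ?_
    have hj1 : (0 : ℝ) < j := by
      have := (mem_Icc.1 hj).1
      exact_mod_cast (by omega : 0 < j)
    positivity
  have hwi : ∀ i ∈ Icc 1 d, |w i| ≤ w 0 * (2 / (1 + 16 * (i : ℝ) ^ 2)) := by
    intro i hi
    obtain ⟨hi1, hi2⟩ := mem_Icc.1 hi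
    have hipos : (0 : ℝ) < i := by exact_mod_cast (by omega : 0 < i)
    have hes : s.erase i = insert 0 ((Icc 1 d).erase i) := by
      ext j; simp only [hs, mem_erase, mem_range, mem_Icc, mem_insert]; omega
    have hne : (0 : ℕ) ∉ (Icc 1 d).erase i := by
      simp only [mem_erase, mem_Icc]; omega
    have e1 : |w i| = (1 / (16 * (i : ℝ) ^ 2)) *
        ∏ j ∈ (Icc 1 d).erase i, ((1 + 16 * (j : ℝ) ^ 2) / (16 * |((j : ℝ) ^ 2 - (i : ℝ) ^ 2)|)) := by
      simp only [hw]
      rw [Finset.abs_prod, hes, prod_insert hne]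
      congr 1
      · simp only [hv]
        rw [abs_mul, abs_inv]
        have : |(1 + 16 * (i : ℝ) ^ 2 - (1 + 16 * ((0 : ℕ) : ℝ) ^ 2))| = 16 * (i : ℝ) ^ 2 := by
          rw [abs_of_nonneg]
          · push_cast; ring
          · push_cast; nlinarith [sq_nonneg (i : ℝ)]
        rw [this]
        have h2 : |(0 - (1 + 16 * ((0 : ℕ) : ℝ) ^ 2))| = 1 := by norm_num
        rw [h2]
        ring
      · refine Finset.prod_congr rfl fun j _ => ?_
        simp only [hv]
        rw [abs_mul, abs_inv]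
        have h3 : |(1 + 16 * (i : ℝ) ^ 2 - (1 + 16 * (j : ℝ) ^ 2))| =
            16 * |((j : ℝ) ^ 2 - (i : ℝ) ^ 2)| := by
          have : (1 + 16 * (i : ℝ) ^ 2 - (1 + 16 * (j : ℝ) ^ 2)) =
              16 * (-((j : ℝ) ^ 2 - (i : ℝ) ^ 2)) := by ring
          rw [this, abs_mul, abs_neg]
          norm_num
        have h4 : |(0 - (1 + 16 * (j : ℝ) ^ 2))| = 1 + 16 * (j : ℝ) ^ 2 := by
          rw [zero_sub, abs_neg, abs_of_nonneg (by positivity)]
        rw [h3, h4, div_eq_mul_inv, mul_comm]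
    have e2 : w 0 = ((1 + 16 * (i : ℝ) ^ 2) / (16 * (i : ℝ) ^ 2)) *
        ∏ j ∈ (Icc 1 d).erase i, ((1 + 16 * (j : ℝ) ^ 2) / (16 * (j : ℝ) ^ 2)) := by
      rw [hw0, Finset.mul_prod_erase _ (fun j : ℕ => ((1 + 16 * (j : ℝ) ^ 2) / (16 * (j : ℝ) ^ 2))) hi]
    have hr := POL_.ratio_le i d hi1 hi2
    set A := ∏ j ∈ (Icc 1 d).erase i, (1 + 16 * (j : ℝ) ^ 2) with hA
    set B := ∏ j ∈ (Icc 1 d).erase i, (16 : ℝ) with hB
    set S := ∏ j ∈ (Icc 1 d).erase i, ((j : ℝ) ^ 2) with hS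
    set R := ∏ j ∈ (Icc 1 d).erase i, |((j : ℝ) ^ 2 - (i : ℝ) ^ 2)| with hR
    have hApos : 0 < A := Finset.prod_pos fun j _ => by positivity
    have hBpos : 0 < B := Finset.prod_pos fun j _ => by norm_num
    have hSpos : 0 < S := Finset.prod_pos fun j hj => by
      have := (mem_Icc.1 (mem_of_mem_erase hj)).1
      have : (0 : ℝ) < j := by exact_mod_cast (by omega : 0 < j)
      positivity
    have hRpos : 0 < R := Finset.prod_pos fun j hj => by
      rw [abs_pos, sub_ne_zero]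
      intro h
      have h3 : (j : ℝ) = i := by
        have := abs_eq_abs.2 (sq_eq_sq_iff_eq_or_eq_neg.1 h)
        rwa [abs_of_nonneg (Nat.cast_nonneg j), abs_of_nonneg (Nat.cast_nonneg i)] at this
      exact (mem_erase.1 hj).1 (by exact_mod_cast h3)
    have e3 : (∏ j ∈ (Icc 1 d).erase i, ((1 + 16 * (j : ℝ) ^ 2) /
        (16 * |((j : ℝ) ^ 2 - (i : ℝ) ^ 2)|))) = A / (B * R) := by
      rw [Finset.prod_div_distrib, Finset.prod_mul_distrib]
    have e4 : (∏ j ∈ (Icc 1 d).erase i, ((1 + 16 * (j : ℝ) ^ 2) / (16 * (j : ℝ) ^ 2))) =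
        A / (B * S) := by
      rw [Finset.prod_div_distrib, Finset.prod_mul_distrib]
    rw [e1, e2, e3, e4]
    have e5 : (1 + 16 * (i : ℝ) ^ 2) / (16 * (i : ℝ) ^ 2) * (A / (B * S)) *
        (2 / (1 + 16 * (i : ℝ) ^ 2)) = (1 / (16 * (i : ℝ) ^ 2)) * (2 * (A / (B * S))) := by
      field_simp
    rw [e5]
    refine mul_le_mul_of_nonneg_left ?_ (by positivity)
    rw [← mul_div_assoc, div_le_div_iff₀ (by positivity) (by positivity)]
    have : A * (B * S) ≤ A * (B * (2 * R)) := by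
      refine mul_le_mul_of_nonneg_left (mul_le_mul_of_nonneg_left hr hBpos.le) hApos.le
    linarith
  have hw0one : 1 ≤ w 0 := by
    rw [hw0]
    have h2 : ∀ j ∈ Icc 1 d, (1 : ℝ) ≤ (1 + 16 * (j : ℝ) ^ 2) / (16 * (j : ℝ) ^ 2) := by
      intro j hj
      have hj1 : (0 : ℝ) < j := by
        have := (mem_Icc.1 hj).1
        exact_mod_cast (by omega : 0 < j)
      rw [le_div_iff₀ (by positivity)]
      linarith
    calc (1 : ℝ) = ∏ j ∈ Icc 1 d, (1 : ℝ) := by rw [Finset.prod_const_one]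
      _ ≤ _ := Finset.prod_le_prod (fun _ _ => zero_le_one) h2
  rw [← Finset.add_sum_erase s _ h0s, hse] at hev
  have hv0 : v 0 = 1 := by simp [hv]
  rw [hv0] at hev
  have hsum : |∑ i ∈ Icc 1 d, q.eval (v i) * w i| ≤ w 0 * (1 / 4) := by
    refine (Finset.abs_sum_le_sum_abs _ _).trans ?_
    have : ∀ i ∈ Icc 1 d, |q.eval (v i) * w i| ≤ w 0 * (2 / (1 + 16 * (i : ℝ) ^ 2)) := by
      intro i hi
      rw [abs_mul]
      have hbi := hb i (mem_Icc.1 hi).2
      calc |q.eval (v i)| * |w i| ≤ 1 * |w i| :=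
            mul_le_mul_of_nonneg_right hbi (abs_nonneg _)
        _ = |w i| := one_mul _
        _ ≤ _ := hwi i hi
    refine (Finset.sum_le_sum this).trans ?_
    rw [← Finset.mul_sum]
    refine mul_le_mul_of_nonneg_left ((POL_.sum_lt d).trans ?_) hw0pos.le
    have : (0 : ℝ) ≤ 1 / (2 * (d : ℝ) + 1) := by positivity
    linarith
  have h2 := (abs_le.1 hsum).1
  have h3 : 2 / 3 * w 0 ≤ q.eval 1 * w 0 := mul_le_mul_of_nonneg_right h1 hw0pos.le
  linarith

end Pool.Agent.LOA
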