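import Pool.Agent.LOA.Targets
import Pool.Agent.LOW.UZ

/-!
# Project LOA: two small programs
-/

set_option autoImplicit false

namespace Pool.Agent.LOA

open Pool.Agent.LOW Classical

namespace PROG_

/-- The program for the complement of the generic part. -/
def prog : List Instr :=
  [Instr.push 0 false, Instr.ask false 0 2 4, Instr.push 1 true, Instr.ask false 0 5 5,
    Instr.push 1 false]

theorem key (O g : Lang) (hO : ∀ w, O (false :: w) = g w) (x : List Bool) :
    prog.length ≤ (run O emp prog x 4).pc ∧ (run O emp prog x 4).st 1 = [!(g x)] := by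
  cases h : g x
  · have h' : O (false :: x) = false := by rw [hO, h]
    constructor <;>
      simp [run, Function.iterate_succ_apply, step, prog, h']
  · have h' : O (false :: x) = true := by rw [hO, h]
    constructor <;>
      simp [run, Function.iterate_succ_apply, step, prog, h']

/-- The program that asks the second oracle. -/
def prog2 : List Instr :=
  [Instr.ask true 0 1 3, Instr.push 1 false, Instr.ask false 0 4 4, Instr.push 1 true]

theorem key2 (O A : Lang) (x : List Bool) :
    prog2.length ≤ (run O A prog2 x 3).pc ∧ (run O A prog2 x 3).st 1 = [A x] := by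
  cases h : A x
  · constructor <;>
      simp [run, Function.iterate_succ_apply, step, prog2, h]
  · constructor <;>
      simp [run, Function.iterate_succ_apply, step, prog2, h]

end PROG_

theorem p_UZN (hSTAY : T_STAY) : T_UZN := by
  intro O g hO
  refine ⟨PROG_.prog, 2, fun x => ?_⟩
  have h1 := PROG_.key O g hO x
  have h2 : 2 ^ 2 ≤ (x.length + 2) ^ 2 := Nat.pow_le_pow_left (by omega) 2
  rw [hSTAY O emp PROG_.prog x 4 _ h1.1 h2]
  exact h1

theorem PROG_.mem (hSTAY : T_STAY) (O A : Lang) : A ∈ P O A := by
  refine ⟨PROG_.prog2, 2, fun x => ?_⟩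
  have h1 := PROG_.key2 O A x
  have h2 : 3 ≤ (x.length + 2) ^ 2 :=
    le_trans (by norm_num) (Nat.pow_le_pow_left (show 2 ≤ x.length + 2 by omega) 2)
  rw [hSTAY O A PROG_.prog2 x 3 _ h1.1 h2]
  exact h1

theorem p_UAS (hSTAY : T_STAY) : T_UAS := by
  intro O A k
  induction k with
  | zero => exact PROG_.mem hSTAY O A
  | succ k ih =>
    refine ⟨U k A, ih, 2, ?_⟩
    intro x
    show decide (∃ y : List Bool, y.length ≤ (x.length + 2) ^ 2 ∧
      U k A (pair x y) = false) = true ↔ _
    rw [decide_eq_true_iff]

end Pool.Agent.LOA
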