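import Pool.Agent.LOA.Targets

/-!
# Project LOA, target ROBAM: decision trees for robust pairs with a `coAM` machine
-/

set_option autoImplicit false

namespace Pool.Agent.LOA

open Pool.Agent.LOW Classical

namespace ROBAM_

theorem mem_W {m : ℕ} {y : List Bool} : y ∈ W m ↔ y.length ≤ m := by
  simp [W]

theorem in_mono {V : Type} {S S' : Set V} (h : S ⊆ S') (T : DT V) : T.In S → T.In S' := by
  induction T with
  | leaf a => intro _; trivial
  | node v l r ihl ihr => exact fun h1 => ⟨h h1.1, ihl h1.2.1, ihr h1.2.2⟩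

theorem sh_mono {m m' : ℕ} (h : m ≤ m') : Sh m ⊆ Sh m' := fun _ hv => le_trans hv h

theorem pair_len (x y : List Bool) : (pair x y).length = 2 * x.length + 1 + y.length := by
  unfold pair
  rw [List.length_append, List.length_flatMap]
  simp
  ring

theorem countP_toList {α : Type} (s : Finset α) (p : α → Bool) :
    s.toList.countP p = (s.filter fun a => p a = true).card := by
  have h1 : p = fun b => decide (p b = true) := by
    funext b
    simp
  calc s.toList.countP p = s.toList.countP (fun b => decide (p b = true)) := by rw [← h1]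
    _ = Multiset.countP (fun b => p b = true) (s.toList : Multiset α) := by
        rw [Multiset.coe_countP]
    _ = Multiset.countP (fun b => p b = true) s.val := by rw [Finset.coe_toList]
    _ = (s.filter fun a => p a = true).card := by
        rw [Multiset.countP_eq_card_filter]
        rfl

/-- the words of length exactly `k` -/
noncomputable def WE (k : ℕ) : Finset (List Bool) := (W k).filter fun r => r.length = k

theorem card_WE (k : ℕ) : (WE k).card = 2 ^ k := by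
  have h : WE k = (Finset.univ : Finset (Fin k → Bool)).image List.ofFn := by
    ext y
    simp only [WE, Finset.mem_filter, mem_W, Finset.mem_image, Finset.mem_univ, true_and]
    constructor
    · rintro ⟨_, rfl⟩
      exact ⟨fun i => y.get i, List.ofFn_get y⟩
    · rintro ⟨f, rfl⟩
      rw [List.length_ofFn]
      exact ⟨le_refl _, rfl⟩
  rw [h, Finset.card_image_of_injective _ List.ofFn_injective, Finset.card_univ]
  simp

/-- the sizes of the inputs -/
theorem len1 (x y : List Bool) (j : ℕ) (hy : y.length ≤ (x.length + 2) ^ j) :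
    (pair x y).length + 2 ≤ (x.length + 2) ^ (j + 4) := by
  rw [pair_len]
  set N := x.length + 2 with hN
  have hN2 : 2 ≤ N := by omega
  have hN1 : 1 ≤ N := by omega
  have h1 : N ≤ N ^ (j + 1) := by
    calc N = N ^ 1 := (pow_one N).symm
      _ ≤ N ^ (j + 1) := Nat.pow_le_pow_right hN1 (by omega)
  have h2 : N ^ j ≤ N ^ (j + 1) := Nat.pow_le_pow_right hN1 (by omega)
  have e1 : N ^ (j + 4) = N ^ (j + 1) * N ^ 3 := by rw [← pow_add]
  have e2 : 2 ^ 3 ≤ N ^ 3 := Nat.pow_le_pow_left hN2 3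
  rw [e1]
  have e3 : 2 * x.length + 1 + y.length + 2 ≤ 4 * N ^ (j + 1) := by omega
  nlinarith

theorem len2 (x r y : List Bool) (i j : ℕ) (hr : r.length = (x.length + 2) ^ i)
    (hy : y.length ≤ (x.length + 2) ^ j) :
    (pair (pair x r) y).length + 2 ≤ (x.length + 2) ^ (i + j + 4) := by
  rw [pair_len, pair_len, hr]
  set N := x.length + 2 with hN
  have hN2 : 2 ≤ N := by omega
  have hN1 : 1 ≤ N := by omega
  have h1 : N ≤ N ^ (i + j + 1) := by
    calc N = N ^ 1 := (pow_one N).symm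
      _ ≤ N ^ (i + j + 1) := Nat.pow_le_pow_right hN1 (by omega)
  have h2 : N ^ j ≤ N ^ (i + j + 1) := Nat.pow_le_pow_right hN1 (by omega)
  have h3 : N ^ i ≤ N ^ (i + j + 1) := Nat.pow_le_pow_right hN1 (by omega)
  have e1 : N ^ (i + j + 4) = N ^ (i + j + 1) * N ^ 3 := by rw [← pow_add]
  have e2 : 2 ^ 3 ≤ N ^ 3 := Nat.pow_le_pow_left hN2 3
  rw [e1]
  have e3 : 2 * (2 * x.length + 1 + N ^ i) + 1 + y.length + 2 ≤ 8 * N ^ (i + j + 1) := by omega
  nlinarith

theorem pw (N a b c : ℕ) (h : a ≤ N ^ b) : a ^ c ≤ N ^ (b * c) := by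
  calc a ^ c ≤ (N ^ b) ^ c := Nat.pow_le_pow_left h c
    _ = N ^ (b * c) := by rw [← pow_mul]

/-- `4 ((3 d + 1) w)` -/
theorem size1 (N w d E E' : ℕ) (hN : 2 ≤ N) (hw : w = N ^ E) (hd : d = N ^ E') :
    4 * ((3 * d + 1) * w) ≤ N ^ (E + E' + 4) := by
  have hN1 : 1 ≤ N := by omega
  have hd1 : 1 ≤ d := by rw [hd]; exact Nat.one_le_pow _ _ hN1
  have h4 : 2 ^ 4 ≤ N ^ 4 := Nat.pow_le_pow_left hN 4
  calc 4 * ((3 * d + 1) * w) ≤ 4 * ((4 * d) * w) := by
        apply Nat.mul_le_mul_left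
        apply Nat.mul_le_mul_right
        omega
    _ = 2 ^ 4 * (d * w) := by ring
    _ ≤ N ^ 4 * (d * w) := Nat.mul_le_mul_right _ h4
    _ = N ^ (E + E' + 4) := by rw [hw, hd]; ring

theorem size2 (N w d E E' : ℕ) (hN : 2 ≤ N) (hw : w = N ^ E) (hd : d = N ^ E') :
    w * ((w + 1) * (3 * d + 1)) ≤ N ^ (2 * E + E' + 3) := by
  have hN1 : 1 ≤ N := by omega
  have hd1 : 1 ≤ d := by rw [hd]; exact Nat.one_le_pow _ _ hN1
  have hw1 : 1 ≤ w := by rw [hw]; exact Nat.one_le_pow _ _ hN1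
  have h3 : 2 ^ 3 ≤ N ^ 3 := Nat.pow_le_pow_left hN 3
  calc w * ((w + 1) * (3 * d + 1)) ≤ w * ((2 * w) * (4 * d)) := by
        apply Nat.mul_le_mul_left
        apply Nat.mul_le_mul
        · omega
        · omega
    _ = 2 ^ 3 * (w * w * d) := by ring
    _ ≤ N ^ 3 * (w * w * d) := Nat.mul_le_mul_right _ h3
    _ = N ^ (2 * E + E' + 3) := by rw [hw, hd]; ring

theorem eqm_trans {a b : ℕ} {g g' g'' : Lang} (hab : a ≤ b) (h1 : Eqm a g g')
    (h2 : Eqm b g' g'') : Eqm a g g'' := fun v hv => (h1 v hv).trans (h2 v (hv.trans hab))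

end ROBAM_

open ROBAM_

theorem p_ROBAM (hTREE0 : T_TREE0) (hSPLIT : T_SPLIT) (hNUML : T_NUML) (hDTAM : T_DTAM) :
    T_ROBAM := by
  intro cd g m Q j c Q' i j' c' hR
  obtain ⟨E, hE⟩ : ∃ E, E = (j + 4) * (2 * c + 2) := ⟨_, rfl⟩
  obtain ⟨E', hE'⟩ : ∃ E', E' = (i + j' + 4) * (2 * c' + 2) := ⟨_, rfl⟩
  obtain ⟨e, he⟩ : ∃ e, e = E + E' + 4 := ⟨_, rfl⟩
  refine ⟨(m + 4 * e + 5) + (2 * E + E' + 3) + 1, ?_⟩
  intro K hK x
  obtain ⟨N, hN⟩ : ∃ N, N = x.length + 2 := ⟨_, rfl⟩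
  have hN2 : 2 ≤ N := by omega
  have hN1 : 1 ≤ N := by omega
  have hf : ∀ u : List Bool, ∃ T : DT (List Bool), T.depth ≤ (u.length + 2) ^ (2 * c + 2) ∧
    T.In (Sh ((u.length + 2) ^ (2 * c + 2))) ∧
    ∀ g : Lang, (T.eval g = true ↔ acc (orcC cd g) emp Q c u) := hTREE0 cd Q c
  have hf' : ∀ u : List Bool, ∃ T : DT (List Bool), T.depth ≤ (u.length + 2) ^ (2 * c' + 2) ∧
    T.In (Sh ((u.length + 2) ^ (2 * c' + 2))) ∧
    ∀ g : Lang, (T.eval g = true ↔ acc (orcC cd g) emp Q' c' u) := hTREE0 cd Q' c'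
  choose f hf1 hf2 hf3 using hf
  choose f' hf1' hf2' hf3' using hf'
  set L : List (DT (List Bool)) :=
    (W ((x.length + 2) ^ j)).toList.map fun y => f (pair x y) with hL
  set M : List Bool → List (DT (List Bool)) := fun r =>
    (W ((x.length + 2) ^ j')).toList.map fun y => f' (pair (pair x r) y) with hM
  set Rs : List (List (DT (List Bool))) :=
    (WE ((x.length + 2) ^ i)).toList.map M with hRs
  have hLd : ∀ T ∈ L, T.depth ≤ N ^ E ∧ T.In (Sh (N ^ E)) := by
    intro T hT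
    obtain ⟨y, hy, rfl⟩ := List.mem_map.mp hT
    have hy' := mem_W.mp (Finset.mem_toList.mp hy)
    have h1 := pw _ _ _ (2 * c + 2) (len1 x y j hy')
    rw [← hE, ← hN] at h1
    exact ⟨(hf1 _).trans h1, in_mono (sh_mono h1) _ (hf2 _)⟩
  have hRd : ∀ M' ∈ Rs, ∀ T ∈ M', T.depth ≤ N ^ E' := by
    intro M' hM' T hT
    obtain ⟨r, hr, rfl⟩ := List.mem_map.mp hM'
    obtain ⟨y, hy, rfl⟩ := List.mem_map.mp hT
    have hy' := mem_W.mp (Finset.mem_toList.mp hy)
    have hr' : r.length = (x.length + 2) ^ i := (Finset.mem_filter.mp (Finset.mem_toList.mp hr)).2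
    have h1 := pw _ _ _ (2 * c' + 2) (len2 x r y i j' hr' hy')
    rw [← hE', ← hN] at h1
    exact (hf1' _).trans h1
  have hRl : Rs.length = 2 ^ ((x.length + 2) ^ i) := by
    rw [hRs, List.length_map, Finset.length_toList, card_WE]
  have hRne : Rs ≠ [] := by
    intro h
    rw [h, List.length_nil] at hRl
    have : 0 < 2 ^ ((x.length + 2) ^ i) := by positivity
    omega
  have hSL : ∀ z : Lang, Sat L z ↔ npf Q j c (orcC cd z) x = true := by
    intro z
    unfold npf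
    rw [decide_eq_true_iff]
    constructor
    · rintro ⟨T, hT, h1⟩
      obtain ⟨y, hy, rfl⟩ := List.mem_map.mp hT
      exact ⟨y, mem_W.mp (Finset.mem_toList.mp hy), (hf3 _ z).mp h1⟩
    · rintro ⟨y, hy, h1⟩
      exact ⟨f (pair x y), List.mem_map_of_mem (Finset.mem_toList.mpr (mem_W.mpr hy)),
        (hf3 _ z).mpr h1⟩
  have hSM : ∀ (z : Lang) (r : List Bool), Sat (M r) z ↔ ∃ y : List Bool,
      y.length ≤ (x.length + 2) ^ j' ∧ acc (orcC cd z) emp Q' c' (pair (pair x r) y) := by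
    intro z r
    constructor
    · rintro ⟨T, hT, h1⟩
      obtain ⟨y, hy, rfl⟩ := List.mem_map.mp hT
      exact ⟨y, mem_W.mp (Finset.mem_toList.mp hy), (hf3' _ z).mp h1⟩
    · rintro ⟨y, hy, h1⟩
      exact ⟨f' (pair (pair x r) y),
        List.mem_map_of_mem (Finset.mem_toList.mpr (mem_W.mpr hy)), (hf3' _ z).mpr h1⟩
  have hcam : ∀ z : Lang, Rs.countP (fun M => decide (Sat M z)) =
      cam (orcC cd z) Q' i j' c' x := by
    intro z
    rw [hRs, List.countP_map, countP_toList, cam]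
    apply congrArg Finset.card
    ext r
    simp only [WE, Finset.mem_filter, Function.comp_apply, decide_eq_true_iff, hSM, and_assoc]
  obtain ⟨l, hl1, hl2, hl3, hl4⟩ := hNUML e m N hN2
  have hMK : N ^ (m + 4 * e + 5) ≤ N ^ K := Nat.pow_le_pow_right hN1 (by omega)
  have hEK : N ^ E ≤ N ^ K := Nat.pow_le_pow_right hN1 (by omega)
  obtain ⟨T, hT1, hT2, hT3⟩ := hSPLIT {g' | g' ∈ Con ∧ Eqm m g g'}
    (fun z => npf Q j c (orcC cd z) x) l (N ^ E * ((N ^ E + 1) * (3 * N ^ E' + 1))) (N ^ K)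
    (hl4.trans hMK) (by
      rintro g₀ ⟨hg1, hg2⟩
      obtain ⟨T, h1, h2, h3⟩ := hDTAM l g₀ L (N ^ E) (N ^ E') (Sh (N ^ E)) Rs hLd hRd hRne
        (by
          rintro z ⟨hz1, hz2⟩
          have hok := hR z hz1 (eqm_trans hl1 hg2 hz2) x
          obtain ⟨h1, h2⟩ := hok
          rw [hcam z, hRl, hSL z]
          refine ⟨fun h => h1 (by simpa using h), fun h => h2 h⟩)
        (lt_of_le_of_lt (by rw [he]; exact size1 N _ _ E E' hN2 rfl rfl) hl2)
      refine ⟨T, h1, in_mono (sh_mono hEK) _ h2, ?_⟩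
      rintro z ⟨hz1, _⟩ hz2
      exact Bool.eq_iff_iff.mpr ((h3 z ⟨hz1, hz2⟩).trans (hSL z)))
  refine ⟨T, ?_, ?_, ?_⟩
  · rw [← hN]
    have h1 := size2 N (N ^ E) (N ^ E') E E' hN2 rfl rfl
    have hA : N ^ (m + 4 * e + 5) ≤ N ^ ((m + 4 * e + 5) + (2 * E + E' + 3)) :=
      Nat.pow_le_pow_right hN1 (by omega)
    have hB : N ^ (2 * E + E' + 3) ≤ N ^ ((m + 4 * e + 5) + (2 * E + E' + 3)) :=
      Nat.pow_le_pow_right hN1 (by omega)
    calc T.depth ≤ 2 ^ (l + 1) + N ^ E * ((N ^ E + 1) * (3 * N ^ E' + 1)) := hT1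
      _ ≤ N ^ ((m + 4 * e + 5) + (2 * E + E' + 3)) * 2 := by omega
      _ ≤ N ^ ((m + 4 * e + 5) + (2 * E + E' + 3)) * N := Nat.mul_le_mul_left _ hN2
      _ = N ^ ((m + 4 * e + 5) + (2 * E + E' + 3) + 1) := (pow_succ _ _).symm
      _ ≤ N ^ K := Nat.pow_le_pow_right hN1 hK
  · rw [← hN]
    exact hT2
  · intro g' hg1 hg2
    exact hT3 g' ⟨hg1, hg2⟩

end Pool.Agent.LOA
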