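import Pool.Agent.LOA.ROBFEW

/-!
# Project LOA, target ROBAW
-/

set_option autoImplicit false

namespace Pool.Agent.LOA

open Pool.Agent.LOW Classical

open ROBFEW_

theorem p_ROBAW (hTREE0 : T_TREE0) (hSPLIT : T_SPLIT) (hNUML : T_NUML) (hDTAW : T_DTAW) :
    T_ROBAW := by
  intro cd g m Q j c Q₁ Q₂ j' c₁ c₂ e i hR
  obtain ⟨a, ha⟩ : ∃ a, a = (j + 3) * (2 * c + 2) := ⟨_, rfl⟩
  obtain ⟨b, hb⟩ : ∃ b, b = (j' + 3) * (2 * (c₁ + c₂) + 2) := ⟨_, rfl⟩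
  refine ⟨m + 4 * (a + 2 * b + 9) + 5 + (2 * a + 2 * b + 6) + 1, fun K hK x => ?_⟩
  obtain ⟨N, hN⟩ : ∃ N, N = x.length + 2 := ⟨_, rfl⟩
  have hN2 : 2 ≤ N := by omega
  obtain ⟨L, hL1, hL2, -⟩ := trees hTREE0 cd Q N j c (j + 3) a hN2 x
    (fun y hy => by rw [hN] at hy ⊢; exact len1 x y j hy) ha.ge
  obtain ⟨M₁, hM1, -, hM1'⟩ := trees hTREE0 cd Q₁ N j' c₁ (j' + 3) b hN2 x
    (fun y hy => by rw [hN] at hy ⊢; exact len1 x y j' hy)
    (by rw [hb]; exact Nat.mul_le_mul_left _ (by omega))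
  obtain ⟨M₂, hM2, -, hM2'⟩ := trees hTREE0 cd Q₂ N j' c₂ (j' + 3) b hN2 x
    (fun y hy => by rw [hN] at hy ⊢; exact len1 x y j' hy)
    (by rw [hb]; exact Nat.mul_le_mul_left _ (by omega))
  rw [← hN]
  apply frame hSPLIT hNUML cd g m Q j c x N (a + 2 * b + 9) (2 * a + 2 * b + 6) K hN2 hK
  intro l hl g₀ hg₀
  have hSat : ∀ z : Lang, Sat L z ↔ npf Q j c (orcC cd z) x = true := by
    intro z
    rw [hL2 z]
    unfold npf
    rw [decide_eq_true_iff, ← hN]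
  have hNa : 1 ≤ N ^ a := Nat.one_le_pow _ _ (by omega)
  have hNb : 1 ≤ N ^ b := Nat.one_le_pow _ _ (by omega)
  have h16 : 16 ≤ N ^ 4 := by
    calc 16 = 2 ^ 4 := by norm_num
      _ ≤ N ^ 4 := Nat.pow_le_pow_left hN2 4
  have hd : 16 * (N ^ b) ^ 2 ≤ N ^ (2 * b + 4) := by
    calc 16 * (N ^ b) ^ 2 ≤ N ^ 4 * (N ^ b) ^ 2 := Nat.mul_le_mul_right _ h16
      _ = N ^ (2 * b + 4) := by ring
  have hd1 : 16 * (N ^ b) ^ 2 + 1 ≤ N ^ (2 * b + 5) := by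
    have h1 : 1 ≤ N ^ (2 * b + 4) := Nat.one_le_pow _ _ (by omega)
    have h2 : N ^ (2 * b + 5) = N ^ (2 * b + 4) * N := by ring
    rw [h2]
    nlinarith
  have h5 : N ^ a + 1 ≤ N ^ a * N := by nlinarith
  obtain ⟨T, h1, h2, h3⟩ := hDTAW l g₀ L M₁ M₂ (N ^ a) (N ^ b)
    (2 ^ (e * (x.length + 2) ^ i)) (Sh (N ^ a)) hL1
    (fun T hT => (hM1 T hT).1) (fun T hT => (hM2 T hT).1) (by positivity) (by
      intro z hz
      have h6 : (npf Q j c (orcC cd z) x = true →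
          2 * 2 ^ (e * (x.length + 2) ^ i) + 3 * cnt (orcC cd z) Q₂ j' c₂ x ≤
            3 * cnt (orcC cd z) Q₁ j' c₁ x ∧
          cnt (orcC cd z) Q₁ j' c₁ x ≤
            2 ^ (e * (x.length + 2) ^ i) + cnt (orcC cd z) Q₂ j' c₂ x) ∧
        (npf Q j c (orcC cd z) x = false →
          cnt (orcC cd z) Q₂ j' c₂ x ≤ cnt (orcC cd z) Q₁ j' c₁ x ∧
          3 * cnt (orcC cd z) Q₁ j' c₁ x ≤
            2 ^ (e * (x.length + 2) ^ i) + 3 * cnt (orcC cd z) Q₂ j' c₂ x) :=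
        hR z hz.1 (hg₀ z hz) x
      have e1 : cnt (orcC cd z) Q₁ j' c₁ x = M₁.countP (fun T => T.eval z) := by
        unfold cnt
        rw [hM1' z, hN]
      have e2 : cnt (orcC cd z) Q₂ j' c₂ x = M₂.countP (fun T => T.eval z) := by
        unfold cnt
        rw [hM2' z, hN]
      rw [e1, e2] at h6
      constructor
      · intro h
        exact h6.1 ((hSat z).mp h)
      · intro h
        refine h6.2 ?_
        by_contra h'
        exact h ((hSat z).mpr (by simpa using h'))) (by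
      refine lt_of_le_of_lt ?_ hl
      have e1 : 4 * ((16 * (N ^ b) ^ 2 + 1) * N ^ a) ≤ N ^ (a + 2 * b + 7) := by
        calc 4 * ((16 * (N ^ b) ^ 2 + 1) * N ^ a) ≤ (N * N) * (N ^ (2 * b + 5) * N ^ a) :=
              Nat.mul_le_mul (by nlinarith) (Nat.mul_le_mul_right _ hd1)
          _ = N ^ (a + 2 * b + 7) := by ring
      have e2 : 16 * (N ^ b) ^ 2 + 1 ≤ N ^ (a + 2 * b + 7) :=
        hd1.trans (Nat.pow_le_pow_right (by omega) (by omega))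
      have e5 : N ^ (a + 2 * b + 9) = N ^ (a + 2 * b + 7) * (N * N) := by ring
      have e6 : 4 ≤ N * N := by nlinarith
      rw [e5]
      nlinarith)
  refine ⟨T, h1.trans ?_, in_mono (sh_mono (Nat.pow_le_pow_right (by omega) (by omega))) T h2, ?_⟩
  · calc N ^ a * ((N ^ a + 1) * (16 * (N ^ b) ^ 2 + 1)) ≤ N ^ a * ((N ^ a * N) * N ^ (2 * b + 5)) :=
          Nat.mul_le_mul_left _ (Nat.mul_le_mul h5 hd1)
      _ = N ^ (2 * a + 2 * b + 6) := by ring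
  · intro z hz
    rw [h3 z hz, hSat z]

end Pool.Agent.LOA
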