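import Pool.Agent.LOA.Targets

/-!
# Project LOA, targets NUML and ROBFEW; common lemmas for the robust tests
-/

set_option autoImplicit false

namespace Pool.Agent.LOA

open Pool.Agent.LOW Classical

namespace ROBFEW_

theorem mem_W {m : ℕ} {y : List Bool} : y ∈ W m ↔ y.length ≤ m := by
  simp [W]

theorem in_mono {V : Type} {S S' : Set V} (h : S ⊆ S') (T : DT V) : T.In S → T.In S' := by
  induction T with
  | leaf a => intro _; trivial
  | node v l r ihl ihr => exact fun h1 => ⟨h h1.1, ihl h1.2.1, ihr h1.2.2⟩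

theorem sh_mono {m m' : ℕ} (h : m ≤ m') : Sh m ⊆ Sh m' := fun _ hv => le_trans hv h

theorem pair_len (x y : List Bool) : (pair x y).length = 2 * x.length + 1 + y.length := by
  unfold pair
  rw [List.length_append, List.length_flatMap]
  simp
  ring

theorem countP_toList {α : Type} (s : Finset α) (p : α → Bool) :
    s.toList.countP p = (s.filter fun a => p a = true).card := by
  have h1 : p = fun b => decide (p b = true) := by
    funext b
    simp
  calc s.toList.countP p = s.toList.countP (fun b => decide (p b = true)) := by rw [← h1]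
    _ = Multiset.countP (fun b => p b = true) (s.toList : Multiset α) := by
        rw [Multiset.coe_countP]
    _ = Multiset.countP (fun b => p b = true) s.val := by rw [Finset.coe_toList]
    _ = (s.filter fun a => p a = true).card := by
        rw [Multiset.countP_eq_card_filter]
        rfl

/-- The trees for the words `pair u y`, `|y| ≤ N ^ j`, where `pair u y` has length at most `N ^ b`
(up to two). -/
theorem trees (hTREE0 : T_TREE0) (cd : ℕ → Code) (Q : List Instr) (N j c b a : ℕ) (hN : 2 ≤ N)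
    (u : List Bool) (hu : ∀ y : List Bool, y.length ≤ N ^ j → (pair u y).length + 2 ≤ N ^ b)
    (ha : b * (2 * c + 2) ≤ a) :
    ∃ L : List (DT (List Bool)), (∀ T ∈ L, T.depth ≤ N ^ a ∧ T.In (Sh (N ^ a))) ∧
      (∀ z : Lang, Sat L z ↔
        ∃ y : List Bool, y.length ≤ N ^ j ∧ acc (orcC cd z) emp Q c (pair u y)) ∧
      (∀ z : Lang, L.countP (fun T => T.eval z) =
        ((W (N ^ j)).filter fun y => acc (orcC cd z) emp Q c (pair u y)).card) := by
  have hN1 : 1 ≤ N := by omega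
  have key : ∀ y : List Bool, ∃ T : DT (List Bool), y.length ≤ N ^ j →
      T.depth ≤ N ^ a ∧ T.In (Sh (N ^ a)) ∧
      ∀ g : Lang, T.eval g = true ↔ acc (orcC cd g) emp Q c (pair u y) := by
    intro y
    by_cases hy : y.length ≤ N ^ j
    · obtain ⟨T, h1, h2, h3⟩ := hTREE0 cd Q c (pair u y)
      have h4 : ((pair u y).length + 2) ^ (2 * c + 2) ≤ N ^ a := by
        calc ((pair u y).length + 2) ^ (2 * c + 2) ≤ (N ^ b) ^ (2 * c + 2) :=
              Nat.pow_le_pow_left (hu y hy) _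
          _ = N ^ (b * (2 * c + 2)) := by rw [← pow_mul]
          _ ≤ N ^ a := Nat.pow_le_pow_right hN1 ha
      exact ⟨T, fun _ => ⟨h1.trans h4, in_mono (sh_mono h4) T h2, h3⟩⟩
    · exact ⟨DT.leaf false, fun h => absurd h hy⟩
  choose f hf using key
  refine ⟨(W (N ^ j)).toList.map f, ?_, ?_, ?_⟩
  · intro T hT
    obtain ⟨y, hy, rfl⟩ := List.mem_map.mp hT
    have hy' := mem_W.mp (Finset.mem_toList.mp hy)
    exact ⟨(hf y hy').1, (hf y hy').2.1⟩
  · intro z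
    constructor
    · rintro ⟨T, hT, h1⟩
      obtain ⟨y, hy, rfl⟩ := List.mem_map.mp hT
      have hy' := mem_W.mp (Finset.mem_toList.mp hy)
      exact ⟨y, hy', ((hf y hy').2.2 z).mp h1⟩
    · rintro ⟨y, hy, h1⟩
      exact ⟨f y, List.mem_map_of_mem (Finset.mem_toList.mpr (mem_W.mpr hy)),
        ((hf y hy).2.2 z).mpr h1⟩
  · intro z
    rw [List.countP_map, countP_toList]
    congr 1
    ext y
    simp only [Finset.mem_filter, mem_W, Function.comp_apply]
    constructor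
    · rintro ⟨h1, h2⟩
      exact ⟨h1, ((hf y h1).2.2 z).mp h2⟩
    · rintro ⟨h1, h2⟩
      exact ⟨h1, ((hf y h1).2.2 z).mpr h2⟩

/-- The length of `pair x y`. -/
theorem len1 (x y : List Bool) (j : ℕ) (hy : y.length ≤ (x.length + 2) ^ j) :
    (pair x y).length + 2 ≤ (x.length + 2) ^ (j + 3) := by
  rw [pair_len]
  obtain ⟨N, hN⟩ : ∃ N, N = x.length + 2 := ⟨_, rfl⟩
  rw [← hN] at hy ⊢
  have hN2 : 2 ≤ N := by omega
  have h1 : N ^ (j + 3) = N ^ j * N * N * N := by ring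
  have h2 : 1 ≤ N ^ j := Nat.one_le_pow _ _ (by omega)
  have h3 : 2 * x.length + 1 + y.length + 2 ≤ 2 * N + N ^ j := by omega
  have h4 : N ^ j + N ≤ N ^ j * N + N := by nlinarith
  have h5 : 2 * N ≤ N ^ j * N * N := by nlinarith
  have h6 : N ^ j ≤ N ^ j * N * N := by nlinarith
  have h7 : N ^ j * N * N + N ^ j * N * N ≤ N ^ j * N * N * N := by nlinarith
  omega

/-- The frame of the three proofs. -/
theorem frame (hSPLIT : T_SPLIT) (hNUML : T_NUML) (cd : ℕ → Code) (g : Lang) (m : ℕ)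
    (Q : List Instr) (j c : ℕ) (x : List Bool) (N e D K : ℕ) (hN : 2 ≤ N)
    (hK : m + 4 * e + 5 + D + 1 ≤ K)
    (h : ∀ l : ℕ, N ^ e < 2 ^ (l / 2) → ∀ g₀ : Lang, (∀ z ∈ Slc l g₀, Eqm m g z) →
      ∃ T : DT (List Bool), T.depth ≤ N ^ D ∧ T.In (Sh (N ^ D)) ∧
        ∀ z ∈ Slc l g₀, (T.eval z = true ↔ npf Q j c (orcC cd z) x = true)) :
    ∃ T : DT (List Bool), T.depth ≤ N ^ K ∧ T.In (Sh (N ^ K)) ∧
      ∀ g' ∈ Con, Eqm m g g' → T.eval g' = npf Q j c (orcC cd g') x := by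
  have hN1 : 1 ≤ N := by omega
  obtain ⟨l, hl1, hl2, hl3, hl4⟩ := hNUML e m N hN
  have hlK : l ≤ N ^ K := hl4.trans (Nat.pow_le_pow_right hN1 (by omega))
  obtain ⟨T, h1, h2, h3⟩ := hSPLIT {g' | g' ∈ Con ∧ Eqm m g g'}
    (fun z => npf Q j c (orcC cd z) x) l (N ^ D) (N ^ K) hlK (by
      rintro g₀ ⟨hg₀, hg₀'⟩
      obtain ⟨T, h1, h2, h3⟩ := h l hl2 g₀ (by
        rintro z ⟨_, hz⟩ v hv
        rw [hg₀' v hv, hz v (hv.trans hl1)])
      refine ⟨T, h1, in_mono (sh_mono (Nat.pow_le_pow_right hN1 (by omega))) T h2, ?_⟩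
      rintro z ⟨hz, _⟩ hz'
      exact Bool.eq_iff_iff.mpr (h3 z ⟨hz, hz'⟩))
  refine ⟨T, h1.trans ?_, h2, fun g' hg' hg'' => h3 g' ⟨hg', hg''⟩⟩
  have e1 : 2 ^ (l + 1) ≤ N ^ (m + 4 * e + 5 + D) :=
    hl3.trans (Nat.pow_le_pow_right hN1 (by omega))
  have e2 : N ^ D ≤ N ^ (m + 4 * e + 5 + D) := Nat.pow_le_pow_right hN1 (by omega)
  have e3 : N ^ (m + 4 * e + 5 + D + 1) ≤ N ^ K := Nat.pow_le_pow_right hN1 hK
  have e4 : N ^ (m + 4 * e + 5 + D + 1) = N ^ (m + 4 * e + 5 + D) * N := pow_succ _ _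
  nlinarith

end ROBFEW_

open ROBFEW_

theorem p_NUML : T_NUML := by
  intro e m N hN
  have hN1 : 1 ≤ N := by omega
  have hs : N < 2 ^ Nat.size N := Nat.lt_size_self N
  have hs1 : 1 ≤ Nat.size N := Nat.size_pos.2 (by omega)
  have hs2 : 2 ^ (Nat.size N - 1) ≤ N := Nat.lt_size.1 (by omega)
  have hs3 : 2 ^ Nat.size N ≤ N ^ 2 := by
    have : 2 ^ Nat.size N = 2 * 2 ^ (Nat.size N - 1) := by
      rw [← pow_succ']
      congr 1
      omega
    rw [this]
    nlinarith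
  set l := m + 2 * ((e + 1) * Nat.size N) with hl
  have h3 : 2 ^ (l + 1) ≤ N ^ (m + 4 * e + 5) := by
    have e1 : 2 ^ (l + 1) = 2 ^ (m + 1) * (2 ^ Nat.size N) ^ (2 * (e + 1)) := by
      rw [← pow_mul, ← pow_add, hl]
      congr 1
      ring
    have e2 : N ^ (m + 4 * e + 5) = N ^ (m + 1) * (N ^ 2) ^ (2 * (e + 1)) := by
      rw [← pow_mul, ← pow_add]
      congr 1
      ring
    rw [e1, e2]
    exact Nat.mul_le_mul (Nat.pow_le_pow_left hN _) (Nat.pow_le_pow_left hs3 _)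
  refine ⟨l, by omega, ?_, h3, ?_⟩
  · have e1 : (e + 1) * Nat.size N ≤ l / 2 := by omega
    calc N ^ e < N ^ (e + 1) := Nat.pow_lt_pow_right (by omega) (by omega)
      _ ≤ (2 ^ Nat.size N) ^ (e + 1) := Nat.pow_le_pow_left hs.le _
      _ = 2 ^ ((e + 1) * Nat.size N) := by rw [← pow_mul, mul_comm]
      _ ≤ 2 ^ (l / 2) := Nat.pow_le_pow_right (by omega) e1
  · have e1 : l < 2 ^ l := Nat.lt_two_pow_self
    have e2 : 2 ^ l ≤ 2 ^ (l + 1) := Nat.pow_le_pow_right (by omega) (by omega)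
    omega

theorem p_ROBFEW (hTREE0 : T_TREE0) (hSPLIT : T_SPLIT) (hNUML : T_NUML) (hDTFEW : T_DTFEW) :
    T_ROBFEW := by
  intro cd g m Q j c q hR
  obtain ⟨a, ha⟩ : ∃ a, a = (j + 3) * (2 * c + 2) := ⟨_, rfl⟩
  refine ⟨m + 4 * (a + q + 3) + 5 + (2 * a + q + 2) + 1, fun K hK x => ?_⟩
  obtain ⟨N, hN⟩ : ∃ N, N = x.length + 2 := ⟨_, rfl⟩
  have hN2 : 2 ≤ N := by omega
  obtain ⟨L, hL1, hL2, hL3⟩ := trees hTREE0 cd Q N j c (j + 3) a hN2 x
    (fun y hy => by rw [hN] at hy ⊢; exact len1 x y j hy) ha.ge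
  rw [← hN]
  apply frame hSPLIT hNUML cd g m Q j c x N (a + q + 3) (2 * a + q + 2) K hN2 hK
  intro l hl g₀ hg₀
  have hNa : 1 ≤ N ^ a := Nat.one_le_pow _ _ (by omega)
  have hNq : 1 ≤ N ^ q := Nat.one_le_pow _ _ (by omega)
  have h4 : N ^ q + 1 ≤ N ^ q * N := by nlinarith
  have h5 : N ^ a + 1 ≤ N ^ a * N := by nlinarith
  obtain ⟨T, h1, h2, h3⟩ := hDTFEW l g₀ L (N ^ a) (N ^ q) (Sh (N ^ a)) hL1 (by
      intro z hz
      have h6 := hR z hz.1 (hg₀ z hz) x
      rw [hL3 z]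
      have h7 : cnt (orcC cd z) Q j c x ≤ (x.length + 2) ^ q := h6
      unfold cnt at h7
      rw [hN]
      exact h7) (by
      refine lt_of_le_of_lt ?_ hl
      calc 3 * ((N ^ q + 1) * N ^ a) ≤ (N * N) * ((N ^ q * N) * N ^ a) :=
            Nat.mul_le_mul (by nlinarith) (Nat.mul_le_mul_right _ h4)
        _ = N ^ (a + q + 3) := by ring)
  refine ⟨T, h1.trans ?_, in_mono (sh_mono (Nat.pow_le_pow_right (by omega) (by omega))) T h2, ?_⟩
  · calc N ^ a * ((N ^ a + 1) * (N ^ q + 1)) ≤ N ^ a * ((N ^ a * N) * (N ^ q * N)) :=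
          Nat.mul_le_mul_left _ (Nat.mul_le_mul h5 h4)
      _ = N ^ (2 * a + q + 2) := by ring
  · intro z hz
    rw [h3 z hz, hL2 z]
    unfold npf
    rw [decide_eq_true_iff, ← hN]

end Pool.Agent.LOA
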