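import Pool.Agent.LOA.Targets
import Pool.Agent.LOW.BR

set_option autoImplicit false

namespace Pool.Agent.LOA

open Pool.Agent.LOW Classical

namespace SPLIT_

theorem gen (f : Lang → Bool) (D W' : ℕ) (s : Finset (List Bool)) :
    ∀ (G : Set Lang), (∀ v ∈ s, v ∈ Sh W') →
    (∀ g₀ ∈ G, ∃ T : DT (List Bool), T.depth ≤ D ∧ T.In (Sh W') ∧
      ∀ z ∈ G, (∀ v ∈ s, g₀ v = z v) → T.eval z = f z) →
    ∃ T : DT (List Bool), T.depth ≤ s.card + D ∧ T.In (Sh W') ∧ ∀ z ∈ G, T.eval z = f z := by
  induction s using Finset.induction_on with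
  | empty =>
    intro G _ h
    rcases G.eq_empty_or_nonempty with hG | ⟨g₀, hg₀⟩
    · refine ⟨DT.leaf false, Nat.zero_le _, trivial, ?_⟩
      intro z hz
      rw [hG] at hz
      exact absurd hz (Set.notMem_empty z)
    · obtain ⟨T, hd, hi, he⟩ := h g₀ hg₀
      refine ⟨T, by omega, hi, ?_⟩
      intro z hz
      exact he z hz (fun v hv => absurd hv (Finset.notMem_empty v))
  | insert w s hw ih =>
    intro G hs h
    have key : ∀ b : Bool, ∃ T : DT (List Bool), T.depth ≤ s.card + D ∧ T.In (Sh W') ∧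
        ∀ z : Lang, z ∈ G ∧ z w = b → T.eval z = f z := by
      intro b
      obtain ⟨T, hd, hi, he⟩ := ih ({z : Lang | z ∈ G ∧ z w = b})
        (fun v hv => hs v (Finset.mem_insert_of_mem hv)) (by
          intro g₀ hg₀
          obtain ⟨hg₁, hg₂⟩ := hg₀
          obtain ⟨T, hd, hi, he⟩ := h g₀ hg₁
          refine ⟨T, hd, hi, ?_⟩
          intro z hz hag
          obtain ⟨hz₁, hz₂⟩ := hz
          refine he z hz₁ ?_
          intro v hv
          rcases Finset.mem_insert.1 hv with rfl | hv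
          · rw [hg₂, hz₂]
          · exact hag v hv)
      exact ⟨T, hd, hi, fun z hz => he z hz⟩
    obtain ⟨T₀, hd₀, hi₀, he₀⟩ := key false
    obtain ⟨T₁, hd₁, hi₁, he₁⟩ := key true
    refine ⟨DT.node w T₀ T₁, ?_, ⟨hs w (Finset.mem_insert_self w s), hi₀, hi₁⟩, ?_⟩
    · rw [Finset.card_insert_of_notMem hw]
      change max T₀.depth T₁.depth + 1 ≤ s.card + 1 + D
      have := max_le hd₀ hd₁
      omega
    · intro z hz
      change (if z w then T₁.eval z else T₀.eval z) = f z
      cases hzw : z w with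
      | false =>
        simp only [Bool.false_eq_true, if_false]
        exact he₀ z ⟨hz, hzw⟩
      | true =>
        simp only [if_true]
        exact he₁ z ⟨hz, hzw⟩

end SPLIT_

theorem p_SPLIT : T_SPLIT := by
  intro G f l D W' hl h
  obtain ⟨T, hd, hi, he⟩ := SPLIT_.gen f D W' (W l) G
    (fun v hv => by
      have hv' : v.length ≤ l := BR_.mem_W.1 hv
      exact (le_trans hv' hl : v.length ≤ W'))
    (by
      intro g₀ hg₀
      obtain ⟨T, hd, hi, he⟩ := h g₀ hg₀
      refine ⟨T, hd, hi, ?_⟩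
      intro z hz hag
      exact he z hz (fun v hv => hag v (BR_.mem_W.2 hv)))
  exact ⟨T, hd.trans (Nat.add_le_add_right (BR_.card_W l) D), hi, he⟩

end Pool.Agent.LOA
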