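import Pool.Agent.LOA.Targets
import Pool.Agent.LOW.STEP
import Pool.Agent.LOW.DENS2

/-!
# Project LOA: one step of the induction, with the number of zeros of the lift
-/

set_option autoImplicit false

namespace Pool.Agent.LOA

open Pool.Agent.LOW Classical

open Pool.Agent.LOW.STEP_ in
/-- One step of the induction. -/
theorem p_STEPC (hSTEPG : T_STEPG) (hSUB : T_SUB) (hPATHS : T_PATHS) : T_STEPC := by
  intro n k s a h Ls hs hn hR1 hR0 hna hLs hcard
  set D : Finset (List Bool) := R n (k + 2) with hD0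
  have hFr : Fr n (k + 1) D := DENS2_.fr_top n (k + 1)
  have hh : ∀ v ∈ R n (k + 2), v ∉ D → h v = true := fun v hv hv' => absurd hv hv'
  -- the substituted trees and their paths
  choose sb hsb1 hsb2 using hSUB (List Bool) (Bl n k × List Bool) (f1 n k D h)
  choose pt hpt1 hpt2 using hPATHS (Bl n k × List Bool)
  obtain ⟨ρ, hρ1, hρ2, hρ3, hρ4⟩ := hSTEPG n k s a D
    (Ls.map fun L => L.flatMap fun T => pt (sb T)) hs hn hFr hR1 hR0 hna
    (by
      intro F hF τ hτ
      obtain ⟨L, hL, rfl⟩ := List.mem_map.1 hF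
      obtain ⟨T, hT, hτ'⟩ := List.mem_flatMap.1 hτ
      exact (hpt1 _ _ hτ').trans ((hsb1 T).trans (hLs L hL T hT)))
    (by rw [List.length_map]; exact hcard)
  have hex : ∀ u : Bl n k, ∃ jc : List Bool × Bool, ρ u = some jc := fun u =>
    Option.ne_none_iff_exists'.1 (hρ1 u)
  choose jc hjc using hex
  have hjCh : ∀ u : Bl n k, (jc u).1 ∈ Ch D u.1 := fun u =>
    hρ2 u (jc u).1 (jc u).2 (hjc u)
  have hCon : ∀ z' : Lang, Adm (Dp n k ρ) (fun _ => true) z' →
      ρ.Con (z1 (fun u => (jc u).1) z') := by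
    intro z' hz' v b hv
    obtain ⟨u, y⟩ := v
    rw [z1_eq]
    unfold Res.val at hv
    simp only [hjc u] at hv
    by_cases hy : y = (jc u).1
    · rw [if_pos hy] at hv
      rw [if_pos hy]
      by_cases hc : (jc u).2 = true
      · rw [if_pos hc] at hv
        have hb : b = false := (Option.some.inj hv).symm
        rw [hb]
        have hu : u.1 ∉ Dp n k ρ := by
          unfold Dp
          rw [Finset.mem_filter]
          rintro ⟨-, hu, j, hj⟩
          have h1 : ρ u = some (j, false) := hj
          rw [hjc u] at h1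
          have h2 : jc u = (j, false) := Option.some.inj h1
          rw [h2] at hc
          exact absurd hc (by simp)
        have h3 : z' u.1 = true := hz' u.1 hu
        simp [h3]
      · rw [if_neg hc] at hv
        exact absurd hv (by simp)
    · rw [if_neg hy] at hv
      rw [if_neg hy]
      exact Option.some.inj hv
  refine ⟨Dp n k ρ, lft n k D h (fun u => (jc u).1), hρ4, ?_, ?_, ?_, ?_⟩
  · intro z' _ v hv
    exact lft_neg _ z' v hv
  · intro z' _ u hu
    unfold nz
    refine (Finset.card_le_card (t := {(jc ⟨u, hu⟩).1}) fun y hy => ?_).trans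
      (by rw [Finset.card_singleton])
    obtain ⟨hy1, hy2⟩ := Finset.mem_filter.1 hy
    have hy3 : y ∈ Ch D u := mem_Ch.2 ⟨mem_W.1 hy1, mem_R_succ hu (mem_W.1 hy1)⟩
    rw [lft_pos (h := h) (fun u => (jc u).1) z' ⟨u, hu⟩ y hy3] at hy2
    rw [Finset.mem_singleton]
    by_contra hne
    rw [if_neg hne] at hy2
    exact absurd hy2 (by simp)
  · intro z' _ u hu
    show decide (∃ y : List Bool, y.length ≤ (u.length + 2) ^ 2 ∧
      lft n k D h (fun u => (jc u).1) z' (pair u y) = false) = z' u
    by_cases hz : z' u = true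
    · rw [hz]
      apply decide_eq_true
      refine ⟨(jc ⟨u, hu⟩).1, (mem_Ch.1 (hjCh ⟨u, hu⟩)).1, ?_⟩
      have h1 := lft_pos (h := h) (fun u => (jc u).1) z' ⟨u, hu⟩ (jc ⟨u, hu⟩).1 (hjCh ⟨u, hu⟩)
      simp only [if_true, hz, Bool.not_true] at h1
      exact h1
    · have hz' : z' u = false := by simpa using hz
      rw [hz']
      apply decide_eq_false
      rintro ⟨y, hy1, hy2⟩
      by_cases hy : y ∈ Ch D u
      · have h1 := lft_pos (h := h) (fun u => (jc u).1) z' ⟨u, hu⟩ y hy
        rw [hy2] at h1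
        simp [hz'] at h1
      · have hD : pair u y ∉ D := fun hD => hy (mem_Ch.2 ⟨hy1, hD⟩)
        rw [lft_neg _ z' _ hD, hh _ (mem_R_succ hu hy1) hD] at hy2
        exact absurd hy2 (by simp)
  · intro L hL
    have hnot := hρ3 _ (List.mem_map.2 ⟨L, hL, rfl⟩)
    unfold Hard at hnot
    rw [not_not] at hnot
    obtain ⟨T₂, hT₂, hT₂'⟩ := hnot
    obtain ⟨T, hT1, hT2⟩ := hSUB (Bl n k × List Bool) (List Bool)
      (f2 (fun u => (jc u).1)) T₂
    refine ⟨T, by omega, fun z' hz' => ?_⟩
    have h1 : T.eval z' = T₂.eval (z1 (fun u => (jc u).1) z') := by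
      rw [hT2 z']
      congr 1
      funext v
      unfold z1
      cases f2 (fun u => (jc u).1) v <;> rfl
    rw [h1, Bool.eq_iff_iff, hT₂' _ (hCon z' hz'), dnf_flatMap, List.any_eq_true]
    apply exists_congr
    intro T'
    apply and_congr_right
    intro _
    have h2 : (sb T').eval (z1 (fun u => (jc u).1) z') =
        T'.eval (lft n k D h (fun u => (jc u).1) z') := by
      rw [hsb2]
      congr 1
      funext v
      unfold lft
      cases f1 n k D h v <;> rfl
    rw [← hpt2, h2, Bool.not_eq_true']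

end Pool.Agent.LOA
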