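import Pool.Agent.LOA.Targets

/-!
# Target SWI of project LOA
-/

set_option autoImplicit false

namespace Pool.Agent.LOA

open Pool.Agent.LOW Classical

namespace SWI_

/-- The sum of the polynomials of `T_SYM` for a list of trees. -/
theorem poly_list (hSYM : T_SYM) (F : Finset (List Bool)) (z : Lang) (d : ℕ) :
    ∀ M : List (DT (List Bool)), (∀ T ∈ M, T.depth ≤ d) →
    ∃ q : Polynomial ℝ, q.natDegree ≤ d ∧ ∀ k : ℕ, k ≤ F.card →
      (∑ S ∈ F.powersetCard k, ((M.countP (fun T => T.eval (flipD S z)) : ℕ) : ℝ)) =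
        q.eval (k : ℝ) * (F.card.choose k : ℝ) := by
  intro M
  induction M with
  | nil =>
    intro _
    refine ⟨0, by simp, ?_⟩
    intro k _
    simp
  | cons T M ih =>
    intro h
    obtain ⟨q, hq, hq'⟩ := ih (fun T' hT' => h T' (List.mem_cons_of_mem _ hT'))
    obtain ⟨p, hp, hp'⟩ := hSYM T F z
    refine ⟨q + p, ?_, ?_⟩
    · refine (Polynomial.natDegree_add_le _ _).trans (max_le hq (hp.trans ?_))
      exact h T List.mem_cons_self
    · intro k hk
      rw [Polynomial.eval_add, add_mul, ← hq' k hk, ← hp' k hk]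
      simp only [List.countP_cons, Nat.cast_add, Finset.sum_add_distrib]
      congr 1
      rw [Finset.card_filter]
      push_cast
      refine Finset.sum_congr rfl fun S _ => ?_
      by_cases hS : T.eval (flipD S z) = true <;> simp [hS]

theorem flip_true {z : Lang} {x y : List Bool} (h0 : nz z x = 0)
    (hy : y ∈ W ((x.length + 2) ^ 2)) : z (pair x y) = true := by
  unfold nz at h0
  rw [Finset.card_eq_zero, Finset.filter_eq_empty_iff] at h0
  have := h0 hy
  simpa using this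

theorem nz_flip (hDISJ : T_DISJ) {z : Lang} {x : List Bool} (h0 : nz z x = 0)
    {S : Finset (List Bool)} (hS : S ⊆ blk x) : nz (flipD S z) x = S.card := by
  have hinj : Function.Injective (pair x) := fun y y' h => (hDISJ.1 x x y y' h).2
  have key : S = ((W ((x.length + 2) ^ 2)).filter fun y => flipD S z (pair x y) = false).image
      (pair x) := by
    ext v
    simp only [Finset.mem_image, Finset.mem_filter]
    constructor
    · intro hv
      have hb := hS hv
      unfold blk at hb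
      rw [Finset.mem_image] at hb
      obtain ⟨y, hy, rfl⟩ := hb
      refine ⟨y, ⟨hy, ?_⟩, rfl⟩
      unfold flipD
      rw [if_pos hv, flip_true h0 hy]
      rfl
    · rintro ⟨y, ⟨hy, hf⟩, rfl⟩
      by_contra hv
      unfold flipD at hf
      rw [if_neg hv, flip_true h0 hy] at hf
      exact absurd hf (by simp)
  unfold nz
  conv_rhs => rw [key]
  rw [Finset.card_image_of_injective _ hinj]

theorem flip_slc (hDISJ : T_DISJ) (hPAR : T_PAR) {l : ℕ} {g₀ z : Lang} (hz : z ∈ Slc l g₀)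
    {x : List Bool} (h0 : nz z x = 0) {S : Finset (List Bool)} (hS : S ⊆ blk x)
    (hl : ∀ v ∈ S, l < v.length) (hodd : S.card = 0 ∨ Odd S.card) : flipD S z ∈ Slc l g₀ := by
  refine ⟨?_, ?_⟩
  · intro x'
    by_cases hx : x' = x
    · subst hx
      rw [nz_flip hDISJ h0 hS]
      exact hodd
    · have hd : S ∩ blk x' = ∅ := by
        have h1 := hDISJ.2 x x' (fun h => hx h.symm)
        rw [Finset.disjoint_left] at h1
        ext v
        simp only [Finset.mem_inter, Finset.notMem_empty, iff_false, not_and]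
        intro hv
        exact h1 (hS hv)
      rw [(hPAR z S x').2 hd]
      exact hz.1 x'
  · intro v hv
    have hvS : v ∉ S := fun h => absurd (hl v h) (by omega)
    unfold flipD
    rw [if_neg hvS]
    exact hz.2 v hv

end SWI_

theorem p_SWI (hDISJ : T_DISJ) (hPAR : T_PAR) (hFRESH : T_FRESH) (hPOL : T_POL) (hSYM : T_SYM) :
    T_SWI := by
  intro l g₀ L M₁ M₂ d H hM₁ hM₂ hH hgap z hz hns x Q h0 hlong hcard
  obtain ⟨F, hFb, hFc, hFv⟩ := hFRESH l x Q (16 * d ^ 2 + 1) hlong hcard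
  by_contra hcon
  push Not at hcon
  have hslc : ∀ S : Finset (List Bool), S ⊆ F → (S.card = 0 ∨ Odd S.card) →
      flipD S z ∈ Slc l g₀ := fun S hS ho =>
    SWI_.flip_slc hDISJ hPAR hz h0 (hS.trans hFb) (fun v hv => (hFv v (hS hv)).1) ho
  have hsat : ∀ v ∈ F, Sat L (flipD {v} z) := by
    intro v hv
    refine hcon v (hFb hv) (hFv v hv).1 (hFv v hv).2 (hslc {v} ?_ ?_)
    · simpa using hv
    · right
      simp
  obtain ⟨q₁, hq₁, hq₁'⟩ := SWI_.poly_list hSYM F z d M₁ hM₁
  obtain ⟨q₂, hq₂, hq₂'⟩ := SWI_.poly_list hSYM F z d M₂ hM₂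
  obtain ⟨val, hval⟩ : ∃ val : Lang → ℝ, ∀ y, val y =
      (((M₁.countP (fun T => T.eval y) : ℕ) : ℝ) -
        ((M₂.countP (fun T => T.eval y) : ℕ) : ℝ)) / (H : ℝ) := ⟨_, fun _ => rfl⟩
  have hHpos : (0 : ℝ) < (H : ℝ) := by exact_mod_cast hH
  have hsv : ∀ y ∈ Slc l g₀, Sat L y → 2 / 3 ≤ val y ∧ val y ≤ 1 := by
    intro y hy hs
    obtain ⟨h1, h2⟩ := (hgap y hy).1 hs
    rw [hval, le_div_iff₀ hHpos, div_le_one hHpos]
    have h1' : 2 * (H : ℝ) + 3 * ((M₂.countP (fun T => T.eval y) : ℕ) : ℝ) ≤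
      3 * ((M₁.countP (fun T => T.eval y) : ℕ) : ℝ) := by exact_mod_cast h1
    have h2' : ((M₁.countP (fun T => T.eval y) : ℕ) : ℝ) ≤
      (H : ℝ) + ((M₂.countP (fun T => T.eval y) : ℕ) : ℝ) := by exact_mod_cast h2
    constructor <;> linarith
  have hnv : ∀ y ∈ Slc l g₀, ¬ Sat L y → 0 ≤ val y ∧ val y ≤ 1 / 3 := by
    intro y hy hs
    obtain ⟨h1, h2⟩ := (hgap y hy).2 hs
    rw [hval, le_div_iff₀ hHpos, div_le_iff₀ hHpos]
    have h1' : ((M₂.countP (fun T => T.eval y) : ℕ) : ℝ) ≤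
      ((M₁.countP (fun T => T.eval y) : ℕ) : ℝ) := by exact_mod_cast h1
    have h2' : 3 * ((M₁.countP (fun T => T.eval y) : ℕ) : ℝ) ≤
      (H : ℝ) + 3 * ((M₂.countP (fun T => T.eval y) : ℕ) : ℝ) := by exact_mod_cast h2
    constructor <;> linarith
  have h01 : ∀ y ∈ Slc l g₀, 0 ≤ val y ∧ val y ≤ 1 := by
    intro y hy
    by_cases hs : Sat L y
    · have := hsv y hy hs
      constructor <;> linarith
    · have := hnv y hy hs
      constructor <;> linarith
  obtain ⟨q, hq⟩ : ∃ q : Polynomial ℝ, q = Polynomial.C ((H : ℝ)⁻¹) * (q₁ - q₂) := ⟨_, rfl⟩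
  -- the main identity
  have hmain : ∀ k : ℕ, k ≤ F.card →
      q.eval (k : ℝ) * (F.card.choose k : ℝ) = ∑ S ∈ F.powersetCard k, val (flipD S z) := by
    intro k hk
    rw [hq, Polynomial.eval_mul, Polynomial.eval_C, Polynomial.eval_sub, mul_assoc, sub_mul,
      ← hq₁' k hk, ← hq₂' k hk, ← Finset.sum_sub_distrib, Finset.mul_sum]
    refine Finset.sum_congr rfl fun S _ => ?_
    rw [hval]
    ring
  have hpos : ∀ k : ℕ, k ≤ F.card → (0 : ℝ) < (F.card.choose k : ℝ) := by
    intro k hk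
    exact_mod_cast Nat.choose_pos hk
  have hcst : ∀ (k : ℕ) (r : ℝ), ∑ _S ∈ F.powersetCard k, r = r * (F.card.choose k : ℝ) := by
    intro k r
    rw [Finset.sum_const, Finset.card_powersetCard, nsmul_eq_mul, mul_comm]
  have hbd : ∀ k : ℕ, k ≤ F.card → (k = 0 ∨ Odd k) →
      0 ≤ q.eval (k : ℝ) ∧ q.eval (k : ℝ) ≤ 1 := by
    intro k hk ho
    have h1 := hmain k hk
    have hmem : ∀ S ∈ F.powersetCard k, flipD S z ∈ Slc l g₀ := by
      intro S hS
      rw [Finset.mem_powersetCard] at hS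
      exact hslc S hS.1 (by rw [hS.2]; exact ho)
    have h2 : (0 : ℝ) * (F.card.choose k : ℝ) ≤ ∑ S ∈ F.powersetCard k, val (flipD S z) := by
      rw [← hcst]
      exact Finset.sum_le_sum fun S hS => (h01 _ (hmem S hS)).1
    have h3 : ∑ S ∈ F.powersetCard k, val (flipD S z) ≤ 1 * (F.card.choose k : ℝ) := by
      rw [← hcst]
      exact Finset.sum_le_sum fun S hS => (h01 _ (hmem S hS)).2
    rw [← h1] at h2 h3
    exact ⟨le_of_mul_le_mul_right h2 (hpos k hk), le_of_mul_le_mul_right h3 (hpos k hk)⟩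
  refine hPOL d q ?_ ?_ ?_ ?_
  · rw [hq]
    exact (Polynomial.natDegree_C_mul_le _ _).trans
      ((Polynomial.natDegree_sub_le _ _).trans (max_le hq₁ hq₂))
  · have h1 := hmain 0 (Nat.zero_le _)
    have h2 : flipD ∅ z = z := by
      funext v
      simp [flipD]
    simp only [Finset.powersetCard_zero, Finset.sum_singleton, Nat.choose_zero_right,
      Nat.cast_one, mul_one, Nat.cast_zero, h2] at h1
    rw [h1]
    exact (hnv z hz hns).2
  · have h1k : 1 ≤ F.card := by rw [hFc]; omega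
    have h1 := hmain 1 h1k
    have h2 : (2 / 3 : ℝ) * (F.card.choose 1 : ℝ) ≤ ∑ S ∈ F.powersetCard 1, val (flipD S z) := by
      rw [← hcst]
      refine Finset.sum_le_sum fun S hS => ?_
      rw [Finset.mem_powersetCard, Finset.card_eq_one] at hS
      obtain ⟨hSF, v, rfl⟩ := hS
      exact (hsv _ (hslc {v} hSF (Or.inr (by simp)))
        (hsat v (hSF (Finset.mem_singleton_self v)))).1
    rw [← h1] at h2
    have h5 := le_of_mul_le_mul_right h2 (hpos 1 h1k)
    simpa using h5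
  · intro i hi
    have hk : 1 + 16 * i ^ 2 ≤ F.card := by
      rw [hFc]
      have : i ^ 2 ≤ d ^ 2 := Nat.pow_le_pow_left hi 2
      omega
    have ho : Odd (1 + 16 * i ^ 2) := ⟨8 * i ^ 2, by ring⟩
    have h1 := hbd _ hk (Or.inr ho)
    push_cast at h1
    rw [abs_le]
    constructor <;> linarith [h1.1, h1.2]

end Pool.Agent.LOA
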