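import Pool.Agent.LOA.Targets

/-!
# The symmetrisation of a decision tree
-/

set_option autoImplicit false

namespace Pool.Agent.LOA

open Pool.Agent.LOW Classical

namespace SYM_

/-- The sets of the count. -/
noncomputable def fam (F A B : Finset (List Bool)) (k : ℕ) : Finset (Finset (List Bool)) :=
  (F.powersetCard k).filter fun S => A ⊆ S ∧ Disjoint S B

lemma mem_fam {F A B S : Finset (List Bool)} {k : ℕ} :
    S ∈ fam F A B k ↔ S ⊆ F ∧ S.card = k ∧ A ⊆ S ∧ Disjoint S B := by
  unfold fam
  rw [Finset.mem_filter, Finset.mem_powersetCard]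
  tauto

lemma card_fam {F A B : Finset (List Bool)} {k : ℕ} (hA : A ⊆ F) (hB : B ⊆ F)
    (hd : Disjoint A B) (hk : A.card ≤ k) :
    (fam F A B k).card = (F.card - A.card - B.card).choose (k - A.card) := by
  have h1 : (fam F A B k).card = (((F \ A) \ B).powersetCard (k - A.card)).card := by
    refine Finset.card_nbij' (fun S => S \ A) (fun U => U ∪ A) ?_ ?_ ?_ ?_
    · intro S hS
      have hS := mem_fam.1 hS
      refine Finset.mem_coe.2 (Finset.mem_powersetCard.2 ⟨?_, ?_⟩)
      · intro v hv
        have hv := Finset.mem_sdiff.1 hv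
        refine Finset.mem_sdiff.2 ⟨Finset.mem_sdiff.2 ⟨hS.1 hv.1, hv.2⟩, ?_⟩
        exact Finset.disjoint_left.1 hS.2.2.2 hv.1
      · show (S \ A).card = k - A.card
        rw [Finset.card_sdiff_of_subset hS.2.2.1, hS.2.1]
    · intro U hU
      have hU := Finset.mem_powersetCard.1 hU
      refine mem_fam.2 ⟨?_, ?_, ?_, ?_⟩
      · refine Finset.union_subset (fun v hv => ?_) hA
        exact (Finset.mem_sdiff.1 (Finset.mem_sdiff.1 (hU.1 hv)).1).1
      · show (U ∪ A).card = k
        rw [Finset.card_union_of_disjoint, hU.2]
        · omega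
        · refine Finset.disjoint_left.2 fun v hv => ?_
          exact (Finset.mem_sdiff.1 (Finset.mem_sdiff.1 (hU.1 hv)).1).2
      · exact Finset.subset_union_right
      · refine Finset.disjoint_union_left.2 ⟨?_, hd⟩
        refine Finset.disjoint_left.2 fun v hv => ?_
        exact (Finset.mem_sdiff.1 (hU.1 hv)).2
    · intro S hS
      have hS := mem_fam.1 hS
      exact Finset.sdiff_union_of_subset hS.2.2.1
    · intro U hU
      have hU := Finset.mem_powersetCard.1 hU
      show (U ∪ A) \ A = U
      rw [Finset.union_sdiff_right]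
      refine Finset.sdiff_eq_self_of_disjoint ?_
      refine Finset.disjoint_left.2 fun v hv => ?_
      exact (Finset.mem_sdiff.1 (Finset.mem_sdiff.1 (hU.1 hv)).1).2
  rw [h1, Finset.card_powersetCard, Finset.card_sdiff_of_subset, Finset.card_sdiff_of_subset hA]
  intro v hv
  exact Finset.mem_sdiff.2 ⟨hB hv, fun h => Finset.disjoint_left.1 hd h hv⟩

lemma choose_id {N a b k : ℕ} (hab : a + b ≤ N) (hk : k ≤ N) (hak : a ≤ k) :
    (N - a - b).choose (k - a) * N.descFactorial (a + b) =
      N.choose k * (k.descFactorial a * (N - k).descFactorial b) := by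
  by_cases hb : b ≤ N - k
  · have e1 : (N - a - b).choose (k - a) * (k - a).factorial * (N - k - b).factorial =
        (N - a - b).factorial := by
      have := Nat.choose_mul_factorial_mul_factorial (n := N - a - b) (k := k - a) (by omega)
      rwa [show N - a - b - (k - a) = N - k - b by omega] at this
    have e2 : (N - a - b).factorial * N.descFactorial (a + b) = N.factorial := by
      have := Nat.factorial_mul_descFactorial (k := a + b) (n := N) hab
      rwa [show N - (a + b) = N - a - b by omega] at this
    have e3 : N.choose k * k.factorial * (N - k).factorial = N.factorial :=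
      Nat.choose_mul_factorial_mul_factorial hk
    have e4 : (k - a).factorial * k.descFactorial a = k.factorial :=
      Nat.factorial_mul_descFactorial hak
    have e5 : (N - k - b).factorial * (N - k).descFactorial b = (N - k).factorial :=
      Nat.factorial_mul_descFactorial hb
    have p1 : 0 < (k - a).factorial := Nat.factorial_pos _
    have p2 : 0 < (N - k - b).factorial := Nat.factorial_pos _
    refine Nat.eq_of_mul_eq_mul_right (Nat.mul_pos p1 p2) ?_
    calc (N - a - b).choose (k - a) * N.descFactorial (a + b) *
          ((k - a).factorial * (N - k - b).factorial)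
        = ((N - a - b).choose (k - a) * (k - a).factorial * (N - k - b).factorial) *
            N.descFactorial (a + b) := by ring
      _ = N.factorial := by rw [e1, e2]
      _ = N.choose k * ((k - a).factorial * k.descFactorial a) *
            ((N - k - b).factorial * (N - k).descFactorial b) := by rw [e4, e5, e3]
      _ = _ := by ring
  · have z1 : (N - k).descFactorial b = 0 := Nat.descFactorial_eq_zero_iff_lt.2 (by omega)
    have z2 : (N - a - b).choose (k - a) = 0 := Nat.choose_eq_zero_of_lt (by omega)
    rw [z1, z2]
    simp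

/-- The polynomial of the leaf. -/
noncomputable def pol (N a b : ℕ) : Polynomial ℝ :=
  Polynomial.C ((N.descFactorial (a + b) : ℝ)⁻¹) *
    (descPochhammer ℝ a * (descPochhammer ℝ b).comp (Polynomial.C (N : ℝ) - Polynomial.X))

lemma pol_deg (N a b : ℕ) : (pol N a b).natDegree ≤ a + b := by
  unfold pol
  refine (Polynomial.natDegree_C_mul_le _ _).trans ?_
  refine Polynomial.natDegree_mul_le.trans ?_
  refine add_le_add ?_ ?_
  · exact (descPochhammer_natDegree ℝ a).le
  · refine Polynomial.natDegree_comp_le.trans ?_
    have h1 : (Polynomial.C (N : ℝ) - Polynomial.X).natDegree ≤ 1 := by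
      refine (Polynomial.natDegree_sub_le _ _).trans ?_
      simp
    calc (descPochhammer ℝ b).natDegree * (Polynomial.C (N : ℝ) - Polynomial.X).natDegree
        ≤ b * 1 := Nat.mul_le_mul (descPochhammer_natDegree ℝ b).le h1
      _ = b := mul_one b

lemma pol_eval {N a b k : ℕ} (hk : k ≤ N) :
    (pol N a b).eval (k : ℝ) =
      (N.descFactorial (a + b) : ℝ)⁻¹ * ((k.descFactorial a : ℝ) * ((N - k).descFactorial b : ℝ)) := by
  unfold pol
  rw [Polynomial.eval_mul, Polynomial.eval_C, Polynomial.eval_mul, Polynomial.eval_comp,
    Polynomial.eval_sub, Polynomial.eval_C, Polynomial.eval_X, ← Nat.cast_sub hk,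
    descPochhammer_eval_eq_descFactorial, descPochhammer_eval_eq_descFactorial]

lemma leaf_case {F A B : Finset (List Bool)} (hA : A ⊆ F) (hB : B ⊆ F) (hd : Disjoint A B) :
    ∃ q : Polynomial ℝ, q.natDegree ≤ A.card + B.card ∧ ∀ k : ℕ, k ≤ F.card →
      ((fam F A B k).card : ℝ) = q.eval (k : ℝ) * (F.card.choose k : ℝ) := by
  refine ⟨pol F.card A.card B.card, pol_deg _ _ _, fun k hk => ?_⟩
  rw [pol_eval hk]
  have hab : A.card + B.card ≤ F.card := by
    rw [← Finset.card_union_of_disjoint hd]
    exact Finset.card_le_card (Finset.union_subset hA hB)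
  have hpos : (0 : ℝ) < (F.card.descFactorial (A.card + B.card) : ℝ) := by
    exact_mod_cast Nat.descFactorial_pos.2 hab
  by_cases hak : A.card ≤ k
  · rw [card_fam hA hB hd hak]
    have h := choose_id hab hk hak
    have h' : (((F.card - A.card - B.card).choose (k - A.card) : ℕ) : ℝ) *
        (F.card.descFactorial (A.card + B.card) : ℝ) =
        (F.card.choose k : ℝ) * ((k.descFactorial A.card : ℝ) *
          ((F.card - k).descFactorial B.card : ℝ)) := by exact_mod_cast h
    field_simp
    linarith
  · have z1 : k.descFactorial A.card = 0 := Nat.descFactorial_eq_zero_iff_lt.2 (by omega)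
    have z2 : (fam F A B k).card = 0 := by
      rw [Finset.card_eq_zero, Finset.eq_empty_iff_forall_notMem]
      intro S hS
      have hS := mem_fam.1 hS
      have := Finset.card_le_card hS.2.2.1
      omega
    rw [z1, z2]
    simp

/-- The count for a tree. -/
noncomputable def famT (T : DT (List Bool)) (z : Lang) (F A B : Finset (List Bool)) (k : ℕ) :
    Finset (Finset (List Bool)) :=
  (fam F A B k).filter fun S => T.eval (flipD S z) = true

lemma mem_famT {T : DT (List Bool)} {z : Lang} {F A B S : Finset (List Bool)} {k : ℕ} :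
    S ∈ famT T z F A B k ↔
      (S ⊆ F ∧ S.card = k ∧ A ⊆ S ∧ Disjoint S B) ∧ T.eval (flipD S z) = true := by
  unfold famT
  rw [Finset.mem_filter, mem_fam]

lemma flipD_mem {S : Finset (List Bool)} {z : Lang} {v : List Bool} (h : v ∈ S) :
    flipD S z v = !(z v) := by
  unfold flipD
  rw [if_pos h]

lemma flipD_not_mem {S : Finset (List Bool)} {z : Lang} {v : List Bool} (h : v ∉ S) :
    flipD S z v = z v := by
  unfold flipD
  rw [if_neg h]

/-- the branch for the answer `t`. -/
def br (t : Bool) (l r : DT (List Bool)) : DT (List Bool) := if t then r else l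

lemma br_depth (t : Bool) (l r : DT (List Bool)) : (br t l r).depth ≤ max l.depth r.depth := by
  cases t
  · exact le_max_left _ _
  · exact le_max_right _ _

lemma eval_node (w : Lang) (v : List Bool) (l r : DT (List Bool)) :
    (DT.node v l r).eval w = (br (w v) l r).eval w := by
  show (if w v then r.eval w else l.eval w) = _
  cases w v <;> rfl

lemma main (F : Finset (List Bool)) (z : Lang) (T : DT (List Bool)) :
    ∀ A B : Finset (List Bool), A ⊆ F → B ⊆ F → Disjoint A B →
      ∃ q : Polynomial ℝ, q.natDegree ≤ A.card + B.card + T.depth ∧ ∀ k : ℕ, k ≤ F.card →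
        ((famT T z F A B k).card : ℝ) = q.eval (k : ℝ) * (F.card.choose k : ℝ) := by
  induction T with
  | leaf a =>
    intro A B hA hB hd
    cases a
    · refine ⟨0, by simp, fun k _ => ?_⟩
      have : famT (DT.leaf false) z F A B k = ∅ := by
        rw [Finset.eq_empty_iff_forall_notMem]
        intro S hS
        have := (mem_famT.1 hS).2
        exact Bool.false_ne_true this
      rw [this]
      simp
    · obtain ⟨q, hq, h⟩ := leaf_case hA hB hd
      refine ⟨q, hq.trans (Nat.le_add_right _ _), fun k hk => ?_⟩
      have : famT (DT.leaf true) z F A B k = fam F A B k := by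
        ext S
        rw [mem_famT, mem_fam]
        exact ⟨fun h => h.1, fun h => ⟨h, rfl⟩⟩
      rw [this, h k hk]
  | node v l r hl hr =>
    intro A B hA hB hd
    have ih : ∀ t : Bool, ∀ A B : Finset (List Bool), A ⊆ F → B ⊆ F → Disjoint A B →
      ∃ q : Polynomial ℝ, q.natDegree ≤ A.card + B.card + (br t l r).depth ∧ ∀ k : ℕ, k ≤ F.card →
        ((famT (br t l r) z F A B k).card : ℝ) = q.eval (k : ℝ) * (F.card.choose k : ℝ) := by
      intro t
      cases t
      · exact hl
      · exact hr
    have hdep : ∀ t : Bool, (br t l r).depth + 1 ≤ (DT.node v l r).depth := fun t =>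
      Nat.succ_le_succ (br_depth t l r)
    -- the known case
    have known : ∀ t : Bool, (∀ S : Finset (List Bool), S ⊆ F → A ⊆ S → Disjoint S B →
        flipD S z v = t) → ∃ q : Polynomial ℝ,
        q.natDegree ≤ A.card + B.card + (DT.node v l r).depth ∧ ∀ k : ℕ, k ≤ F.card →
        ((famT (DT.node v l r) z F A B k).card : ℝ) = q.eval (k : ℝ) * (F.card.choose k : ℝ) := by
      intro t ht
      obtain ⟨q, hq, h⟩ := ih t A B hA hB hd
      refine ⟨q, hq.trans ?_, fun k hk => ?_⟩
      · have := hdep t
        omega
      · rw [← h k hk]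
        congr 2
        ext S
        rw [mem_famT, mem_famT]
        refine and_congr_right fun hS => ?_
        rw [eval_node, ht S hS.1 hS.2.2.1 hS.2.2.2]
    by_cases hvF : v ∈ F
    · by_cases hvA : v ∈ A
      · exact known (!(z v)) fun S _ hAS _ => flipD_mem (hAS hvA)
      · by_cases hvB : v ∈ B
        · exact known (z v) fun S _ _ hSB => flipD_not_mem (Finset.disjoint_right.1 hSB hvB)
        · obtain ⟨q₁, hq₁, h₁⟩ := ih (!(z v)) (insert v A) B
            (Finset.insert_subset hvF hA) hB (Finset.disjoint_insert_left.2 ⟨hvB, hd⟩)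
          obtain ⟨q₂, hq₂, h₂⟩ := ih (z v) A (insert v B)
            hA (Finset.insert_subset hvF hB) (Finset.disjoint_insert_right.2 ⟨hvA, hd⟩)
          refine ⟨q₁ + q₂, ?_, fun k hk => ?_⟩
          · refine (Polynomial.natDegree_add_le _ _).trans (max_le ?_ ?_)
            · refine hq₁.trans ?_
              have := hdep (!(z v))
              rw [Finset.card_insert_of_notMem hvA]
              omega
            · refine hq₂.trans ?_
              have := hdep (z v)
              rw [Finset.card_insert_of_notMem hvB]
              omega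
          · rw [Polynomial.eval_add, add_mul, ← h₁ k hk, ← h₂ k hk, ← Nat.cast_add]
            congr 1
            rw [← Finset.card_union_of_disjoint]
            · congr 1
              ext S
              rw [Finset.mem_union, mem_famT, mem_famT, mem_famT, eval_node]
              by_cases hvS : v ∈ S
              · rw [flipD_mem hvS]
                constructor
                · rintro ⟨⟨h1, h2, h3, h4⟩, h5⟩
                  exact Or.inl ⟨⟨h1, h2, Finset.insert_subset hvS h3, h4⟩, h5⟩
                · rintro (⟨⟨h1, h2, h3, h4⟩, h5⟩ | ⟨⟨h1, h2, h3, h4⟩, h5⟩)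
                  · exact ⟨⟨h1, h2, (Finset.insert_subset_iff.1 h3).2, h4⟩, h5⟩
                  · exact absurd hvS (Finset.disjoint_right.1 h4 (Finset.mem_insert_self _ _))
              · rw [flipD_not_mem hvS]
                constructor
                · rintro ⟨⟨h1, h2, h3, h4⟩, h5⟩
                  exact Or.inr ⟨⟨h1, h2, h3, Finset.disjoint_insert_right.2 ⟨hvS, h4⟩⟩, h5⟩
                · rintro (⟨⟨h1, h2, h3, h4⟩, h5⟩ | ⟨⟨h1, h2, h3, h4⟩, h5⟩)
                  · exact absurd (h3 (Finset.mem_insert_self _ _)) hvS
                  · exact ⟨⟨h1, h2, h3, (Finset.disjoint_insert_right.1 h4).2⟩, h5⟩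
            · rw [Finset.disjoint_left]
              intro S hS hS'
              have a1 := (mem_famT.1 hS).1.2.2.1 (Finset.mem_insert_self _ _)
              have a2 := Finset.disjoint_right.1 (mem_famT.1 hS').1.2.2.2
                (Finset.mem_insert_self _ _)
              exact a2 a1
    · exact known (z v) fun S hSF _ _ => flipD_not_mem fun h => hvF (hSF h)

end SYM_

theorem p_SYM : T_SYM := by
  intro T F z
  obtain ⟨q, hq, h⟩ := SYM_.main F z T ∅ ∅ (Finset.empty_subset _) (Finset.empty_subset _)
    (Finset.disjoint_empty_left _)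
  refine ⟨q, by simpa using hq, fun k hk => ?_⟩
  rw [← h k hk]
  congr 2
  ext S
  rw [SYM_.mem_famT, Finset.mem_filter, Finset.mem_powersetCard]
  constructor
  · rintro ⟨⟨h1, h2⟩, h3⟩
    exact ⟨⟨h1, h2, Finset.empty_subset _, Finset.disjoint_empty_right _⟩, h3⟩
  · rintro ⟨⟨h1, h2, _, _⟩, h3⟩
    exact ⟨⟨h1, h2⟩, h3⟩

end Pool.Agent.LOA
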