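import Pool.Agent.LOA.Targets

/-!
# The symmetrisation of a decision tree, for flips of disjoint sets
-/

set_option autoImplicit false

namespace Pool.Agent.LOA

open Pool.Agent.LOW Classical

namespace SYMB_

/-- The name of the block `i`. -/
def e {n : ℕ} (i : Fin n) : List Bool := List.replicate (i : ℕ) true

lemma e_inj {n : ℕ} : Function.Injective (e (n := n)) := by
  intro i j h
  have h1 := congrArg List.length h
  simp only [e, List.length_replicate] at h1
  exact Fin.ext h1

lemma mem_image_e {n : ℕ} (s : Finset (Fin n)) (i : Fin n) : e i ∈ s.image e ↔ i ∈ s := by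
  rw [Finset.mem_image]
  constructor
  · rintro ⟨j, hj, h⟩
    rwa [← e_inj h]
  · intro h
    exact ⟨i, h, rfl⟩

lemma exists_tree {n : ℕ} (D : Fin n → Finset (List Bool)) (z : Lang)
    (hD : ∀ i j, i ≠ j → Disjoint (D i) (D j)) : ∀ T : DT (List Bool),
    ∃ T' : DT (List Bool), T'.depth ≤ T.depth ∧ ∀ s : Finset (Fin n),
      T'.eval (flipD (s.image e) (fun _ => false)) = T.eval (flipD (s.biUnion D) z) := by
  intro T
  induction T with
  | leaf a => exact ⟨DT.leaf a, le_refl _, fun s => rfl⟩
  | node v l r ihl ihr =>
    obtain ⟨l', hl1, hl2⟩ := ihl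
    obtain ⟨r', hr1, hr2⟩ := ihr
    by_cases h : ∃ i, v ∈ D i
    · obtain ⟨i, hi⟩ := h
      have hmem : ∀ s : Finset (Fin n), v ∈ s.biUnion D ↔ i ∈ s := by
        intro s
        rw [Finset.mem_biUnion]
        constructor
        · rintro ⟨j, hj, hv⟩
          by_contra hne
          have hij : j ≠ i := fun hji => hne (hji ▸ hj)
          exact Finset.disjoint_left.1 (hD j i hij) hv hi
        · intro his
          exact ⟨i, his, hi⟩
      cases hz : z v with
      | false =>
        refine ⟨DT.node (e i) l' r', ?_, ?_⟩
        · simp only [DT.depth]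
          omega
        · intro s
          have h1 : flipD (s.biUnion D) z v = decide (i ∈ s) := by
            unfold flipD
            by_cases his : i ∈ s
            · rw [if_pos ((hmem s).2 his), hz, decide_eq_true his]
              rfl
            · rw [if_neg (fun hc => his ((hmem s).1 hc)), hz, decide_eq_false his]
          have h2 : flipD (s.image e) (fun _ => false) (e i) = decide (i ∈ s) := by
            unfold flipD
            by_cases his : i ∈ s
            · rw [if_pos ((mem_image_e s i).2 his), decide_eq_true his]
              rfl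
            · rw [if_neg (fun hc => his ((mem_image_e s i).1 hc)), decide_eq_false his]
          simp only [DT.eval]
          rw [h1, h2, hl2 s, hr2 s]
      | true =>
        refine ⟨DT.node (e i) r' l', ?_, ?_⟩
        · simp only [DT.depth]
          omega
        · intro s
          have h1 : flipD (s.biUnion D) z v = !(decide (i ∈ s)) := by
            unfold flipD
            by_cases his : i ∈ s
            · rw [if_pos ((hmem s).2 his), hz, decide_eq_true his]
            · rw [if_neg (fun hc => his ((hmem s).1 hc)), hz, decide_eq_false his]
              rfl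
          have h2 : flipD (s.image e) (fun _ => false) (e i) = decide (i ∈ s) := by
            unfold flipD
            by_cases his : i ∈ s
            · rw [if_pos ((mem_image_e s i).2 his), decide_eq_true his]
              rfl
            · rw [if_neg (fun hc => his ((mem_image_e s i).1 hc)), decide_eq_false his]
          simp only [DT.eval]
          rw [h1, h2, hl2 s, hr2 s]
          by_cases his : i ∈ s
          · rw [decide_eq_true his]
            rfl
          · rw [decide_eq_false his]
            rfl
    · have hnot : ∀ s : Finset (Fin n), v ∉ s.biUnion D := by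
        intro s hc
        rw [Finset.mem_biUnion] at hc
        obtain ⟨j, -, hv⟩ := hc
        exact h ⟨j, hv⟩
      have h1 : ∀ s : Finset (Fin n), flipD (s.biUnion D) z v = z v := by
        intro s
        unfold flipD
        rw [if_neg (hnot s)]
      cases hz : z v with
      | false =>
        refine ⟨l', ?_, ?_⟩
        · simp only [DT.depth]
          omega
        · intro s
          simp only [DT.eval]
          rw [h1 s, hz, hl2 s]
          rfl
      | true =>
        refine ⟨r', ?_, ?_⟩
        · simp only [DT.depth]
          omega
        · intro s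
          simp only [DT.eval]
          rw [h1 s, hz, hr2 s]
          rfl

end SYMB_

open SYMB_ in
theorem p_SYMB (hSYM : T_SYM) : T_SYMB := by
  intro n D z T hD
  obtain ⟨T', hdep, hev⟩ := exists_tree D z hD T
  obtain ⟨q, hq1, hq2⟩ := hSYM T' (Finset.univ.image (e (n := n))) (fun _ => false)
  have hcard : (Finset.univ.image (e (n := n))).card = n := by
    rw [Finset.card_image_of_injective _ e_inj, Finset.card_univ, Fintype.card_fin]
  refine ⟨q, hq1.trans hdep, ?_⟩
  intro k hk
  have h := hq2 k (by rw [hcard]; exact hk)
  rw [hcard] at h
  rw [← h]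
  congr 1
  refine Finset.card_bij' (fun s _ => s.image e)
    (fun S _ => Finset.univ.filter fun i => e i ∈ S) ?_ ?_ ?_ ?_
  · intro s hs
    rw [Finset.mem_filter, Finset.mem_powersetCard] at hs
    rw [Finset.mem_filter, Finset.mem_powersetCard]
    refine ⟨⟨Finset.image_subset_image hs.1.1, ?_⟩, ?_⟩
    · rw [Finset.card_image_of_injective _ e_inj]
      exact hs.1.2
    · rw [hev s]
      exact hs.2
  · intro S hS
    rw [Finset.mem_filter, Finset.mem_powersetCard] at hS
    have himg : (Finset.univ.filter fun i : Fin n => e i ∈ S).image e = S := by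
      ext v
      rw [Finset.mem_image]
      constructor
      · rintro ⟨i, hi, rfl⟩
        exact (Finset.mem_filter.1 hi).2
      · intro hv
        obtain ⟨i, -, hi⟩ := Finset.mem_image.1 (hS.1.1 hv)
        exact ⟨i, Finset.mem_filter.2 ⟨Finset.mem_univ _, hi ▸ hv⟩, hi⟩
    rw [Finset.mem_filter, Finset.mem_powersetCard]
    refine ⟨⟨Finset.subset_univ _, ?_⟩, ?_⟩
    · have hc := Finset.card_image_of_injective
        (Finset.univ.filter fun i : Fin n => e i ∈ S) e_inj
      rw [himg] at hc
      rw [← hc]
      exact hS.1.2
    · rw [← hev, himg]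
      exact hS.2
  · intro s hs
    ext i
    rw [Finset.mem_filter]
    constructor
    · rintro ⟨-, hi⟩
      exact (mem_image_e s i).1 hi
    · intro hi
      exact ⟨Finset.mem_univ _, (mem_image_e s i).2 hi⟩
  · intro S hS
    rw [Finset.mem_filter, Finset.mem_powersetCard] at hS
    ext v
    show v ∈ (Finset.univ.filter fun i : Fin n => e i ∈ S).image e ↔ v ∈ S
    rw [Finset.mem_image]
    constructor
    · rintro ⟨i, hi, rfl⟩
      exact (Finset.mem_filter.1 hi).2
    · intro hv
      obtain ⟨i, -, hi⟩ := Finset.mem_image.1 (hS.1.1 hv)
      exact ⟨i, Finset.mem_filter.2 ⟨Finset.mem_univ _, hi ▸ hv⟩, hi⟩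

end Pool.Agent.LOA
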