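import Pool.Agent.LOA.BRC

/-!
# Project LOA: the tree of a run
-/

set_option autoImplicit false

namespace Pool.Agent.LOA

open Pool.Agent.LOW Classical

theorem p_TREE0 (hRUNDT : T_RUNDT) (hDEP : T_DEPC) : T_TREE0 := by
  intro cd Q c x
  set N := x.length + 2 with hN
  have hN2 : 2 ≤ N := by omega
  have e1 : N ^ c ≤ N ^ (c + 1) := Nat.pow_le_pow_right (by omega) (by omega)
  have e2 : x.length ≤ N ^ (c + 1) := by
    calc x.length ≤ N ^ 1 := by rw [pow_one]; omega
      _ ≤ N ^ (c + 1) := Nat.pow_le_pow_right (by omega) (by omega)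
  have e3 : x.length + N ^ c ≤ N * N ^ (c + 1) := by
    calc x.length + N ^ c ≤ 2 * N ^ (c + 1) := by omega
      _ ≤ N * N ^ (c + 1) := Nat.mul_le_mul_right _ hN2
  obtain ⟨T, h1, h2, h3⟩ := hRUNDT Set.univ (orcC cd) (fun _ => emp) (trC cd)
    (fun _ => DT.leaf false) Q x (N ^ c) (x.length + N ^ c) (x.length + N ^ c) (by
      intro v hv
      obtain ⟨d1, d2⟩ := hDEP cd v
      refine ⟨d1.trans hv, BRC_.in_mono ?_ _ d2, Nat.zero_le _, trivial, fun g _ => ⟨rfl, rfl⟩⟩
      intro w hw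
      exact le_trans (show w.length ≤ v.length from hw) hv)
  refine ⟨T, h1.trans ?_, BRC_.in_mono (fun w hw => ?_) _ h2, fun g => ?_⟩
  · calc N ^ c * (x.length + N ^ c) ≤ N ^ c * (N * N ^ (c + 1)) := Nat.mul_le_mul_left _ e3
      _ = N ^ (2 * c + 2) := by ring
  · have h5 : w.length ≤ x.length + N ^ c := hw
    refine le_trans h5 (e3.trans ?_)
    calc N * N ^ (c + 1) = N ^ (c + 2) := by ring
      _ ≤ N ^ (2 * c + 2) := Nat.pow_le_pow_right (by omega) (by omega)
  · exact h3 g (Set.mem_univ g)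

end Pool.Agent.LOA
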