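import Pool.Agent.LOW.Targets
import Pool.Agent.LOA.Core

/-!
# Targets of project LOA

Each `T_XYZ` is proved in its own file `Pool/Agent/LOA/XYZ.lean` as a theorem
`Pool.Agent.LOA.p_XYZ : T_XYZ` (hypotheses only as said in the job), auxiliary lemmas in the
namespace `Pool.Agent.LOA.XYZ_`. All facts of `Pool/Agent/LOW` may be used.
-/

set_option autoImplicit false

namespace Pool.Agent.LOA

open Pool.Agent.LOW Classical

/-! ## Bits asked, certificates -/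

/-- Basic facts on the asked bits. Induction on `T`. -/
def T_ASK : Prop := ∀ (V : Type) (T : DT V) (z z' : V → Bool),
  (asked z T).card ≤ T.depth ∧ (∀ S : Set V, T.In S → ∀ v ∈ asked z T, v ∈ S) ∧
  ((∀ v ∈ asked z T, z' v = z v) → asked z' T = asked z T ∧ T.eval z' = T.eval z)

/-- The greedy algorithm, as `LOW.T_CHAIN` but in a world `G`. Induction on `m`, for all `G`. `leaf
false` does not work, so there are `h ∈ G` and `T ∈ L` with `T.eval h = true`. `m = 0`: `leaf true`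
does not work, so there is `z ∈ G` with `¬ Sat L z`; the list is `[(T, h)]`. `m + 1`: for some
`q : V → Bool` no tree of depth at most `w * m` works on `G' = {z ∈ G | z = q on asked h T}`
(otherwise ask all the bits of `asked h T`, at most `w` of them, all in `S`, and go on with the tree
for the answers). Take `z` and the list for `G'` and put `(T, h)` in front: if `v ∈ asked h T` and
`(T', h')` is in the list for `G'` then `h' v = q v = z v`. -/
def T_CHN : Prop := ∀ (V : Type) (L : List (DT V)) (w : ℕ) (S : Set V) (m : ℕ)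
  (G : Set (V → Bool)), (∀ T ∈ L, T.depth ≤ w ∧ T.In S) →
  (¬ ∃ T : DT V, T.depth ≤ w * m ∧ T.In S ∧ ∀ z ∈ G, (T.eval z = true ↔ Sat L z)) →
  ∃ z ∈ G, ¬ Sat L z ∧ ∃ cs : List (DT V × (V → Bool)), cs.length = m + 1 ∧
    (∀ c ∈ cs, c.1 ∈ L ∧ c.2 ∈ G ∧ c.1.eval c.2 = true) ∧
    cs.Pairwise fun a b => ∀ v ∈ asked a.2 a.1, v ∈ asked b.2 b.1 → b.2 v = z v

/-- From `T_CHN` with `m = (w + 1) * n` and the selection lemma `LOW.T_SEL`
(`Pool.Agent.LOW.p_SEL`) for the list `cs.map fun c => (asked c.2 c.1, c.2)` (`List.sublist_map_iff`),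
see `LOW.p_DTT`. -/
def T_CERT : Prop := ∀ (V : Type) (L : List (DT V)) (w n : ℕ) (S : Set V) (G : Set (V → Bool)),
  (∀ T ∈ L, T.depth ≤ w ∧ T.In S) →
  (¬ ∃ T : DT V, T.depth ≤ w * ((w + 1) * n) ∧ T.In S ∧
    ∀ z ∈ G, (T.eval z = true ↔ Sat L z)) →
  ∃ z ∈ G, ¬ Sat L z ∧ ∃ (T : Fin n → DT V) (h : Fin n → V → Bool),
    (∀ i, T i ∈ L ∧ h i ∈ G ∧ (T i).eval (h i) = true) ∧
    ∀ i j, i ≠ j → ∀ v ∈ asked (h i) (T i), v ∈ asked (h j) (T j) → h j v = z v

/-- A world can be split by the answers on the words of length at most `l` (there are at most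
`2 ^ (l + 1)` of them, `LOW.BR_.card_W`). Prove more generally, by induction on a finite set `s` of
words (contained in `Sh W'`): if for every `g₀ ∈ G` there is a tree for the `z ∈ G` that agree with
`g₀` on `s` then there is a tree of depth at most `s.card + D` for all `z ∈ G`. -/
def T_SPLIT : Prop := ∀ (G : Set Lang) (f : Lang → Bool) (l D W' : ℕ), l ≤ W' →
  (∀ g₀ ∈ G, ∃ T : DT (List Bool), T.depth ≤ D ∧ T.In (Sh W') ∧
    ∀ z ∈ G, Eqm l g₀ z → T.eval z = f z) →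
  ∃ T : DT (List Bool), T.depth ≤ 2 ^ (l + 1) + D ∧ T.In (Sh W') ∧ ∀ z ∈ G, T.eval z = f z

/-! ## Parity and the constraint -/

/-- The number of zeros of a block after the flips of `D` has the parity of the number of zeros
plus the number of flips in the block (the map `pair x` is injective). -/
def T_PAR : Prop := ∀ (z : Lang) (D : Finset (List Bool)) (x : List Bool),
  Even (nz (flipD D z) x + nz z x + (D ∩ blk x).card) ∧
  (D ∩ blk x = ∅ → nz (flipD D z) x = nz z x)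

/-- Different blocks are disjoint: `pair` is injective in both variables. -/
def T_DISJ : Prop := (∀ x x' y y' : List Bool, pair x y = pair x' y' → x = x' ∧ y = y') ∧
  ∀ x x' : List Bool, x ≠ x' → Disjoint (blk x) (blk x')

/-- Blocks which contain a word of length greater than `l` contain many fresh words of length greater
than `l`: take words `pair x y` with `|y| = (|x| + 2) ^ 2`; as
`l < 2 |x| + 1 + (|x| + 2) ^ 2 ≤ 2 (|x| + 2) ^ 2` their length is greater than `l` and there are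
`2 ^ ((|x| + 2) ^ 2) ≥ 2 ^ (l / 2)` of them. -/
def T_FRESH : Prop := ∀ (l : ℕ) (x : List Bool) (Q : Finset (List Bool)) (N : ℕ),
  (∃ v ∈ blk x, l < v.length) → Q.card + N ≤ 2 ^ (l / 2) →
  ∃ F : Finset (List Bool), F ⊆ blk x ∧ F.card = N ∧ ∀ v ∈ F, l < v.length ∧ v ∉ Q

/-- Repair. For the finitely many `x` (at most `F.card`) such that `F` meets `blk x` and
`nz (flipD F z) x` is even and positive choose (`T_FRESH`, `N = 1`) a fresh word of `blk x` outside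
`F ∪ Q`; `E` is the set of these words. Use `T_PAR`, `T_DISJ`. -/
def T_FIX : Prop := ∀ (l : ℕ) (z : Lang) (F Q : Finset (List Bool)), z ∈ Con →
  (∀ v ∈ F, l < v.length) → Q.card + 2 * F.card < 2 ^ (l / 2) →
  ∃ E : Finset (List Bool), E.card ≤ F.card ∧ (∀ v ∈ E, l < v.length ∧ v ∉ F ∧ v ∉ Q) ∧
    flipD (F ∪ E) z ∈ Con

/-- Even completion. For the finitely many `x` such that `(F ∩ blk x).card` is odd choose a fresh
word of `blk x` outside `F ∪ Q`; `E` is the set of these words. -/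
def T_EVC : Prop := ∀ (l : ℕ) (F Q : Finset (List Bool)), (∀ v ∈ F, l < v.length) →
  Q.card + 2 * F.card < 2 ^ (l / 2) →
  ∃ E : Finset (List Bool), E.card ≤ F.card ∧ (∀ v ∈ E, l < v.length ∧ v ∉ F ∧ v ∉ Q) ∧
    (∀ x, Even ((F ∪ E) ∩ blk x).card) ∧ ∀ x, F ∩ blk x = ∅ → E ∩ blk x = ∅

/-- Even flips of blocks with a zero stay in `Con` (`T_PAR`). -/
def T_KEEP : Prop := ∀ (z : Lang) (D : Finset (List Bool)), z ∈ Con →
  (∀ x, Even (D ∩ blk x).card) → (∀ x, (D ∩ blk x).Nonempty → 0 < nz z x) → flipD D z ∈ Con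

/-! ## FewP -/

/-- `n = b + 1`. If there is no such tree take `z, T, h` from `T_CERT` with `G = Slc l g₀`. Let
`C i = asked (h i) (T i)`, `B i = (C i).filter fun v => h i v ≠ z v` (words of length greater than
`l`), `F` the union of the `B i`, `Q` the union of the `C i`, `E` from `T_FIX`,
`z' = flipD (F ∪ E) z ∈ Slc l g₀`. `z'` agrees with `h i` on `C i`, so `T i` accepts `z'` and
`asked z' (T i) = C i` (`T_ASK`). The `T i` are different: if `T i = T j`, `i ≠ j`, then `C i = C j`,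
so `B i = ∅` and `T i` accepts `z`. So at least `n` members of `L` accept `z'`. -/
def T_DTFEW : Prop := ∀ (l : ℕ) (g₀ : Lang) (L : List (DT (List Bool))) (w b : ℕ)
  (S : Set (List Bool)), (∀ T ∈ L, T.depth ≤ w ∧ T.In S) →
  (∀ z ∈ Slc l g₀, L.countP (fun T => T.eval z) ≤ b) → 3 * ((b + 1) * w) < 2 ^ (l / 2) →
  ∃ T : DT (List Bool), T.depth ≤ w * ((w + 1) * (b + 1)) ∧ T.In S ∧
    ∀ z ∈ Slc l g₀, (T.eval z = true ↔ Sat L z)

/-! ## coAM -/

/-- `n = 3 * d + 1`. Take `z, T, h` from `T_CERT`, `C i`, `B i` as in `T_DTFEW`. Choose `E 0, E 1, ..`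
one after the other by `T_FIX` for `F = B i` and `Q` = the union of all `C j` and of the `E j`,
`j < i` (at most `2 n w` words, so `Q.card + 2 w < 2 ^ (l / 2)`). Then the sets
`B i ∪ E i` are disjoint, `z i = flipD (B i ∪ E i) z ∈ Slc l g₀` agrees with `h i` on `C i`, so
`Sat L (z i)`, while `¬ Sat L z`. For every `M ∈ Rs` with `Sat M z` choose `T_M ∈ M` with
`T_M.eval z = true`; `asked z T_M` has at most `d` elements, so it meets at most `d` of the sets
`B i ∪ E i`; if it does not meet `B i ∪ E i` then `Sat M (z i)`. Sum over `i`: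
`n * a ≤ n * Rs.length / 3 + d * Rs.length` with `a ≥ 2 / 3 * Rs.length` the number of the `M` with
`Sat M z`. So `n ≤ 3 d`, a contradiction. -/
def T_DTAM : Prop := ∀ (l : ℕ) (g₀ : Lang) (L : List (DT (List Bool))) (w d : ℕ)
  (S : Set (List Bool)) (Rs : List (List (DT (List Bool)))),
  (∀ T ∈ L, T.depth ≤ w ∧ T.In S) → (∀ M ∈ Rs, ∀ T ∈ M, T.depth ≤ d) → Rs ≠ [] →
  (∀ z ∈ Slc l g₀,
    (¬ Sat L z → 2 * Rs.length ≤ 3 * Rs.countP (fun M => decide (Sat M z))) ∧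
    (Sat L z → 3 * Rs.countP (fun M => decide (Sat M z)) ≤ Rs.length)) →
  4 * ((3 * d + 1) * w) < 2 ^ (l / 2) →
  ∃ T : DT (List Bool), T.depth ≤ w * ((w + 1) * (3 * d + 1)) ∧ T.In S ∧
    ∀ z ∈ Slc l g₀, (T.eval z = true ↔ Sat L z)

/-! ## AWPP -/

/-- A polynomial of degree at most `d` that is bounded by `1` at `x_i = 1 + 16 i ^ 2`, `i ≤ d`, does
not jump from `2 / 3` to `1 / 3` between `1` and `0`. Lagrange interpolation at the `x_i`:
`∑ 2 / (1 + 16 i ^ 2) ≤ (1 / 4) * (1 - 1 / (2 d + 1)) ≤ 1 / 4`, `w 0 ≥ 1` (a product of factors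
`≥ 1`) and so `q(0) ≥ (2 / 3 - 1 / 4) * w 0 ≥ 5 / 12`. -/
def T_POL : Prop := ∀ (d : ℕ) (q : Polynomial ℝ), q.natDegree ≤ d → q.eval 0 ≤ 1 / 3 →
  2 / 3 ≤ q.eval 1 → (∀ i : ℕ, i ≤ d → |q.eval (1 + 16 * (i : ℝ) ^ 2)| ≤ 1) → False

/-- The number of the sets `S` of `k` elements of `F` for which the tree accepts `z` with the bits of
`S` flipped. -/
def T_SYM : Prop := ∀ (T : DT (List Bool)) (F : Finset (List Bool)) (z : Lang),
  ∃ q : Polynomial ℝ, q.natDegree ≤ T.depth ∧ ∀ k : ℕ, k ≤ F.card →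
    (((F.powersetCard k).filter fun S => T.eval (flipD S z) = true).card : ℝ) =
      q.eval (k : ℝ) * (F.card.choose k : ℝ)

/-- The same for flips of disjoint sets. By induction on `T` there is a tree `T'` of depth at most
`T.depth` with `T'.eval (flipD (s.image e) (fun _ => false)) = T.eval (flipD (s.biUnion D) z)` for all
`s`, `e i = List.replicate i true`: for `T = node v l r`, if `v ∈ D i` take `node (e i) l' r'` if
`z v = false` and `node (e i) r' l'` if `z v = true`; if `v` is in no `D i` take `l'` or `r'`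
according to `z v`. Then use `T_SYM` for `T'` and `F = univ.image e`. -/
def T_SYMB : Prop := ∀ (n : ℕ) (D : Fin n → Finset (List Bool)) (z : Lang) (T : DT (List Bool)),
  (∀ i j, i ≠ j → Disjoint (D i) (D j)) →
  ∃ q : Polynomial ℝ, q.natDegree ≤ T.depth ∧ ∀ k : ℕ, k ≤ n →
    ((((Finset.univ : Finset (Fin n)).powersetCard k).filter fun s =>
      T.eval (flipD (s.biUnion D) z) = true).card : ℝ) = q.eval (k : ℝ) * (n.choose k : ℝ)

/-- A zero can be put into an empty block without changing the value. Take a set `F` of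
`16 d ^ 2 + 1` fresh words of the block, and the polynomial
`q = (q₁ - q₂) / H`: `q(k)` is the average of the gap divided by `H`, so `q(0) ≤ 1 / 3`,
`q(1) ≥ 2 / 3`, and `0 ≤ q(k) ≤ 1` for odd `k`. -/
def T_SWI : Prop := ∀ (l : ℕ) (g₀ : Lang) (L M₁ M₂ : List (DT (List Bool))) (d H : ℕ),
  (∀ T ∈ M₁, T.depth ≤ d) → (∀ T ∈ M₂, T.depth ≤ d) → 0 < H → Gap l g₀ L M₁ M₂ H →
  ∀ z ∈ Slc l g₀, ¬ Sat L z → ∀ (x : List Bool) (Q : Finset (List Bool)), nz z x = 0 →
    (∃ v ∈ blk x, l < v.length) → Q.card + (16 * d ^ 2 + 1) ≤ 2 ^ (l / 2) →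
    ∃ v ∈ blk x, l < v.length ∧ v ∉ Q ∧ flipD {v} z ∈ Slc l g₀ ∧ ¬ Sat L (flipD {v} z)

/-- `n = 16 d ^ 2 + 1`. Take `z, T, h` from `T_CERT`; `z₁` from `T_SWI`, with zeros in all blocks
that meet the flips, and the even completions from `T_EVC`. At the end: the polynomial
`q = (∑ T ∈ M₁, q_T - ∑ T ∈ M₂, q_T) / H` of `T_SYMB` for the sets `D i` and `z₁` has degree at
most `d` and `q(k)` is the average over the `s` with `k` elements of the gap of
`flipD (s.biUnion D) z₁` divided by `H`. As `Sat L` holds exactly for `s` nonempty, `q(0) ≤ 1 / 3` and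
`2 / 3 ≤ q(k) ≤ 1` for `1 ≤ k ≤ n`, against `T_POL`. -/
def T_DTAW : Prop := ∀ (l : ℕ) (g₀ : Lang) (L M₁ M₂ : List (DT (List Bool))) (w d H : ℕ)
  (S : Set (List Bool)), (∀ T ∈ L, T.depth ≤ w ∧ T.In S) →
  (∀ T ∈ M₁, T.depth ≤ d) → (∀ T ∈ M₂, T.depth ≤ d) → 0 < H → Gap l g₀ L M₁ M₂ H →
  4 * ((16 * d ^ 2 + 1) * w) + 16 * d ^ 2 + 1 < 2 ^ (l / 2) →
  ∃ T : DT (List Bool), T.depth ≤ w * ((w + 1) * (16 * d ^ 2 + 1)) ∧ T.In S ∧
    ∀ z ∈ Slc l g₀, (T.eval z = true ↔ Sat L z)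

/-! ## Machines -/

/-- As `LOW.BR_.base`, with `In`. -/
def T_TREE0 : Prop := ∀ (cd : ℕ → Code) (Q : List Instr) (c : ℕ) (u : List Bool),
  ∃ T : DT (List Bool), T.depth ≤ (u.length + 2) ^ (2 * c + 2) ∧
    T.In (Sh ((u.length + 2) ^ (2 * c + 2))) ∧
    ∀ g : Lang, (T.eval g = true ↔ acc (orcC cd g) emp Q c u)

/-- The number `l = m + 2 * (e + 1) * Nat.size N`. -/
def T_NUML : Prop := ∀ e m N : ℕ, 2 ≤ N → ∃ l : ℕ, m ≤ l ∧ N ^ e < 2 ^ (l / 2) ∧
  2 ^ (l + 1) ≤ N ^ (m + 4 * e + 5) ∧ l ≤ N ^ (m + 4 * e + 5)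

/-- Robust tests give decision trees of polynomial depth. Fix `x`. Let `L` be the list of the trees
of `T_TREE0` for `pair x y`, `y ∈ W ((|x| + 2) ^ j)` (`Finset.toList`); then `Sat L g'` iff
`npf Q j c (orcC cd g') x`, and `countP` is `cnt`. Take `l ≥ m` from `T_NUML` for a large
exponent `e`, and for every `g₀ ∈ Con` with `Eqm m g g₀` the tree of `T_DTFEW` for `Slc l g₀`
(every `z ∈ Slc l g₀` satisfies `Eqm m g z`). Finish with `T_SPLIT` for
`G = {g' ∈ Con | Eqm m g g'}`. Compare `LOW.p_ROBDT`. -/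
def T_ROBFEW : Prop := ∀ (cd : ℕ → Code) (g : Lang) (m : ℕ) (Q : List Instr) (j c q : ℕ),
  RobT cd g m (Test.few Q j c q) → ∃ K₀ : ℕ, ∀ K, K₀ ≤ K → ∀ x : List Bool,
    ∃ T : DT (List Bool), T.depth ≤ (x.length + 2) ^ K ∧ T.In (Sh ((x.length + 2) ^ K)) ∧
    ∀ g' ∈ Con, Eqm m g g' → T.eval g' = npf Q j c (orcC cd g') x

/-- The same with `T_DTAW`. -/
def T_ROBAW : Prop := ∀ (cd : ℕ → Code) (g : Lang) (m : ℕ) (Q : List Instr) (j c : ℕ)
  (Q₁ Q₂ : List Instr) (j' c₁ c₂ e i : ℕ),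
  RobT cd g m (Test.aw Q j c Q₁ Q₂ j' c₁ c₂ e i) → ∃ K₀ : ℕ, ∀ K, K₀ ≤ K → ∀ x : List Bool,
    ∃ T : DT (List Bool), T.depth ≤ (x.length + 2) ^ K ∧ T.In (Sh ((x.length + 2) ^ K)) ∧
    ∀ g' ∈ Con, Eqm m g g' → T.eval g' = npf Q j c (orcC cd g') x

/-- The same with `T_DTAM`; `Rs` is the list over the words `r` of length `(|x| + 2) ^ i` of the
lists of the trees for `pair (pair x r) y`, `y ∈ W ((|x| + 2) ^ j')`; `Rs.length = 2 ^ (..)`. -/
def T_ROBAM : Prop := ∀ (cd : ℕ → Code) (g : Lang) (m : ℕ) (Q : List Instr) (j c : ℕ)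
  (Q' : List Instr) (i j' c' : ℕ),
  RobT cd g m (Test.am Q j c Q' i j' c') → ∃ K₀ : ℕ, ∀ K, K₀ ≤ K → ∀ x : List Bool,
    ∃ T : DT (List Bool), T.depth ≤ (x.length + 2) ^ K ∧ T.In (Sh ((x.length + 2) ^ K)) ∧
    ∀ g' ∈ Con, Eqm m g g' → T.eval g' = npf Q j c (orcC cd g') x

/-- The tests are local (compare `LOW.p_LOCN`). -/
def T_LOCT : Prop := ∀ t : Test, ∃ K : ℕ, ∀ (X X' : Lang) (x : List Bool),
  (∀ v : List Bool, v.length < (x.length + 2) ^ K → X v = X' v) → (t.ok X x ↔ t.ok X' x)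

/-- There are countably many tests. -/
def T_CNTT : Prop := Countable Test

/-- The oracle `orcC` is local (as `LOW.p_ORCLOC`). -/
def T_ORCLOCC : Prop := ∀ (cd : ℕ → Code) (m : ℕ) (g g' : Lang), Eqm m g g' →
  ∀ v : List Bool, v.length ≤ m → orcC cd g v = orcC cd g' v

/-- As `LOW.T_DEP`. -/
def T_DEPC : Prop := ∀ (cd : ℕ → Code) (u : List Bool),
  (trC cd u).depth ≤ u.length ∧ (trC cd u).In (Sh u.length)

/-- As `LOW.T_TRN`. -/
def T_TRNC : Prop := ∀ (cd : ℕ → Code) (L : ℕ) (u : List Bool),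
  (u.length < L → trnC cd L u = trC cd u) ∧ (L ≤ u.length → trnC cd L u = DT.leaf false)

/-- As `LOW.T_VALS`. -/
def T_VALSC : Prop := ∀ (cd : ℕ → Code) (g : Lang),
  (∀ w : List Bool, orcC cd g (false :: w) = g w) ∧
  (∀ (m e : ℕ) (x : List Bool), orcC cd g (true :: false :: triple m e x) =
    decide ((x.length + 2) ^ (cd e).1 ≤ m))

/-- As `LOW.T_VAL`. -/
def T_VALC : Prop := ∀ (cd : ℕ → Code) (e m : ℕ) (x : List Bool) (g : Lang),
  g ∈ Cyl (cd e).2.1 → g ∈ Con → Loc ((cd e).2.2.fn) (cd e).1 → (x.length + 2) ^ (cd e).1 ≤ m →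
  (∃ T : DT (List Bool), T.depth ≤ (x.length + 2) ^ (cd e).1 ∧
    T.In (Sh ((x.length + 2) ^ (cd e).1)) ∧
    ∀ g' ∈ Cyl (cd e).2.1 ∩ Con, T.eval g' = (cd e).2.2.fn (orcC cd g') x) →
  orcC cd g (true :: true :: triple m e x) = (cd e).2.2.fn (orcC cd g) x

/-- As `LOW.T_COLL`. -/
def T_COLLC : Prop := ∀ (cd : ℕ → Code) (g : Lang) (m K : ℕ) (f : Fn), Function.Surjective cd →
  g ∈ Con → Loc f.fn K →
  (∀ x : List Bool, ∃ T : DT (List Bool), T.depth ≤ (x.length + 2) ^ K ∧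
    T.In (Sh ((x.length + 2) ^ K)) ∧
    ∀ g' ∈ Con, Eqm m g g' → T.eval g' = f.fn (orcC cd g') x) →
  f.fn (orcC cd g) ∈ P (orcC cd g) emp

/-- The generic language has the first property. -/
def RobAll (cd : ℕ → Code) (g : Lang) : Prop :=
  ∀ t : Test, (∃ x, ¬ t.ok (orcC cd g) x) ∨ ∃ m, RobT cd g m t

/-- The three classes. A member of the class gives a test which is passed at all `x`; so the test is
robust. Use `T_ROBFEW`, `T_ROBAW`, `T_ROBAM`, `LOW.T_LOCN` (`LOW.p_LOCN`) and `T_COLLC`. Compare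
`LOW.p_NPP`. -/
def T_CLS : Prop := ∀ (cd : ℕ → Code) (g : Lang), Function.Surjective cd → g ∈ Con →
  RobAll cd g → FewP (orcC cd g) ⊆ P (orcC cd g) emp ∧
    NP (orcC cd g) ∩ AWPP (orcC cd g) ⊆ P (orcC cd g) emp ∧
    NP (orcC cd g) ∩ CoAM (orcC cd g) ⊆ P (orcC cd g) emp

/-! ## Genericity -/

/-- As `LOW.T_GEN`, in `Con`; start with the language of all words; the limit is in `Con` since every
block is finite. -/
def T_GENC : Prop := ∀ Rq : ℕ → Set Lang,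
  (∀ (s : ℕ) (g₀ : Lang) (m : ℕ), g₀ ∈ Con → ∃ (g : Lang) (m' : ℕ), g ∈ Con ∧ Eqm m g₀ g ∧
    ∀ g' ∈ Con, Eqm m' g g' → g' ∈ Rq s) →
  ∃ g ∈ Con, ∀ s, g ∈ Rq s

/-- As `LOW.T_DENS1`. -/
def T_DENS1C : Prop := ∀ (cd : ℕ → Code) (t : Test) (g₀ : Lang) (m : ℕ), g₀ ∈ Con →
  ∃ (g : Lang) (m' : ℕ), g ∈ Con ∧ Eqm m g₀ g ∧ ∀ g' ∈ Con, Eqm m' g g' →
    ((∃ x, ¬ t.ok (orcC cd g') x) ∨ ∃ m₁, RobT cd g' m₁ t)

/-- As `LOW.T_STEP` for `D = R n (k + 2)` (see the proof of `LOW.p_STEP`), with the number of zeros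
of the lift: at most one in every block of a word of `R n (k + 1)`. -/
def T_STEPC : Prop := ∀ (n k s a : ℕ) (h : Lang)
  (Ls : List (List (DT (List Bool)))), 1 ≤ s → 1 ≤ n →
  (∀ u ∈ R n (k + 1), n ≤ u.length ∧ u.length ≤ a) → (∀ u ∈ R n k, n ≤ u.length) →
  (16 * s + 1) * (a + 3) ≤ 2 ^ n →
  (∀ L ∈ Ls, ∀ T ∈ L, T.depth ≤ s) → 4 * Ls.length ≤ 2 ^ s →
  ∃ (D' : Finset (List Bool)) (lift : Lang → Lang), Fr n k D' ∧
    (∀ z', Adm D' (fun _ => true) z' → Adm (R n (k + 2)) h (lift z')) ∧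
    (∀ z', Adm D' (fun _ => true) z' → ∀ u ∈ R n (k + 1), nz (lift z') u ≤ 1) ∧
    (∀ z', Adm D' (fun _ => true) z' → ∀ u ∈ R n (k + 1), U 1 (lift z') u = z' u) ∧
    (∀ L ∈ Ls, ∃ T : DT (List Bool), T.depth ≤ s ∧ ∀ z', Adm D' (fun _ => true) z' →
      T.eval z' = List.any L (fun T' => !(T'.eval (lift z'))))

/-- The lower bound in `Con`. `k = 0`: as in `LOW.p_LB`, with `z = true` on `R n 1` and `z = h`
elsewhere (`nz z 1^n = 0`), and one flip (`nz = 1`). `k + 1`: `T_STEPC`; the lifts are in `Con`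
(blocks of words of `R n (k + 1)` have at most one zero, the other blocks are as in `h`); then
`LOW.T_LB` (`p_LB`, see the end of `Pool/Agent/LOW/LB.lean`) for `k`, `D'` and `fun _ => true`. -/
def T_LBC : Prop := ∀ (n s a M k : ℕ) (h : Lang) (C : Ckt (List Bool) k), h ∈ Con → 1 ≤ s →
  1 ≤ n → (∀ i ≤ k, ∀ u ∈ R n i, n ≤ u.length ∧ u.length ≤ a) →
  (16 * s + 1) * (a + 3) ≤ 2 ^ n → 1 ≤ M → 4 * M ^ k ≤ 2 ^ s → Ckt.Bd M s k C →
  ¬ ∀ z ∈ Con, Adm (R n (k + 1)) h z → Ckt.ev z k C = U (k + 1) z (List.replicate n true)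

/-- As `LOW.T_BR`. -/
def T_BRC : Prop := ∀ (cd : ℕ → Code) (Q : List Instr) (c : ℕ) (js : List ℕ),
  ∃ C₀ : ℕ, ∀ x : List Bool, ∃ C : Ckt (List Bool) js.length,
    Ckt.Bd (2 ^ ((x.length + 2) ^ C₀)) ((x.length + 2) ^ C₀) js.length C ∧
    ∀ g : Lang, Ckt.ev g js.length C = SigF (orcC cd g) Q c js x

/-- As `LOW.T_DENS2`. -/
def T_DENS2C : Prop := ∀ (cd : ℕ → Code) (Q : List Instr) (c : ℕ) (js : List ℕ) (g₀ : Lang)
  (m : ℕ), g₀ ∈ Con → ∃ g ∈ Con, Eqm m g₀ g ∧ ∃ n : ℕ,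
    U (js.length + 1) g (List.replicate n true) ≠ SigF (orcC cd g) Q c js (List.replicate n true)

/-- As `LOW.T_OPEN`. -/
def T_OPENC : Prop := ∀ (cd : ℕ → Code) (Q : List Instr) (c : ℕ) (js : List ℕ) (k : ℕ)
  (x : List Bool), ∃ m : ℕ, ∀ g g' : Lang, Eqm m g g' →
    U k g x = U k g' x ∧ SigF (orcC cd g) Q c js x = SigF (orcC cd g') Q c js x

/-- `NP` is not in `⊕P`. Suppose not; let `x = 1^n` with `n > m` large, `M` the list of the trees
(`T_TREE0`) for the parity machine at `x`, of depth at most `d = (n + 2) ^ K`, `d + 1 < 2 ^ n`. Let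
`z₀` be `g₀` outside `blk x`, and `true` on `blk x` except for one word `pair x y₀` with
`|y₀| = (n + 2) ^ 2`. For different words `y_i`, `i ≤ d`, of length at most `n + 2` and different
words `y'_i ≠ y₀` of length `(n + 2) ^ 2` let `B i = {pair x y_i, pair x y'_i}`. The languages
`flp z₀ B ζ` are in `Con` (the number of zeros of the block is `1 + 2 |ζ|`), `VV` has the value
`true` at `x` iff `ζ ≠ 0`: an odd number of `ζ`, against `LOW.T_EVEN` (`LOW.p_EVEN`). The value of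
`VV` and of `paf` at `x` is local (`LOW.p_LOCN`, `T_ORCLOCC`). -/
def T_DENS3 : Prop := ∀ (cd : ℕ → Code) (Q : List Instr) (j c : ℕ) (g₀ : Lang) (m : ℕ),
  g₀ ∈ Con → ∃ (g : Lang) (m' : ℕ), g ∈ Con ∧ Eqm m g₀ g ∧ ∀ g' : Lang, Eqm m' g g' →
    ∃ x, VV g' x ≠ paf Q j c (orcC cd g') x

/-! ## Small programs -/

/-- The complement of the generic part is in `P` (compare `LOW.p_UZ`). -/
def T_UZN : Prop := ∀ O g : Lang, (∀ w, O (false :: w) = g w) → (fun w => !(g w)) ∈ P O emp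

/-- `U k A ∈ Σ_k^{P,A}` (compare `LOW.p_UZ` and `LOW.p_UIN`; the program for `k = 0` asks the
second oracle). -/
def T_UAS : Prop := ∀ (O A : Lang) (k : ℕ), U k A ∈ Sigma k O A

/-- The main theorem. -/
def Main : Prop := ∃ O : Lang,
  FewP O ⊆ P O emp ∧ NP O ∩ AWPP O ⊆ P O emp ∧ NP O ∩ CoAM O ⊆ P O emp ∧
  ¬ NP O ⊆ ParP O ∧
  (∀ k, Sigma k O emp ≠ Sigma (k + 1) O emp) ∧
  ∃ A ∈ NP O ∩ ParP O, (∀ k, Sigma k O A ≠ Sigma k O emp) ∧
    ∃ C ∈ P O emp, ∃ j : ℕ, ∀ x : List Bool,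
      (A x = false → {y : List Bool | y.length ≤ (x.length + 2) ^ j ∧
        C (pair x y) = true}.ncard = 0) ∧
      (A x = true → Odd {y : List Bool | y.length ≤ (x.length + 2) ^ j ∧
        C (pair x y) = true}.ncard)

end Pool.Agent.LOA
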